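import Pool.Agent.H34.SW.Defs

/-!
A1: the ambient group `WW`: `(a * b).lamp z = a.lamp z * b.lamp (z - a.pos)`,
`(a * b).pos = a.pos + b.pos`, and the relations of the generators.
-/

namespace Pool.Agent.H34.SW

open Pool.Agent.H34.LS Filter

noncomputable instance : Mul WW := ⟨fun a b => ⟨fun z => a.lamp z * b.lamp (z - a.pos), a.pos + b.pos⟩⟩
noncomputable instance : One WW := ⟨⟨fun _ => 1, 0⟩⟩
noncomputable instance : Inv WW := ⟨fun a => ⟨fun z => (a.lamp (z + a.pos))⁻¹, -a.pos⟩⟩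

theorem ww_mul_lamp (a b : WW) (z : ℤ) : (a * b).lamp z = a.lamp z * b.lamp (z - a.pos) := rfl
theorem ww_mul_pos (a b : WW) : (a * b).pos = a.pos + b.pos := rfl
theorem ww_one_lamp (z : ℤ) : (1 : WW).lamp z = 1 := rfl
theorem ww_one_pos : (1 : WW).pos = 0 := rfl
theorem ww_inv_lamp (a : WW) (z : ℤ) : (a⁻¹).lamp z = (a.lamp (z + a.pos))⁻¹ := rfl
theorem ww_inv_pos (a : WW) : (a⁻¹).pos = -a.pos := rfl

noncomputable instance : Group WW :=
  Group.ofLeftAxioms
    (by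
      intro a b c
      apply WW.ext
      · funext z
        rw [ww_mul_lamp, ww_mul_lamp, ww_mul_lamp, ww_mul_lamp, ww_mul_pos, mul_assoc, sub_sub]
      · rw [ww_mul_pos, ww_mul_pos, ww_mul_pos, ww_mul_pos, add_assoc])
    (by
      intro a
      apply WW.ext
      · funext z
        rw [ww_mul_lamp, ww_one_lamp, ww_one_pos, one_mul, sub_zero]
      · rw [ww_mul_pos, ww_one_pos, zero_add])
    (by
      intro a
      apply WW.ext
      · funext z
        rw [ww_mul_lamp, ww_inv_lamp, ww_inv_pos, ww_one_lamp, sub_neg_eq_add, inv_mul_cancel]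
      · rw [ww_mul_pos, ww_inv_pos, ww_one_pos, neg_add_cancel])

/-- the position as a homomorphism. -/
noncomputable def hpos : WW →* Multiplicative ℤ where
  toFun a := Multiplicative.ofAdd a.pos
  map_one' := rfl
  map_mul' _ _ := rfl

private theorem a1_tau : tau * tau = 1 := by
  have h2 : (1 : K) + 1 = 0 := CharTwo.add_self_eq_zero 1
  apply Equiv.ext
  intro v
  rw [Equiv.Perm.mul_apply, Equiv.Perm.one_apply]
  show v + ((1 : K), (1 : K)) + ((1 : K), (1 : K)) = v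
  have h3 : ((1 : K), (1 : K)) + ((1 : K), (1 : K)) = 0 := Prod.ext h2 h2
  rw [add_assoc, h3, add_zero]

private theorem a1_sw : sw * sw = 1 := by
  apply Equiv.ext
  intro v
  rfl

private theorem a1_rr (u : Kˣ) : rr u * rr u = 1 := by
  apply Equiv.ext
  intro v
  exact (rr u).left_inv v

private theorem a1_zero_ne (n : ℕ) : ¬ (-(0 : ℤ) = 2 ^ n) := by
  rw [neg_zero]
  exact (pow_pos (by norm_num) n).ne

theorem ga_lamp_zero : ga.lamp 0 = tau := by
  show (if (0 : ℤ) = 0 then tau else 1) = tau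
  exact if_pos rfl

theorem ga_lamp_ne {z : ℤ} (h : z ≠ 0) : ga.lamp z = 1 := if_neg h

theorem gb_lamp_zero : gb.lamp 0 = sw := by
  show (if (0 : ℤ) = 0 then sw else 1) = sw
  exact if_pos rfl

theorem gb_lamp_ne {z : ℤ} (h : z ≠ 0) : gb.lamp z = 1 := if_neg h

theorem ga_sq : ga * ga = 1 := by
  apply WW.ext
  · funext z
    rw [ww_mul_lamp, ww_one_lamp]
    have h0 : z - ga.pos = z := sub_zero z
    rw [h0]
    by_cases hz : z = 0
    · subst hz
      rw [ga_lamp_zero, a1_tau]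
    · rw [ga_lamp_ne hz, mul_one]
  · rfl

theorem gb_sq : gb * gb = 1 := by
  apply WW.ext
  · funext z
    rw [ww_mul_lamp, ww_one_lamp]
    have h0 : z - gb.pos = z := sub_zero z
    rw [h0]
    by_cases hz : z = 0
    · subst hz
      rw [gb_lamp_zero, a1_sw]
    · rw [gb_lamp_ne hz, mul_one]
  · rfl

theorem gc_sq (θ : ℕ → Kˣ) : gc θ * gc θ = 1 := by
  apply WW.ext
  · funext z
    rw [ww_mul_lamp, ww_one_lamp]
    have h0 : z - (gc θ).pos = z := sub_zero z
    rw [h0]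
    by_cases hz : -z = 2 ^ lg (-z)
    · have h1 : (gc θ).lamp z = rr (θ (lg (-z))) := if_pos hz
      rw [h1, a1_rr]
    · have h1 : (gc θ).lamp z = 1 := if_neg hz
      rw [h1, mul_one]
  · rfl

theorem gb_gc (θ : ℕ → Kˣ) : gb * gc θ = gc θ * gb := by
  apply WW.ext
  · funext z
    rw [ww_mul_lamp, ww_mul_lamp]
    have h0 : z - gb.pos = z := sub_zero z
    have h0' : z - (gc θ).pos = z := sub_zero z
    rw [h0, h0']
    by_cases hz : z = 0
    · subst hz
      have h1 : (gc θ).lamp 0 = 1 := by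
        show (if -(0 : ℤ) = 2 ^ lg (-0) then rr (θ (lg (-0))) else 1) = 1
        exact if_neg (a1_zero_ne _)
      rw [h1, mul_one, one_mul]
    · rw [gb_lamp_ne hz, mul_one, one_mul]
  · rfl

theorem lg_pow (j : ℕ) : lg (2 ^ j) = j := by
  unfold lg
  have h1 : ((2 : ℤ) ^ j).toNat = 2 ^ j := by
    have h2 : ((2 : ℤ) ^ j) = ((2 ^ j : ℕ) : ℤ) := by push_cast; rfl
    rw [h2, Int.toNat_natCast]
  rw [h1]
  exact Nat.log_pow (by norm_num) j

theorem gc_lamp_pow (θ : ℕ → Kˣ) (j : ℕ) : (gc θ).lamp (-2 ^ j) = rr (θ j) := by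
  have h1 : -(-2 ^ j : ℤ) = 2 ^ lg (-(-2 ^ j : ℤ)) := by
    rw [neg_neg, lg_pow]
  have h2 : (gc θ).lamp (-2 ^ j) = rr (θ (lg (-(-2 ^ j : ℤ)))) := if_pos h1
  rw [h2, neg_neg, lg_pow]

theorem gc_lamp_ne (θ : ℕ → Kˣ) {z : ℤ} (h : ∀ j : ℕ, z ≠ -2 ^ j) : (gc θ).lamp z = 1 := by
  apply if_neg
  intro h1
  apply h (lg (-z))
  rw [← h1, neg_neg]

end Pool.Agent.H34.SW
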