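import Pool.Agent.H34.SW.Defs
import Pool.Agent.H34.LS.V2

/-!
A2: the measure `PP` in a group with elements `t a b c`, `a, b, c` commuting (at least `b, c`)
involutions. The support of `PP` contains `1`, `a`, `t`, `t⁻¹`, `b * t`, `c * t` (for `1 ≤ M`).
`(b^x c^y t^{±1} b^x' c^y')⁻¹ = b^x' c^y' t^{∓1} b^x c^y`.
-/

namespace Pool.Agent.H34.SW

open Pool.Agent.H34.LS Filter

variable {G : Type} [Group G] {M : ℕ} {t a b c : G}

private theorem a2_ml_nonneg (l : Lt M) (g : G) : 0 ≤ ml t a b c l g := by
  classical
  unfold ml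
  split_ifs
  · rw [Finsupp.add_apply, Finsupp.single_apply, Finsupp.single_apply]
    split_ifs <;> norm_num
  · rw [Finsupp.single_apply]
    split_ifs <;> norm_num

private theorem a2_apply (g : G) :
    PP M t a b c g = (1 / (32 * ((M : ℝ) + 1))) * ∑ l : Lt M, ml t a b c l g := by
  unfold PP
  rw [Finsupp.smul_apply, Finsupp.finsetSum_apply, smul_eq_mul]

private theorem a2_pos : (0 : ℝ) < 1 / (32 * ((M : ℝ) + 1)) := by positivity

theorem pp_nonneg (g : G) : 0 ≤ PP M t a b c g := by
  rw [a2_apply]
  exact mul_nonneg a2_pos.le (Finset.sum_nonneg fun l _ => a2_ml_nonneg l g)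

private theorem a2_tot_single (x : G) (r : ℝ) : tot (Finsupp.single x r) = r := by
  unfold tot
  rw [Finsupp.sum_single_index rfl]

private theorem a2_tot_ml (l : Lt M) : tot (ml t a b c l) = 1 := by
  unfold ml
  split_ifs
  · rw [tot_add, a2_tot_single, a2_tot_single]
    norm_num
  · rw [a2_tot_single]

private theorem a2_tot_sum (s : Finset (Lt M)) (f : Lt M → (G →₀ ℝ)) :
    tot (∑ l ∈ s, f l) = ∑ l ∈ s, tot (f l) := by
  classical
  induction s using Finset.induction_on with
  | empty => simp [tot]
  | insert l s hl ih => rw [Finset.sum_insert hl, Finset.sum_insert hl, tot_add, ih]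

private theorem a2_card : (Fintype.card (Lt M) : ℝ) = 32 * ((M : ℝ) + 1) := by
  have : Fintype.card (Lt M) = 32 * (M + 1) := by
    simp only [Lt, Fintype.card_prod, Fintype.card_fin, Fintype.card_bool]
    ring
  rw [this]
  push_cast
  ring

theorem pp_tot : tot (PP M t a b c) = 1 := by
  unfold PP
  rw [tot_smul, a2_tot_sum, Finset.sum_congr rfl (fun l _ => a2_tot_ml l), Finset.sum_const,
    Finset.card_univ, nsmul_eq_mul, a2_card, mul_one]
  have : (32 * ((M : ℝ) + 1)) ≠ 0 := by positivity
  field_simp

theorem pp_fs : IsFSProb (fun g => PP M t a b c g) := by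
  have hs : Function.support (fun g => PP M t a b c g) = ↑(PP M t a b c).support := by
    ext g
    simp
  refine ⟨pp_nonneg, ?_, ?_⟩
  · rw [hs]
    exact Finset.finite_toSet _
  · rw [finsum_eq_sum_of_support_subset _ (s := (PP M t a b c).support) (by rw [hs])]
    exact pp_tot

/-- the flip of a letter. -/
private def a2_flip (l : Lt M) : Lt M := (l.1, l.2.2.2, !l.2.2.1, l.2.1)

private theorem a2_flip_flip : Function.Involutive (a2_flip (M := M)) := by
  intro l
  obtain ⟨i, x, d, y⟩ := l
  simp [a2_flip]

private theorem a2_bc_inv (hb : b * b = 1) (hc : c * c = 1) (hbc : b * c = c * b)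
    (q : Bool × Bool) : (bc b c q)⁻¹ = bc b c q := by
  have hb' : b⁻¹ = b := inv_eq_of_mul_eq_one_left hb
  have hc' : c⁻¹ = c := inv_eq_of_mul_eq_one_left hc
  obtain ⟨x, y⟩ := q
  cases x <;> cases y <;> simp [bc, hb', hc', hbc]

private theorem a2_gl_flip (hb : b * b = 1) (hc : c * c = 1) (hbc : b * c = c * b) (l : Lt M) :
    gl t b c (a2_flip l) = (gl t b c l)⁻¹ := by
  unfold gl
  rw [mul_inv_rev, mul_inv_rev, a2_bc_inv hb hc hbc, a2_bc_inv hb hc hbc, mul_assoc]
  obtain ⟨i, x, d, y⟩ := l
  cases d <;> simp [a2_flip]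

private theorem a2_ml_flip (ha : a * a = 1) (hb : b * b = 1) (hc : c * c = 1)
    (hbc : b * c = c * b) (l : Lt M) (g : G) :
    ml t a b c (a2_flip l) g = ml t a b c l g⁻¹ := by
  classical
  have ha' : a⁻¹ = a := inv_eq_of_mul_eq_one_left ha
  unfold ml
  have h1 : (a2_flip l).1 = l.1 := rfl
  rw [h1]
  split_ifs with h
  · simp only [Finsupp.add_apply, Finsupp.single_apply]
    have e1 : ((1 : G) = g) ↔ ((1 : G) = g⁻¹) := by
      rw [eq_comm, eq_comm (a := (1 : G)), inv_eq_one]
    have e2 : (a = g) ↔ (a = g⁻¹) := by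
      constructor
      · intro h; rw [← h, ha']
      · intro h; rw [← inv_inv g, ← h, ha']
    simp only [← e1, ← e2]
  · rw [a2_gl_flip hb hc hbc, Finsupp.single_apply, Finsupp.single_apply]
    have e : ((gl t b c l)⁻¹ = g) ↔ (gl t b c l = g⁻¹) := by
      rw [inv_eq_iff_eq_inv]
    simp only [e]

theorem pp_symm (ha : a * a = 1) (hb : b * b = 1) (hc : c * c = 1) (hbc : b * c = c * b) :
    Symm (fun g => PP M t a b c g) := by
  intro g
  show PP M t a b c g⁻¹ = PP M t a b c g
  rw [a2_apply, a2_apply]
  congr 1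
  rw [← Equiv.sum_comp (Function.Involutive.toPerm _ a2_flip_flip)]
  refine Finset.sum_congr rfl fun l _ => ?_
  show ml t a b c (a2_flip l) g⁻¹ = ml t a b c l g
  rw [a2_ml_flip ha hb hc hbc, inv_inv]

private theorem a2_mem (l : Lt M) (g : G) (h : 0 < ml t a b c l g) :
    g ∈ Function.support (fun g => PP M t a b c g) := by
  rw [Function.mem_support, a2_apply]
  have : 0 < ∑ l : Lt M, ml t a b c l g :=
    lt_of_lt_of_le h (Finset.single_le_sum (fun l _ => a2_ml_nonneg l g) (Finset.mem_univ l))
  exact (mul_pos a2_pos this).ne'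

private theorem a2_mem_a : a ∈ Function.support (fun g => PP M t a b c g) := by
  classical
  refine a2_mem ((0 : Fin (M + 1)), (false, false), false, (false, false)) a ?_
  unfold ml
  rw [if_pos rfl, Finsupp.add_apply, Finsupp.single_apply, Finsupp.single_eq_same]
  split_ifs <;> norm_num

private theorem a2_mem_gl (hM : 1 ≤ M) (q : (Bool × Bool) × Bool × (Bool × Bool)) :
    gl (M := M) t b c ((Fin.last M), q) ∈ Function.support (fun g => PP M t a b c g) := by
  classical
  refine a2_mem ((Fin.last M), q) _ ?_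
  have h : ¬ ((Fin.last M : Fin (M + 1)) = 0) := by
    intro h
    have := congrArg Fin.val h
    simp at this
    omega
  unfold ml
  rw [if_neg h, Finsupp.single_eq_same]
  exact one_pos

theorem pp_gen (hM : 1 ≤ M) (ha : a * a = 1) (hb : b * b = 1) (hc : c * c = 1)
    (hcl : Subgroup.closure ({t, a, b, c} : Set G) = ⊤) :
    Generating (fun g => PP M t a b c g) := by
  have ha' : a⁻¹ = a := inv_eq_of_mul_eq_one_left ha
  have hb' : b⁻¹ = b := inv_eq_of_mul_eq_one_left hb
  have hc' : c⁻¹ = c := inv_eq_of_mul_eq_one_left hc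
  unfold Generating
  set N := Submonoid.closure (Function.support (fun g => PP M t a b c g)) with hN
  have mg : ∀ q : (Bool × Bool) × Bool × (Bool × Bool), gl (M := M) t b c ((Fin.last M), q) ∈ N :=
    fun q => Submonoid.subset_closure (a2_mem_gl hM q)
  have ma : a ∈ N := Submonoid.subset_closure a2_mem_a
  have mt : t ∈ N := by
    have := mg ((false, false), true, (false, false))
    simpa [gl, bc] using this
  have mt' : t⁻¹ ∈ N := by
    have := mg ((false, false), false, (false, false))
    simpa [gl, bc] using this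
  have mb : b ∈ N := by
    have := mg ((true, false), true, (false, false))
    have h2 : b * t ∈ N := by simpa [gl, bc] using this
    have h3 := N.mul_mem h2 mt'
    rwa [mul_assoc, mul_inv_cancel, mul_one] at h3
  have mc : c ∈ N := by
    have := mg ((false, true), true, (false, false))
    have h2 : c * t ∈ N := by simpa [gl, bc] using this
    have h3 := N.mul_mem h2 mt'
    rwa [mul_assoc, mul_inv_cancel, mul_one] at h3
  have key : (⊤ : Subgroup G).toSubmonoid ≤ N := by
    rw [← hcl, Subgroup.closure_toSubmonoid]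
    rw [Submonoid.closure_le]
    intro g hg
    rcases hg with hg | hg
    · simp only [Set.mem_insert_iff, Set.mem_singleton_iff] at hg
      rcases hg with rfl | rfl | rfl | rfl <;> assumption
    · simp only [Set.mem_inv, Set.mem_insert_iff, Set.mem_singleton_iff] at hg
      rcases hg with hg | hg | hg | hg
      · have : g = t⁻¹ := by rw [← hg, inv_inv]
        rw [this]; exact mt'
      · have : g = a := by rw [← inv_inv g, hg, ha']
        rw [this]; exact ma
      · have : g = b := by rw [← inv_inv g, hg, hb']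
        rw [this]; exact mb
      · have : g = c := by rw [← inv_inv g, hg, hc']
        rw [this]; exact mc
  rw [eq_top_iff]
  intro g _
  exact key (Subgroup.mem_top g)

end Pool.Agent.H34.SW
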