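import Pool.Agent.H34.SW.X1
import Pool.Agent.H34.LS.V3
import Pool.Agent.H34.LS.V2

/-!
B0: concavity of the entropy. `ExF n F`: vector-valued expectation (same recursion as `Ex`,
`(1/(32(M+1))) • ∑ l, ExF n (fun w => F (l :: w))`). `pw PP n = ExF n mw` (induction; `bnd` is linear in both
arguments); `fent` is concave: `jj_nonneg` with the uniform weights on the letters gives
`fent (average of q_l) ≥ average of fent (q_l)` for non-negative `q_l` (no total mass needed), so
`fent (ExF n F) ≥ Ex n (fent ∘ F)` for `F w` non-negative.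
-/

namespace Pool.Agent.H34.SW

open Pool.Agent.H34.LS Filter

variable {G : Type} [Group G] {M : ℕ} {t a b c : G}

private theorem b0_ml_nonneg (l : Lt M) (g : G) : 0 ≤ ml t a b c l g := by
  classical
  unfold ml
  split_ifs
  · rw [Finsupp.add_apply, Finsupp.single_apply, Finsupp.single_apply]
    split_ifs <;> norm_num
  · rw [Finsupp.single_apply]
    split_ifs <;> norm_num

private theorem b0_ml_tot (l : Lt M) : tot (ml t a b c l) = 1 := by
  unfold ml
  split_ifs
  · rw [tot_add]
    unfold tot
    rw [Finsupp.sum_single_index rfl, Finsupp.sum_single_index rfl]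
    norm_num
  · unfold tot
    rw [Finsupp.sum_single_index rfl]

theorem mw_nonneg (w : List (Lt M)) (g : G) : 0 ≤ mw t a b c w g := by
  induction w generalizing g with
  | nil =>
    classical
    rw [mw, Finsupp.single_apply]
    split_ifs <;> norm_num
  | cons l w ih =>
    rw [mw]
    exact bnd_nonneg (b0_ml_nonneg l) (fun g x => tl_nonneg g ih x) g

theorem mw_tot (w : List (Lt M)) : tot (mw t a b c w) = 1 := by
  induction w with
  | nil =>
    rw [mw]
    unfold tot
    rw [Finsupp.sum_single_index rfl]
  | cons l w ih =>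
    rw [mw, tot_bnd]
    simp only [tot_tl, ih, mul_one]
    exact b0_ml_tot l

/-- the uniform weights on the letters. -/
private noncomputable def b0_uu (M : ℕ) : Lt M →₀ ℝ :=
  Finsupp.equivFunOnFinite.symm (fun _ => 1 / (32 * ((M : ℝ) + 1)))

private theorem b0_uu_apply (l : Lt M) : b0_uu M l = 1 / (32 * ((M : ℝ) + 1)) := rfl

private theorem b0_uu_sum {V : Type*} [AddCommMonoid V] (h : Lt M → ℝ → V) (h0 : ∀ l, h l 0 = 0) :
    (b0_uu M).sum h = ∑ l, h l (1 / (32 * ((M : ℝ) + 1))) :=
  Finsupp.sum_fintype _ _ h0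

private theorem b0_uu_tot : tot (b0_uu M) = 1 := by
  unfold tot
  rw [b0_uu_sum _ (fun _ => rfl), Finset.sum_const, Finset.card_univ]
  simp only [Fintype.card_prod, Fintype.card_fin, Fintype.card_bool, nsmul_eq_mul]
  push_cast
  field_simp

private theorem b0_av (F : Lt M → ℝ) : (b0_uu M).sum (fun l c => c * F l) = av F := by
  rw [b0_uu_sum (fun l c => c * F l) (fun _ => zero_mul _), ← Finset.mul_sum, av,
    div_mul_eq_mul_div, one_mul]

private theorem b0_av_mono {F F' : Lt M → ℝ} (h : ∀ l, F l ≤ F' l) : av F ≤ av F' := by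
  unfold av
  exact div_le_div_of_nonneg_right (Finset.sum_le_sum fun l _ => h l) (by positivity)

private theorem b0_PP : PP M t a b c = bnd (b0_uu M) (ml t a b c) := by
  unfold bnd
  rw [b0_uu_sum (fun l c => c • ml t a b _ l) (fun _ => zero_smul _ _), ← Finset.smul_sum, PP]

private theorem b0_swap {X Y Z : Type} (r : X →₀ ℝ) (u : Y →₀ ℝ) (N : X → Y → (Z →₀ ℝ)) :
    bnd r (fun g => bnd u (fun l => N g l)) = bnd u (fun l => bnd r (fun g => N g l)) := by
  unfold bnd
  simp only [Finsupp.smul_sum]
  rw [Finsupp.sum_comm]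
  apply Finsupp.sum_congr
  intro y _
  apply Finsupp.sum_congr
  intro x _
  exact smul_comm _ _ _

private theorem b0_assoc (r s q : G →₀ ℝ) :
    bnd r (fun g => tl g (bnd s (fun g' => tl g' q))) =
      bnd (bnd r (fun g => tl g s)) (fun g => tl g q) := by
  rw [bnd_bnd]
  congr 1
  funext g
  rw [tl_bnd, bnd_tl]
  congr 1
  funext g'
  exact tl_tl g g' q

private theorem b0_main (n : ℕ) : ∀ r : G →₀ ℝ, (∀ g, 0 ≤ r g) →
    Ex M n (fun w => fent (bnd r (fun g => tl g (mw t a b c w)))) ≤
      fent (bnd r (fun g => tl g (pw (PP M t a b c) n))) := by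
  induction n with
  | zero =>
    intro r _
    exact le_rfl
  | succ n ih =>
    intro r hr
    have h1 : ∀ l : Lt M, Ex M n (fun w => fent (bnd r (fun g => tl g (mw t a b c (l :: w))))) ≤
        fent (bnd (bnd r (fun g => tl g (ml t a b c l)))
          (fun g => tl g (pw (PP M t a b c) n))) := by
      intro l
      have h2 := ih (bnd r (fun g => tl g (ml t a b c l)))
        (bnd_nonneg hr fun g x => tl_nonneg g (b0_ml_nonneg l) x)
      have h3 : (fun w => fent (bnd r (fun g => tl g (mw t a b c (l :: w))))) =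
          fun w => fent (bnd (bnd r (fun g => tl g (ml t a b c l)))
            (fun g => tl g (mw t a b c w))) := by
        funext w
        rw [← b0_assoc, mw]
      rw [h3]
      exact h2
    have h4 := jj_nonneg (a := b0_uu M) (fun l => by rw [b0_uu_apply]; positivity) b0_uu_tot
      (f := fun l => bnd (bnd r (fun g => tl g (ml t a b c l)))
        (fun g => tl g (pw (PP M t a b c) n)))
      (fun l x => bnd_nonneg (bnd_nonneg hr fun g x => tl_nonneg g (b0_ml_nonneg l) x)
        (fun g x => tl_nonneg g (pw_nonneg (fun g => by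
          rw [b0_PP]
          exact bnd_nonneg (fun l => by rw [b0_uu_apply]; positivity) b0_ml_nonneg g) n) x) x)
    have h5 : bnd (b0_uu M) (fun l => bnd (bnd r (fun g => tl g (ml t a b c l)))
        (fun g => tl g (pw (PP M t a b c) n))) =
        bnd r (fun g => tl g (pw (PP M t a b c) (n + 1))) := by
      rw [← bnd_bnd (b0_uu M) (fun l => bnd r (fun g => tl g (ml t a b c l)))
        (fun g => tl g (pw (PP M t a b c) n)), b0_swap, pw, b0_assoc]
      congr 2
      funext g
      rw [b0_PP, tl_bnd]
    rw [JJ, h5, b0_av] at h4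
    have h6 := b0_av_mono h1
    rw [Ex]
    linarith

theorem ex_fent_le (n : ℕ) :
    Ex M n (fun w => fent (mw t a b c w)) ≤ fent (pw (PP M t a b c) n) := by
  have h := b0_main (M := M) (t := t) (a := a) (b := b) (c := c) n (Finsupp.single 1 1)
    (fun g => by classical rw [Finsupp.single_apply]; split_ifs <;> norm_num)
  simp only [bnd_single, one_smul, tl_one] at h
  exact h

end Pool.Agent.H34.SW
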