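import Pool.Agent.H34.SW.B0

/-!
B1: gain of entropy at a slot. `fent (mw (l :: w)) = fent (mw w)` if `l` is not a
slot (`fent_tl`); for a slot `mw (l :: w) = 1/2 mw w + 1/2 tl a (mw w)`, so `fent (mw (l :: w)) ≥
fent (mw w)` (concavity, `fent_tl`), `= fent (mw w) + log 2` if the supports of `mw w` and `tl a (mw w)` are
disjoint (`mw_tot`; `tl a q x = q (a⁻¹ x) = q (a x)`). Then
`Ex (n+1) (fent ∘ mw) ≥ Ex n (fent ∘ mw) + log 2/(M+1) Pr n Disj` (`av_slot`).
-/

namespace Pool.Agent.H34.SW

open Pool.Agent.H34.LS Filter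

variable {G : Type} [Group G] {M : ℕ} {t a b c : G}

/-- The supports of `mw w` and `a * mw w` are disjoint. -/
def Disj (t a b c : G) (w : List (Lt M)) : Prop :=
  ∀ x, mw t a b c w x ≠ 0 → mw t a b c w (a * x) = 0

omit [Group G] in
private theorem b1_fent (q : G →₀ ℝ) (s : Finset G) (hs : q.support ⊆ s) :
    fent q = ∑ x ∈ s, Real.negMulLog (q x) := by
  unfold fent
  exact Finsupp.sum_of_support_subset _ hs _ (fun x _ => Real.negMulLog_zero)

omit [Group G] in
private theorem b1_tot (q : G →₀ ℝ) (s : Finset G) (hs : q.support ⊆ s) :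
    tot q = ∑ x ∈ s, q x := by
  unfold tot
  exact Finsupp.sum_of_support_subset _ hs _ (fun x _ => rfl)

private theorem b1_conc {x y : ℝ} (hx : 0 ≤ x) (hy : 0 ≤ y) :
    (Real.negMulLog x + Real.negMulLog y) / 2 ≤ Real.negMulLog (1 / 2 * x + 1 / 2 * y) := by
  have h := Real.concaveOn_negMulLog.2 (Set.mem_Ici.2 hx) (Set.mem_Ici.2 hy)
    (by norm_num : (0 : ℝ) ≤ 1 / 2) (by norm_num : (0 : ℝ) ≤ 1 / 2) (by norm_num)
  simp only [smul_eq_mul] at h
  linarith

private theorem b1_half (x : ℝ) :
    Real.negMulLog (1 / 2 * x) = Real.negMulLog x / 2 + x / 2 * Real.log 2 := by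
  rw [Real.negMulLog_mul]
  have h : Real.negMulLog (1 / 2) = 1 / 2 * Real.log 2 := by
    unfold Real.negMulLog
    rw [one_div, Real.log_inv]
    ring
  rw [h]
  ring

omit [Group G] in
private theorem b1_ge (q r : G →₀ ℝ) (hq : ∀ x, 0 ≤ q x) (hr : ∀ x, 0 ≤ r x) :
    (fent q + fent r) / 2 ≤ fent ((1 / 2 : ℝ) • q + (1 / 2 : ℝ) • r) := by
  classical
  set U := (1 / 2 : ℝ) • q + (1 / 2 : ℝ) • r with hU
  set s := q.support ∪ r.support ∪ U.support with hs
  have h1 : q.support ⊆ s := fun x hx => by simp only [hs, Finset.mem_union]; tauto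
  have h2 : r.support ⊆ s := fun x hx => by simp only [hs, Finset.mem_union]; tauto
  have h3 : U.support ⊆ s := fun x hx => by simp only [hs, Finset.mem_union]; tauto
  rw [b1_fent q s h1, b1_fent r s h2, b1_fent U s h3, ← Finset.sum_add_distrib, Finset.sum_div]
  apply Finset.sum_le_sum
  intro x _
  have h4 : U x = 1 / 2 * q x + 1 / 2 * r x := by
    rw [hU, Finsupp.add_apply, Finsupp.smul_apply, Finsupp.smul_apply, smul_eq_mul, smul_eq_mul]
  rw [h4]
  exact b1_conc (hq x) (hr x)

omit [Group G] in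
private theorem b1_eq (q r : G →₀ ℝ) (hd : ∀ x, q x ≠ 0 → r x = 0) :
    fent ((1 / 2 : ℝ) • q + (1 / 2 : ℝ) • r) =
      (fent q + fent r) / 2 + (tot q + tot r) / 2 * Real.log 2 := by
  classical
  set U := (1 / 2 : ℝ) • q + (1 / 2 : ℝ) • r with hU
  set s := q.support ∪ r.support ∪ U.support with hs
  have h1 : q.support ⊆ s := fun x hx => by simp only [hs, Finset.mem_union]; tauto
  have h2 : r.support ⊆ s := fun x hx => by simp only [hs, Finset.mem_union]; tauto
  have h3 : U.support ⊆ s := fun x hx => by simp only [hs, Finset.mem_union]; tauto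
  rw [b1_fent q s h1, b1_fent r s h2, b1_fent U s h3, b1_tot q s h1, b1_tot r s h2,
    ← Finset.sum_add_distrib, ← Finset.sum_add_distrib, Finset.sum_div, Finset.sum_div,
    Finset.sum_mul, ← Finset.sum_add_distrib]
  apply Finset.sum_congr rfl
  intro x _
  have h4 : U x = 1 / 2 * q x + 1 / 2 * r x := by
    rw [hU, Finsupp.add_apply, Finsupp.smul_apply, Finsupp.smul_apply, smul_eq_mul, smul_eq_mul]
  rw [h4]
  by_cases h5 : q x = 0
  · rw [h5, mul_zero, zero_add, b1_half, Real.negMulLog_zero]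
    ring
  · rw [hd x h5, mul_zero, add_zero, b1_half, Real.negMulLog_zero]
    ring

private theorem b1_slot (l : Lt M) (hl : l.1 = 0) (w : List (Lt M)) :
    mw t a b c (l :: w) = (1 / 2 : ℝ) • mw t a b c w + (1 / 2 : ℝ) • tl a (mw t a b c w) := by
  have h : mw t a b c (l :: w) = bnd (ml t a b c l) (fun g => tl g (mw t a b c w)) := rfl
  rw [h]
  unfold ml
  rw [if_pos hl]
  unfold bnd
  refine (Finsupp.sum_add_index' (f := Finsupp.single (1 : G) (1 / 2 : ℝ))
    (g := Finsupp.single a (1 / 2 : ℝ)) (h := fun g (r : ℝ) => r • tl g (mw t a b c w))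
    (fun _ => zero_smul _ _) (fun _ _ _ => add_smul _ _ _)).trans ?_
  have h1 : (Finsupp.single (1 : G) (1 / 2 : ℝ)).sum (fun g (r : ℝ) => r • tl g (mw t a b c w)) =
      (1 / 2 : ℝ) • tl 1 (mw t a b c w) := Finsupp.sum_single_index (zero_smul _ _)
  have h2 : (Finsupp.single a (1 / 2 : ℝ)).sum (fun g (r : ℝ) => r • tl g (mw t a b c w)) =
      (1 / 2 : ℝ) • tl a (mw t a b c w) := Finsupp.sum_single_index (zero_smul _ _)
  rw [h1, h2, tl_one]

private theorem b1_move (l : Lt M) (hl : ¬ l.1 = 0) (w : List (Lt M)) :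
    mw t a b c (l :: w) = tl (gl t b c l) (mw t a b c w) := by
  have h : mw t a b c (l :: w) = bnd (ml t a b c l) (fun g => tl g (mw t a b c w)) := rfl
  rw [h]
  unfold ml
  rw [if_neg hl, bnd_single, one_smul]

open Classical in
theorem fent_mw_cons (ha : a * a = 1) (l : Lt M) (w : List (Lt M)) :
    fent (mw t a b c w) + (if l.1 = 0 then (if Disj t a b c w then Real.log 2 else 0) else 0) ≤
      fent (mw t a b c (l :: w)) := by
  have ha' : a⁻¹ = a := inv_eq_of_mul_eq_one_left ha
  by_cases hl : l.1 = 0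
  · rw [if_pos hl, b1_slot l hl w]
    by_cases hd : Disj t a b c w
    · rw [if_pos hd, b1_eq _ _ (fun x hx => by rw [tl_apply, ha']; exact hd x hx), fent_tl, tot_tl,
        mw_tot]
      linarith
    · rw [if_neg hd, add_zero]
      have h := b1_ge (mw t a b c w) (tl a (mw t a b c w)) (fun x => mw_nonneg w x)
        (tl_nonneg a (fun x => mw_nonneg w x))
      rw [fent_tl] at h
      linarith
  · rw [if_neg hl, add_zero, b1_move l hl w, fent_tl]

private theorem b1_ex (ha : a * a = 1) (n : ℕ) :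
    Real.log 2 / ((M : ℝ) + 1) * ∑ k ∈ Finset.range n, Pr M k (Disj t a b c) ≤
      Ex M n (fun w => fent (mw t a b c w)) := by
  classical
  induction n with
  | zero =>
    have h : Ex M 0 (fun w => fent (mw t a b c w)) = fent (Finsupp.single (1 : G) (1 : ℝ)) := rfl
    rw [h, Finset.range_zero, Finset.sum_empty, mul_zero]
    unfold fent
    rw [Finsupp.sum_single_index Real.negMulLog_zero, Real.negMulLog_one]
  | succ n ih =>
    rw [Finset.sum_range_succ, mul_add]
    have h1 : Ex M (n + 1) (fun w => fent (mw t a b c w)) =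
        av (fun l : Lt M => Ex M n (fun w => fent (mw t a b c (l :: w)))) := rfl
    have h2 : av (fun l : Lt M => Ex M n (fun w => fent (mw t a b c w)) +
        (if l.1 = 0 then Real.log 2 * Pr M n (Disj t a b c) else 0)) ≤
        av (fun l : Lt M => Ex M n (fun w => fent (mw t a b c (l :: w)))) := by
      apply av_mono
      intro l
      have h3 : Ex M n (fun w => fent (mw t a b c w) +
          (if l.1 = 0 then (if Disj t a b c w then Real.log 2 else 0) else 0)) ≤
          Ex M n (fun w => fent (mw t a b c (l :: w))) :=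
        ex_mono n (fun w _ => fent_mw_cons ha l w)
      refine le_trans (le_of_eq ?_) h3
      rw [ex_add]
      congr 1
      by_cases hl : l.1 = 0
      · simp only [if_pos hl]
        unfold Pr
        rw [← ex_mul]
        apply ex_congr
        intro w _
        by_cases hd : Disj t a b c w
        · rw [if_pos hd, if_pos hd, mul_one]
        · rw [if_neg hd, if_neg hd, mul_zero]
      · simp only [if_neg hl]
        rw [ex_const]
    rw [h1]
    refine le_trans ?_ h2
    rw [av_add, av_const, av_slot]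
    have h4 : Real.log 2 / ((M : ℝ) + 1) * Pr M n (Disj t a b c) =
        Real.log 2 * Pr M n (Disj t a b c) / ((M : ℝ) + 1) := by ring
    rw [h4]
    linarith

theorem fent_pw_ge (ha : a * a = 1) (n : ℕ) :
    Real.log 2 / ((M : ℝ) + 1) * ∑ k ∈ Finset.range n, Pr M k (Disj t a b c) ≤
      fent (pw (PP M t a b c) n) :=
  le_trans (b1_ex ha n) (ex_fent_le n)

end Pool.Agent.H34.SW
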