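import Pool.Agent.H34.SW.A1

/-!
B2: the support of `mw w` seen from the lamp at `0`.
General claim, by induction on `w`, for every state `st`: if `mw w x ≠ 0` then there is
`T ⊆ SE st w` with `(L_st ((ι x).lamp (-st.pos) (0, 0))).1 = ∑ e ∈ T, th θ e`, where
`L_st v = (u v_1, u⁻¹ v_2)` or `(u v_2, u⁻¹ v_1)` (if `st.fl`), `u = θ^(st.e)`
(`aff st.fl u 0`). For a letter `l`: `x = g x'` with `g` in the support of `ml l`;
`(g x').lamp z = g.lamp z * x'.lamp (z - g.pos)`. Slot, `g = a`, `st.pos = 0`: `L_st (v' + (1,1)) =
L_st v' + (u, u⁻¹)`, `T = symmDiff T' {st.e}` (characteristic two). `L_st ∘ sw` is `L` with `fl`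
flipped, `L_st ∘ rr (θ j)` is `L` with `fl` flipped and `e + single j (-sg fl)`; compare `hit`;
`arrive` changes the position only (and auxiliary counters).
If `x` and `a * x` are both in the support (`st = st0`): the first components differ by `1`
(`tau v = v + (1,1)`), so the symmetric difference of the two sets is a dependence.
-/

namespace Pool.Agent.H34.SW

open Pool.Agent.H34.LS Filter

variable {G : Type} [Group G] {M : ℕ} {t a b c : G}

private theorem b2_two (z : K) : z + z = 0 := CharTwo.add_self_eq_zero z

private theorem b2_symm (T1 T2 : Finset (ℕ →₀ ℤ)) (f : (ℕ →₀ ℤ) → K) :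
    ∃ T : Finset (ℕ →₀ ℤ), (∀ e ∈ T, e ∈ T1 ∨ e ∈ T2) ∧
      ∑ e ∈ T, f e = ∑ e ∈ T1, f e + ∑ e ∈ T2, f e := by
  classical
  refine ⟨(T1 \ T2) ∪ (T2 \ T1), ?_, ?_⟩
  · intro e he
    rw [Finset.mem_union, Finset.mem_sdiff, Finset.mem_sdiff] at he
    tauto
  · have hd : Disjoint (T1 \ T2) (T2 \ T1) := by
      rw [Finset.disjoint_left]
      intro e he he'
      rw [Finset.mem_sdiff] at he he'
      exact he.2 he'.1
    rw [Finset.sum_union hd, ← Finset.sum_inter_add_sum_sdiff T1 T2 f,
      ← Finset.sum_inter_add_sum_sdiff T2 T1 f, Finset.inter_comm T2 T1]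
    have h := b2_two (∑ x ∈ T1 ∩ T2, f x)
    linear_combination -h

/-- the first component of the map of a state. -/
private noncomputable def b2_f (θ : ℕ → Kˣ) (st : St) (v : K × K) : K :=
  th θ st.e * (if st.fl then v.2 else v.1)

/-- `g` moves the state `st` to `st'`. -/
private def b2_tr (θ : ℕ → Kˣ) (g : WW) (st st' : St) : Prop :=
  st'.pos = st.pos + g.pos ∧ ∀ v, b2_f θ st (g.lamp (-st.pos) v) = b2_f θ st' v

private theorem b2_comp {θ : ℕ → Kˣ} {g g' : WW} {s s' s'' : St} (h : b2_tr θ g s s')
    (h' : b2_tr θ g' s' s'') : b2_tr θ (g * g') s s'' := by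
  obtain ⟨h1, h2⟩ := h
  obtain ⟨h3, h4⟩ := h'
  refine ⟨?_, fun v => ?_⟩
  · rw [ww_mul_pos, h3, h1, add_assoc]
  · have e : -s.pos - g.pos = -s'.pos := by
      rw [h1]
      ring
    rw [ww_mul_lamp, e, Equiv.Perm.mul_apply, h2, h4]

private theorem b2_th (θ : ℕ → Kˣ) (e : ℕ →₀ ℤ) (j : ℕ) (k : ℤ) :
    th θ (e + Finsupp.single j k) = th θ e * ((θ j ^ k : Kˣ) : K) := by
  have h1 : ((e + Finsupp.single j k).prod fun i (k : ℤ) => θ i ^ k) =
      (e.prod fun i (k : ℤ) => θ i ^ k) * θ j ^ k := by
    rw [Finsupp.prod_add_index' (h := fun i (k : ℤ) => θ i ^ k) (fun i => zpow_zero (θ i))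
      (fun i => zpow_add (θ i))]
    congr 1
    exact Finsupp.prod_single_index (zpow_zero (θ j))
  unfold th
  rw [h1, Units.val_mul]

private theorem b2_hit (θ : ℕ → Kˣ) (q : Bool × Bool) (st : St) :
    b2_tr θ (bc gb (gc θ) q) st (hit q st) := by
  have hlamp : ∀ z, (bc gb (gc θ) q).lamp z =
      (if q.1 then gb.lamp z else 1) * (if q.2 then (gc θ).lamp z else 1) := by
    intro z
    unfold bc
    rw [ww_mul_lamp]
    have e : (if q.1 then gb else (1 : WW)).pos = 0 := by
      split_ifs
      · rfl
      · rfl
    rw [e, sub_zero]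
    congr 1
    · split_ifs
      · rfl
      · rfl
    · split_ifs
      · rfl
      · rfl
  have hpos : (bc gb (gc θ) q).pos = 0 := by
    unfold bc
    rw [ww_mul_pos]
    split_ifs
    · rfl
    · rfl
    · rfl
    · rfl
  by_cases h0 : st.pos = 0
  · have hk : ki st.pos = some 0 := by
      unfold ki
      rw [if_pos h0]
    have hh : hit q st = { st with fl := xor st.fl q.1 } := by
      unfold hit
      rw [hk]
    rw [hh]
    refine ⟨by rw [hpos, add_zero], fun v => ?_⟩
    have h2 : ∀ j : ℕ, (0 : ℤ) ≠ -2 ^ j := by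
      intro j h
      have : (0 : ℤ) < 2 ^ j := by positivity
      omega
    rw [hlamp, h0, neg_zero, gb_lamp_zero, gc_lamp_ne θ h2]
    unfold b2_f
    rcases q with ⟨q1, q2⟩
    rcases hfl : st.fl <;> rcases q1 <;> rcases q2 <;> simp [sw]
  · by_cases h1 : st.pos = 2 ^ lg st.pos
    · have hk : ki st.pos = some (lg st.pos + 1) := by
        unfold ki
        rw [if_neg h0, if_pos h1]
      have hb : gb.lamp (-st.pos) = 1 := gb_lamp_ne (neg_ne_zero.2 h0)
      have hc : (gc θ).lamp (-st.pos) = rr (θ (lg st.pos)) := by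
        have := gc_lamp_pow θ (lg st.pos)
        rwa [← h1] at this
      have hh : hit q st = if q.2 then
          { st with fl := !st.fl, e := st.e + Finsupp.single (lg st.pos) (-sg st.fl) } else st := by
        unfold hit
        rw [hk]
      rw [hh]
      refine ⟨?_, fun v => ?_⟩
      · rw [hpos, add_zero]
        split_ifs
        · rfl
        · rfl
      · rw [hlamp, hb, hc, ite_self, one_mul]
        unfold b2_f
        rcases q with ⟨q1, q2⟩
        rcases q2
        · simp only [Bool.false_eq_true, if_false]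
          rfl
        · simp only [if_true, b2_th]
          rcases Bool.eq_false_or_eq_true st.fl with h | h
          · simp only [h, rr, sg, if_true, Bool.not_true, Bool.false_eq_true, if_false,
              neg_neg, zpow_one, Equiv.coe_fn_mk]
            ring
          · simp only [h, rr, sg, if_true, Bool.not_false, Bool.false_eq_true, if_false,
              zpow_neg, zpow_one, Equiv.coe_fn_mk]
            ring
    · have hk : ki st.pos = none := by
        unfold ki
        rw [if_neg h0, if_neg h1]
      have hb : gb.lamp (-st.pos) = 1 := gb_lamp_ne (neg_ne_zero.2 h0)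
      have hc : (gc θ).lamp (-st.pos) = 1 := by
        apply gc_lamp_ne
        intro j h
        have h2 : st.pos = 2 ^ j := neg_injective h
        apply h1
        rw [h2, lg_pow]
      have hh : hit q st = st := by
        unfold hit
        rw [hk]
      rw [hh]
      refine ⟨by rw [hpos, add_zero], fun v => ?_⟩
      rw [hlamp, hb, hc]
      simp

private theorem b2_arrive (θ : ℕ → Kˣ) (up : Bool) (st : St) :
    b2_tr θ (if up then gt else gt⁻¹) st (arrive up st) := by
  have hl : ∀ z, (if up then gt else gt⁻¹ : WW).lamp z = 1 := by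
    intro z
    split_ifs
    · rfl
    · rw [ww_inv_lamp]
      exact inv_one
  have hp : (if up then gt else gt⁻¹ : WW).pos = if up then 1 else -1 := by
    split_ifs
    · rfl
    · rfl
  have h1 : (arrive up st).pos = if up then st.pos + 1 else st.pos - 1 := by
    unfold arrive
    split
    · rfl
    · rfl
  have h2 : (arrive up st).fl = st.fl := by
    unfold arrive
    split
    · rfl
    · rfl
  have h3 : (arrive up st).e = st.e := by
    unfold arrive
    split
    · rfl
    · rfl
  refine ⟨?_, fun v => ?_⟩
  · rw [h1, hp]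
    split_ifs
    · rfl
    · rfl
  · rw [hl]
    unfold b2_f
    rw [h2, h3]
    rfl

private theorem b2_tl {g x : G} {q : G →₀ ℝ} : tl g q x = q (g⁻¹ * x) := by
  unfold tl
  have hinj : Function.Injective (fun y : G => g * y) := mul_right_injective g
  have h := Finsupp.mapDomain_apply hinj q (g⁻¹ * x)
  simp only [mul_inv_cancel_left] at h
  exact h

private theorem b2_bnd {X : Type} {r : X →₀ ℝ} {F : X → (G →₀ ℝ)} {x : G}
    (h : bnd r F x ≠ 0) : ∃ z, r z ≠ 0 ∧ F z x ≠ 0 := by
  by_contra hcon
  push Not at hcon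
  apply h
  unfold bnd
  rw [Finsupp.sum, Finsupp.finsetSum_apply]
  apply Finset.sum_eq_zero
  intro z hz
  rw [Finsupp.smul_apply, hcon z (Finsupp.mem_support_iff.1 hz), smul_zero]

private theorem b2_gen (θ : ℕ → Kˣ) (ι : G →* WW) (ht : ι t = gt) (ha : ι a = ga)
    (hb : ι b = gb) (hc : ι c = gc θ) (w : List (Lt M)) : ∀ (st : St) (x : G),
    mw t a b c w x ≠ 0 → ∃ T : Finset (ℕ →₀ ℤ), T ⊆ SE st w ∧
      b2_f θ st ((ι x).lamp (-st.pos) (0, 0)) = ∑ e ∈ T, th θ e := by
  induction w with
  | nil =>
    intro st x hx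
    have hx1 : x = 1 := by
      by_contra hne
      apply hx
      unfold mw
      exact Finsupp.single_eq_of_ne hne
    refine ⟨∅, Finset.empty_subset _, ?_⟩
    rw [hx1, map_one, ww_one_lamp, Finset.sum_empty]
    unfold b2_f
    simp
  | cons l w ih =>
    intro st x hx
    obtain ⟨g, hg, hgx⟩ := b2_bnd hx
    rw [b2_tl] at hgx
    obtain ⟨T', hT', hs⟩ := ih (step st l) (g⁻¹ * x) hgx
    have hxg : ι x = ι g * ι (g⁻¹ * x) := by
      rw [← map_mul, mul_inv_cancel_left]
    have hSE : ∀ e ∈ SE (step st l) w, e ∈ SE st (l :: w) := by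
      intro e he
      unfold SE
      exact Finset.mem_union_right _ he
    by_cases h0 : l.1 = 0
    · have hst : step st l = st := by
        unfold step
        rw [if_pos h0]
      rw [hst] at hs hSE
      rw [hst] at hT'
      have hml : ml t a b c l = Finsupp.single 1 (1 / 2) + Finsupp.single a (1 / 2) := by
        unfold ml
        rw [if_pos h0]
      rw [hml] at hg
      have hg2 : g = 1 ∨ g = a := by
        by_contra hcon
        push Not at hcon
        apply hg
        rw [Finsupp.add_apply, Finsupp.single_eq_of_ne hcon.1,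
          Finsupp.single_eq_of_ne hcon.2, add_zero]
      rcases hg2 with rfl | rfl
      · refine ⟨T', fun e he => hSE e (hT' he), ?_⟩
        rw [inv_one, one_mul] at hs
        exact hs
      · by_cases hp : st.pos = 0
        · have he0 : st.e ∈ SE st (l :: w) := by
            unfold SE
            apply Finset.mem_union_left
            rw [if_pos ⟨h0, hp⟩]
            exact Finset.mem_singleton_self _
          obtain ⟨T, hT, hTs⟩ := b2_symm T' {st.e} (th θ)
          refine ⟨T, ?_, ?_⟩
          · intro e he
            rcases hT e he with h | h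
            · exact hSE e (hT' h)
            · rw [Finset.mem_singleton] at h
              rw [h]
              exact he0
          · rw [hTs, ← hs, Finset.sum_singleton, hxg, ha, ww_mul_lamp, hp, neg_zero,
              ga_lamp_zero, Equiv.Perm.mul_apply]
            have e1 : (0 : ℤ) - ga.pos = 0 := rfl
            rw [e1]
            unfold b2_f
            rcases hfl : st.fl
            · simp [tau]
              ring
            · simp [tau]
              ring
        · refine ⟨T', fun e he => hSE e (hT' he), ?_⟩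
          rw [← hs, hxg, ha, ww_mul_lamp, ga_lamp_ne (neg_ne_zero.2 hp), one_mul]
          have e1 : -st.pos - ga.pos = -st.pos := sub_zero _
          rw [e1]
    · have hml : ml t a b c l = Finsupp.single (gl t b c l) 1 := by
        unfold ml
        rw [if_neg h0]
      rw [hml] at hg
      have hg2 : g = gl t b c l := by
        by_contra hne
        exact hg (Finsupp.single_eq_of_ne hne)
      have hst : step st l = hit l.2.2.2 (arrive l.2.2.1 (hit l.2.1 st)) := by
        unfold step
        rw [if_neg h0]
      have hbc : ∀ q, ι (bc b c q) = bc gb (gc θ) q := by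
        intro q
        unfold bc
        rw [map_mul]
        congr 1
        · split_ifs
          · exact hb
          · exact map_one ι
        · split_ifs
          · exact hc
          · exact map_one ι
      have hιg : ι g = bc gb (gc θ) l.2.1 * (if l.2.2.1 then gt else gt⁻¹) *
          bc gb (gc θ) l.2.2.2 := by
        rw [hg2]
        unfold gl
        rw [map_mul, map_mul, hbc, hbc]
        congr 2
        split_ifs
        · exact ht
        · rw [map_inv, ht]
      have htr : b2_tr θ (ι g) st (step st l) := by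
        rw [hιg, hst]
        exact b2_comp (b2_comp (b2_hit θ _ _) (b2_arrive θ _ _)) (b2_hit θ _ _)
      refine ⟨T', fun e he => hSE e (hT' he), ?_⟩
      rw [← hs, hxg, ww_mul_lamp, Equiv.Perm.mul_apply, htr.2]
      have e1 : -st.pos - (ι g).pos = -(step st l).pos := by
        rw [htr.1]
        ring
      rw [e1]

theorem sup (θ : ℕ → Kˣ) (ι : G →* WW) (ht : ι t = gt) (ha : ι a = ga) (hb : ι b = gb)
    (hc : ι c = gc θ) (w : List (Lt M)) (hD : ¬ Dep θ w) (x : G)
    (hx : mw t a b c w x ≠ 0) : mw t a b c w (a * x) = 0 := by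
  by_contra hax
  apply hD
  obtain ⟨T1, hT1, h1⟩ := b2_gen θ ι ht ha hb hc w st0 x hx
  obtain ⟨T2, hT2, h2⟩ := b2_gen θ ι ht ha hb hc w st0 (a * x) hax
  obtain ⟨T, hT, hs⟩ := b2_symm T1 T2 (th θ)
  refine ⟨T, fun e he => (hT e he).elim (fun h => hT1 h) (fun h => hT2 h), ?_⟩
  rw [hs, ← h1, ← h2, map_mul, ha, ww_mul_lamp]
  have e0 : -st0.pos = 0 := neg_zero
  have e1 : (0 : ℤ) - ga.pos = 0 := rfl
  rw [e0, e1, ga_lamp_zero, Equiv.Perm.mul_apply]
  unfold b2_f
  have e2 : st0.fl = false := rfl
  have e3 : th θ st0.e = 1 := by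
    have : st0.e = 0 := rfl
    rw [this]
    unfold th
    rw [Finsupp.prod_zero_index, Units.val_one]
  rw [e2, e3]
  have h4 := b2_two ((ι x).lamp 0 (0, 0)).1
  simp only [tau, one_mul, Bool.false_eq_true, if_false, Equiv.coe_addRight, Prod.fst_add]
  linear_combination h4

end Pool.Agent.H34.SW
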