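import Pool.Agent.H34.SW.Defs

/-!
C1: basic facts on the state. `ki y = some k ↔ y = sp k`.
-/

namespace Pool.Agent.H34.SW

open Pool.Agent.H34.LS Filter

variable {M : ℕ}

theorem sp_inj : Function.Injective sp := by
  intro a b h
  rcases a with _ | a <;> rcases b with _ | b
  · rfl
  · exact absurd h (by simp only [sp]; exact (pow_ne_zero _ (by norm_num)).symm)
  · exact absurd h (by simp only [sp]; exact pow_ne_zero _ (by norm_num))
  · simp only [sp] at h
    have h1 : (2 : ℕ) ^ a = 2 ^ b := by exact_mod_cast h
    rw [Nat.pow_right_injective le_rfl h1]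

theorem ki_eq_some {y : ℤ} {k : ℕ} : ki y = some k ↔ y = sp k := by
  unfold ki
  rcases k with _ | k
  · simp only [sp]
    constructor
    · intro h
      by_contra h0
      rw [if_neg h0] at h
      split_ifs at h
      · simp at h
    · intro h
      rw [if_pos h]
  · simp only [sp]
    constructor
    · intro h
      by_cases h0 : y = 0
      · rw [if_pos h0] at h
        simp at h
      · rw [if_neg h0] at h
        by_cases h1 : y = 2 ^ lg y
        · rw [if_pos h1, Option.some_inj] at h
          have h2 : lg y = k := by omega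
          rw [h2] at h1
          exact h1
        · rw [if_neg h1] at h
          simp at h
    · intro h
      have h0 : y ≠ 0 := by
        rw [h]
        exact pow_ne_zero _ (by norm_num)
      have h1 : lg y = k := by
        unfold lg
        rw [h]
        have h2 : ((2 : ℤ) ^ k).toNat = 2 ^ k := by
          have h3 : (2 : ℤ) ^ k = ((2 ^ k : ℕ) : ℤ) := by push_cast; ring
          rw [h3, Int.toNat_natCast]
        rw [h2, Nat.log_pow (by norm_num)]
      rw [if_neg h0, h1, if_pos h]

theorem ki_sp (k : ℕ) : ki (sp k) = some k := ki_eq_some.2 rfl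

theorem hit_pos (q : Bool × Bool) (st : St) : (hit q st).pos = st.pos := by
  unfold hit
  split
  · rfl
  · rfl
  · split_ifs <;> rfl

theorem hit_aux (q : Bool × Bool) (st : St) : (hit q st).r = st.r ∧ (hit q st).E = st.E ∧
    (hit q st).T = st.T ∧ (hit q st).ph = st.ph ∧ (hit q st).wc = st.wc := by
  unfold hit
  split
  · exact ⟨rfl, rfl, rfl, rfl, rfl⟩
  · exact ⟨rfl, rfl, rfl, rfl, rfl⟩
  · split_ifs <;> exact ⟨rfl, rfl, rfl, rfl, rfl⟩

theorem hit_zero {q : Bool × Bool} {st : St} (h : st.pos = 0) :
    hit q st = { st with fl := xor st.fl q.1 } := by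
  have h1 : ki st.pos = some 0 := ki_eq_some.2 h
  unfold hit
  rw [h1]

theorem hit_pow {q : Bool × Bool} {st : St} {j : ℕ} (h : st.pos = 2 ^ j) :
    hit q st = if q.2 then
      { st with fl := !st.fl, e := st.e + Finsupp.single j (-sg st.fl) } else st := by
  have h1 : ki st.pos = some (j + 1) := ki_eq_some.2 h
  unfold hit
  rw [h1]

theorem hit_other {q : Bool × Bool} {st : St} (h : ∀ k, st.pos ≠ sp k) : hit q st = st := by
  have h1 : ki st.pos = none := by
    rw [Option.eq_none_iff_forall_ne_some]
    intro k hk
    exact h k (ki_eq_some.1 hk)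
  unfold hit
  rw [h1]

theorem arrive_pos (up : Bool) (st : St) :
    (arrive up st).pos = if up then st.pos + 1 else st.pos - 1 := by
  unfold arrive
  split <;> rfl

theorem arrive_fl (up : Bool) (st : St) : (arrive up st).fl = st.fl := by
  unfold arrive
  split <;> rfl

theorem arrive_e (up : Bool) (st : St) : (arrive up st).e = st.e := by
  unfold arrive
  split <;> rfl

theorem step_slot {st : St} {l : Lt M} (h : l.1 = 0) : step st l = st := by
  unfold step
  rw [if_pos h]

theorem step_move {st : St} {l : Lt M} (h : l.1 ≠ 0) :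
    step st l = hit l.2.2.2 (arrive l.2.2.1 (hit l.2.1 st)) := by
  unfold step
  rw [if_neg h]

theorem run_cons (st : St) (l : Lt M) (w : List (Lt M)) : run st (l :: w) = run (step st l) w := rfl

theorem run_append (st : St) (w w' : List (Lt M)) : run st (w ++ w') = run (run st w) w' := by
  unfold run
  exact List.foldl_append

end Pool.Agent.H34.SW
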