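import Pool.Agent.H34.SW.C5

/-!
C2: invariants. `2 e_j = E_{j+1} - E_j + s 1(r = j+1)` with `s = sg fl`; `E_l = 0` for large `l`
(finite support suffices); `pos = 0 → r = 0`. Hence in coset `i`, `E_{j+1} = E_j` for `j ≥ i` and
all of them are zero.
-/

namespace Pool.Agent.H34.SW

open Pool.Agent.H34.LS Filter

variable {M : ℕ}

/-- the relation between exponents and traversals. -/
private def c2_Inv (st : St) : Prop :=
  ∀ j, 2 * st.e j = st.E (j + 1) - st.E j + (if st.r = j + 1 then sg st.fl else 0)

private theorem c2_sg_not (b : Bool) : sg (!b) = -sg b := by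
  cases b <;> simp [sg]

private theorem c2_hit {q : Bool × Bool} {st : St} (hr : ∀ k, st.pos = sp k → st.r = k)
    (h : c2_Inv st) : c2_Inv (hit q st) := by
  by_cases hs : ∃ k, st.pos = sp k
  · obtain ⟨k, hk⟩ := hs
    have hrk := hr k hk
    cases k with
    | zero =>
      have hp : st.pos = 0 := by rw [hk]; rfl
      rw [hit_zero hp]
      intro j
      have hj := h j
      have hne : st.r ≠ j + 1 := by omega
      rw [if_neg hne] at hj
      show 2 * st.e j = st.E (j + 1) - st.E j + (if st.r = j + 1 then sg (xor st.fl q.1) else 0)
      rw [if_neg hne]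
      exact hj
    | succ i =>
      have hp : st.pos = 2 ^ i := by rw [hk]; rfl
      rw [hit_pow hp]
      split_ifs with hq
      · intro j
        have hj := h j
        show 2 * (st.e + Finsupp.single i (-sg st.fl)) j =
          st.E (j + 1) - st.E j + (if st.r = j + 1 then sg (!st.fl) else 0)
        rw [Finsupp.add_apply, c2_sg_not]
        by_cases hji : i = j
        · subst hji
          rw [Finsupp.single_eq_same]
          rw [if_pos hrk] at hj ⊢
          linarith
        · rw [Finsupp.single_eq_of_ne' hji]
          have hne : st.r ≠ j + 1 := by omega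
          rw [if_neg hne] at hj ⊢
          linarith
      · exact h
  · push Not at hs
    rw [hit_other hs]
    exact h

private theorem c2_arrive {up : Bool} {st : St}
    (hk : ∀ k, (if up then st.pos + 1 else st.pos - 1) = sp k → k ≤ st.r + 1 ∧ st.r ≤ k + 1)
    (h : c2_Inv st) : c2_Inv (arrive up st) := by
  unfold arrive
  cases hki : ki (if up then st.pos + 1 else st.pos - 1) with
  | none => exact h
  | some k =>
    obtain ⟨h1, h2⟩ := hk k (ki_eq_some.1 hki)
    intro j
    have hj := h j
    dsimp only
    by_cases hkr : k = st.r
    · rw [if_pos hkr, hkr]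
      exact hj
    · rw [if_neg hkr]
      rcases lt_or_gt_of_ne hkr with hlt | hlt
      · -- going down: `st.r = k + 1`
        have hr1 : st.r = k + 1 := by omega
        have hmin : min k st.r = k := min_eq_left (by omega)
        have hnl : ¬ st.r < k := by omega
        rw [hmin, if_neg hnl]
        by_cases c1 : j = k
        · subst c1
          rw [Function.update_self, Function.update_of_ne (by omega : j + 1 ≠ j),
            if_neg (by omega : ¬ j = j + 1)]
          rw [if_pos hr1] at hj
          linarith
        · rw [Function.update_of_ne c1]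
          have hne : st.r ≠ j + 1 := by omega
          rw [if_neg hne] at hj
          by_cases c2 : j + 1 = k
          · rw [c2, Function.update_self, if_pos rfl]
            rw [c2] at hj
            linarith
          · rw [Function.update_of_ne c2, if_neg (fun hh => c2 hh.symm)]
            exact hj
      · -- going up: `k = st.r + 1`
        have hr1 : k = st.r + 1 := by omega
        have hmin : min k st.r = st.r := min_eq_right (by omega)
        rw [hmin, if_pos hlt]
        by_cases c1 : j = st.r
        · rw [← c1, Function.update_self, Function.update_of_ne (by omega : j + 1 ≠ j),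
            if_pos (by omega : k = j + 1)]
          rw [if_neg (by omega : ¬ st.r = j + 1)] at hj
          linarith
        · rw [Function.update_of_ne c1]
          have hne : k ≠ j + 1 := by omega
          rw [if_neg hne]
          by_cases c2 : j + 1 = st.r
          · rw [c2, Function.update_self]
            rw [if_pos c2.symm, c2] at hj
            linarith
          · rw [Function.update_of_ne c2]
            rw [if_neg (fun hh => c2 hh.symm)] at hj
            exact hj

private theorem c2_arrive_r {up : Bool} {st : St} {k : ℕ} (h : (arrive up st).pos = sp k) :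
    (arrive up st).r = k := by
  rw [arrive_pos] at h
  unfold arrive
  rw [ki_eq_some.2 h]

private theorem c2_run_r (w : List (Lt M)) : ∀ k, (run st0 w).pos = sp k → (run st0 w).r = k := by
  induction w using List.reverseRecOn with
  | nil =>
    intro k hk
    have h0 : sp 0 = sp k := hk
    exact sp_inj h0
  | append_singleton w l ih =>
    intro k hk
    have hrun : run st0 (w ++ [l]) = step (run st0 w) l := by
      rw [run_append]
      rfl
    rw [hrun] at hk ⊢
    by_cases hl : l.1 = 0
    · rw [step_slot hl] at hk ⊢
      exact ih k hk
    · rw [step_move hl] at hk ⊢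
      rw [hit_pos] at hk
      rw [(hit_aux _ _).1]
      exact c2_arrive_r hk

theorem inv_E (w : List (Lt M)) (j : ℕ) : 2 * (run st0 w).e j = (run st0 w).E (j + 1) -
    (run st0 w).E j + (if (run st0 w).r = j + 1 then sg (run st0 w).fl else 0) := by
  suffices h : c2_Inv (run st0 w) from h j
  induction w using List.reverseRecOn with
  | nil =>
    intro j
    simp [run, st0]
  | append_singleton w l ih =>
    have hrun : run st0 (w ++ [l]) = step (run st0 w) l := by
      rw [run_append]
      rfl
    rw [hrun]
    by_cases hl : l.1 = 0
    · rw [step_slot hl]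
      exact ih
    · rw [step_move hl]
      have hr := c2_run_r w
      obtain ⟨b1, b2⟩ := r_inv w
      have hh := c2_hit (q := l.2.1) hr ih
      have hpos := hit_pos l.2.1 (run st0 w)
      have hrr := (hit_aux l.2.1 (run st0 w)).1
      refine c2_hit (fun k hk => c2_arrive_r hk) (c2_arrive ?_ hh)
      intro k hk
      rw [hpos] at hk
      rw [hrr]
      constructor
      · have h1 : sp k ≤ sp ((run st0 w).r + 1) := by
          rw [← hk]
          split_ifs <;> omega
        exact sp_strictMono.le_iff_le.1 h1
      · rcases Nat.eq_zero_or_pos (run st0 w).r with h0 | h0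
        · omega
        · obtain ⟨r', hr'⟩ : ∃ r', (run st0 w).r = r' + 1 := ⟨(run st0 w).r - 1, by omega⟩
          have h1 : sp r' ≤ sp k := by
            have := b2 r' hr'
            rw [← hk]
            split_ifs <;> omega
          have h2 := sp_strictMono.le_iff_le.1 h1
          omega

private theorem c2_hit_E (q : Bool × Bool) (st : St) : (hit q st).E = st.E := (hit_aux q st).2.1

private theorem c2_arrive_E (up : Bool) (st : St) :
    ∃ m, ∀ l, m < l → (arrive up st).E l = st.E l := by
  unfold arrive
  cases hki : ki (if up then st.pos + 1 else st.pos - 1) with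
  | none => exact ⟨0, fun l _ => rfl⟩
  | some k =>
    refine ⟨min k st.r, fun l hl => ?_⟩
    dsimp only
    split_ifs
    · rfl
    · exact Function.update_of_ne (by omega) _ _
    · exact Function.update_of_ne (by omega) _ _

private theorem c2_fin (w : List (Lt M)) : ∃ m, ∀ l, m < l → (run st0 w).E l = 0 := by
  induction w using List.reverseRecOn with
  | nil => exact ⟨0, fun l _ => by simp [run, st0]⟩
  | append_singleton w l ih =>
    have hrun : run st0 (w ++ [l]) = step (run st0 w) l := by
      rw [run_append]
      rfl
    rw [hrun]
    by_cases hl : l.1 = 0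
    · rw [step_slot hl]
      exact ih
    · rw [step_move hl, c2_hit_E]
      obtain ⟨m1, h1⟩ := ih
      obtain ⟨m2, h2⟩ := c2_arrive_E l.2.2.1 (hit l.2.1 (run st0 w))
      refine ⟨max m1 m2, fun j hj => ?_⟩
      rw [h2 j (lt_of_le_of_lt (le_max_right _ _) hj), c2_hit_E]
      exact h1 j (lt_of_le_of_lt (le_max_left _ _) hj)

theorem cos_E {i : ℕ} {w : List (Lt M)} (h : Cos i (run st0 w)) :
    ∀ l, i ≤ l → (run st0 w).E l = 0 := by
  obtain ⟨hp, he⟩ := h
  have hr : (run st0 w).r = 0 := c2_run_r w 0 hp
  have hstep : ∀ j, i ≤ j → (run st0 w).E (j + 1) = (run st0 w).E j := by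
    intro j hj
    have h1 := inv_E w j
    rw [he j hj, hr, if_neg (by omega)] at h1
    linarith
  have hall : ∀ d l, i ≤ l → (run st0 w).E (l + d) = (run st0 w).E l := by
    intro d
    induction d with
    | zero => intro l _; rfl
    | succ d ih =>
      intro l hl
      rw [← add_assoc, hstep (l + d) (by omega), ih l hl]
  obtain ⟨m, hm⟩ := c2_fin w
  intro l hl
  rw [← hall (m + 1) l hl]
  exact hm _ (by omega)

end Pool.Agent.H34.SW
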