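import Pool.Agent.H34.SW.C1

/-!
C3: the walk started in coset `i` sees coset `i` as the walk started at `st0` (relation: same
position, `sg fl' = s * sg fl`, `e'_j = s * e_j` for `j ≥ i`, with `s = ±1`; it is preserved by
`step`).
-/

namespace Pool.Agent.H34.SW

open Pool.Agent.H34.LS Filter

variable {M : ℕ}

private theorem c3_sg_not (b : Bool) : sg (!b) = -sg b := by
  cases b <;> simp [sg]

private theorem c3_sg_xor (b c : Bool) : sg (xor b c) = sg c * sg b := by
  cases b <;> cases c <;> simp [sg]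

/-- the relation -/
private def c3_Rel (i : ℕ) (st st' : St) : Prop :=
  st.pos = st'.pos ∧ ∃ s : ℤ, (s = 1 ∨ s = -1) ∧ sg st.fl = s * sg st'.fl ∧
    ∀ j, i ≤ j → st.e j = s * st'.e j

private theorem c3_hit {i : ℕ} {st st' : St} (h : c3_Rel i st st') (q : Bool × Bool) :
    c3_Rel i (hit q st) (hit q st') := by
  obtain ⟨hp, s, hs, hf, he⟩ := h
  by_cases hk : ∃ k, st.pos = sp k
  · obtain ⟨k, hk⟩ := hk
    cases k with
    | zero =>
      have h0 : st.pos = 0 := hk
      rw [hit_zero h0, hit_zero (hp ▸ h0)]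
      refine ⟨hp, s, hs, ?_, he⟩
      show sg (xor st.fl q.1) = s * sg (xor st'.fl q.1)
      rw [c3_sg_xor, c3_sg_xor, hf]
      ring
    | succ j =>
      have h0 : st.pos = 2 ^ j := hk
      rw [hit_pow h0, hit_pow (hp ▸ h0)]
      by_cases hq : q.2 = true
      · rw [if_pos hq, if_pos hq]
        refine ⟨hp, s, hs, ?_, fun m hm => ?_⟩
        · show sg (!st.fl) = s * sg (!st'.fl)
          rw [c3_sg_not, c3_sg_not, hf]
          ring
        · show (st.e + Finsupp.single j (-sg st.fl)) m =
            s * (st'.e + Finsupp.single j (-sg st'.fl)) m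
          rw [Finsupp.add_apply, Finsupp.add_apply, he m hm, hf]
          by_cases hjm : j = m
          · subst hjm
            rw [Finsupp.single_eq_same, Finsupp.single_eq_same]
            ring
          · rw [Finsupp.single_eq_of_ne' hjm, Finsupp.single_eq_of_ne' hjm]
            ring
      · rw [if_neg hq, if_neg hq]
        exact ⟨hp, s, hs, hf, he⟩
  · have h1 : ∀ k, st.pos ≠ sp k := fun k hk' => hk ⟨k, hk'⟩
    rw [hit_other h1, hit_other (hp ▸ h1)]
    exact ⟨hp, s, hs, hf, he⟩

private theorem c3_arrive {i : ℕ} {st st' : St} (h : c3_Rel i st st') (up : Bool) :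
    c3_Rel i (arrive up st) (arrive up st') := by
  obtain ⟨hp, s, hs, hf, he⟩ := h
  refine ⟨?_, s, hs, ?_, fun j hj => ?_⟩
  · rw [arrive_pos, arrive_pos, hp]
  · rw [arrive_fl, arrive_fl, hf]
  · rw [arrive_e, arrive_e, he j hj]

private theorem c3_step {i : ℕ} {st st' : St} (h : c3_Rel i st st') (l : Lt M) :
    c3_Rel i (step st l) (step st' l) := by
  by_cases hl : l.1 = 0
  · rwa [step_slot hl, step_slot hl]
  · rw [step_move hl, step_move hl]
    exact c3_hit (c3_arrive (c3_hit h _) _) _

private theorem c3_cos {i : ℕ} {st st' : St} (h : c3_Rel i st st') : Cos i st ↔ Cos i st' := by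
  obtain ⟨hp, s, hs, -, he⟩ := h
  have hs0 : s ≠ 0 := by
    rcases hs with rfl | rfl <;> decide
  unfold Cos
  rw [hp]
  refine and_congr_right fun _ => forall_congr' fun j => forall_congr' fun hj => ?_
  rw [he j hj, mul_eq_zero, or_iff_right hs0]

private theorem c3_slots {i : ℕ} (w : List (Lt M)) : ∀ {st st' : St}, c3_Rel i st st' →
    slots (Cos i) st w = slots (Cos i) st' w := by
  induction w with
  | nil => intro st st' _; rfl
  | cons l w ih =>
    intro st st' h
    unfold slots
    rw [ih (c3_step h l)]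
    have hiff : (l.1 = 0 ∧ Cos i st) ↔ (l.1 = 0 ∧ Cos i st') :=
      and_congr_right fun _ => c3_cos h
    by_cases hh : l.1 = 0 ∧ Cos i st
    · rw [if_pos hh, if_pos (hiff.1 hh)]
    · rw [if_neg hh, if_neg (fun h' => hh (hiff.2 h'))]

theorem slots_cos {i : ℕ} {st : St} (h : Cos i st) (w : List (Lt M)) :
    slots (Cos i) st w = slots (Cos i) st0 w := by
  refine c3_slots w ⟨h.1, sg st.fl, ?_, ?_, fun j hj => ?_⟩
  · cases st.fl <;> simp [sg]
  · simp [st0, sg]
  · rw [h.2 j hj]
    simp [st0]

end Pool.Agent.H34.SW
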