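import Pool.Agent.H34.SW.C5

/-!
C4: exponents at slots are bounded by twice the number of visits to `2^i`.
Claim for all `st`, by induction on `w`: if `e ∈ SE st w`, `Cos i' e` ... see the statement;
general form: for every slot of `w` from `st` at a state `s` with `s.wc k < W`,
`|s.e i| ≤ |st.e i| + 1(st.pos = 2^i) + 2 * visits (pos = 2^i ∧ wc k < W) st w`
(`wc k` is nondecreasing in time; one letter changes `e i` by at most
`1(st.pos = 2^i) + 1((step st l).pos = 2^i)`).
Here: if there is no slot at a state in `Cos i'` with `W ≤ wc k`, then every exponent in `SE st0 w`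
which is in coset `i'` comes from a slot with `wc k < W`.
-/

namespace Pool.Agent.H34.SW

open Pool.Agent.H34.LS Filter

variable {M : ℕ}

/-- indicator, with values in `ℤ`. -/
private noncomputable def c4_ind (p : Prop) : ℤ := open Classical in if p then 1 else 0

private theorem c4_ind_nonneg (p : Prop) : 0 ≤ c4_ind p := by
  unfold c4_ind
  split_ifs <;> norm_num

private theorem c4_ind_true {p : Prop} (h : p) : c4_ind p = 1 := by
  unfold c4_ind
  rw [if_pos h]

private theorem c4_ind_false {p : Prop} (h : ¬ p) : c4_ind p = 0 := by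
  unfold c4_ind
  rw [if_neg h]

private theorem c4_hit (i : ℕ) (q : Bool × Bool) (st : St) :
    |(hit q st).e i| ≤ |st.e i| + c4_ind (st.pos = 2 ^ i) := by
  by_cases h : ∃ j, st.pos = 2 ^ j
  · obtain ⟨j, hj⟩ := h
    rw [hit_pow hj]
    by_cases hq : q.2 = true
    · rw [if_pos hq]
      by_cases hij : j = i
      · subst hij
        rw [c4_ind_true hj]
        change |(st.e + Finsupp.single j (-sg st.fl)) j| ≤ _
        rw [Finsupp.add_apply, Finsupp.single_eq_same]
        refine (abs_add_le _ _).trans ?_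
        have h1 : |(-sg st.fl : ℤ)| = 1 := by
          unfold sg
          split_ifs <;> norm_num
        rw [h1]
      · change |(st.e + Finsupp.single j (-sg st.fl)) i| ≤ _
        rw [Finsupp.add_apply, Finsupp.single_apply, if_neg hij, add_zero]
        have := c4_ind_nonneg (st.pos = 2 ^ i)
        linarith
    · rw [if_neg hq]
      have := c4_ind_nonneg (st.pos = 2 ^ i)
      linarith
  · have h1 : (hit q st).e = st.e := by
      by_cases h0 : st.pos = 0
      · rw [hit_zero h0]
      · rw [hit_other]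
        intro k
        cases k with
        | zero => exact h0
        | succ k => exact fun hk => h ⟨k, hk⟩
    rw [h1]
    have := c4_ind_nonneg (st.pos = 2 ^ i)
    linarith

private theorem c4_move (i : ℕ) {st : St} {l : Lt M} (h : l.1 ≠ 0) :
    |(step st l).e i| ≤ |st.e i| + c4_ind (st.pos = 2 ^ i)
      + c4_ind ((step st l).pos = 2 ^ i) := by
  rw [step_move h, hit_pos]
  have h1 := c4_hit i l.2.2.2 (arrive l.2.2.1 (hit l.2.1 st))
  have h2 := c4_hit i l.2.1 st
  rw [arrive_e] at h1
  linarith

private theorem c4_wc (k : ℕ) (st : St) (l : Lt M) : st.wc k ≤ (step st l).wc k := by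
  by_cases h : l.1 = 0
  · rw [step_slot h]
  · rw [step_move h, (hit_aux _ _).2.2.2.2]
    have h1 : ∀ (up : Bool) (s : St), s.wc k ≤ (arrive up s).wc k := by
      intro up s
      unfold arrive
      split
      · exact le_rfl
      · change s.wc k ≤ if s.ph k = true ∧ _ = 0 then s.wc k + 1 else s.wc k
        split_ifs
        · exact Nat.le_succ _
        · exact le_rfl
    have h2 := h1 l.2.2.1 (hit l.2.1 st)
    rw [(hit_aux _ _).2.2.2.2] at h2
    exact h2

private theorem c4_mem {st : St} {l : Lt M} {w : List (Lt M)} {e : ℕ →₀ ℤ}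
    (he : e ∈ SE st (l :: w)) : (l.1 = 0 ∧ st.pos = 0 ∧ e = st.e) ∨ e ∈ SE (step st l) w := by
  classical
  unfold SE at he
  rcases Finset.mem_union.1 he with h | h
  · left
    split_ifs at h with h1
    · exact ⟨h1.1, h1.2, Finset.mem_singleton.1 h⟩
    · exact absurd h (Finset.notMem_empty _)
  · exact Or.inr h

private theorem c4_slots {φ : St → Prop} {st : St} {l : Lt M} {w : List (Lt M)}
    (h : slots φ st (l :: w) = 0) : ¬ (l.1 = 0 ∧ φ st) ∧ slots φ (step st l) w = 0 := by
  classical
  unfold slots at h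
  refine ⟨fun h1 => ?_, by omega⟩
  rw [if_pos h1] at h
  omega

private theorem c4_visits {φ : St → Prop} {st : St} {l : Lt M} {w : List (Lt M)} :
    ((visits φ st (l :: w) : ℕ) : ℤ) = c4_ind (φ (step st l)) + (visits φ (step st l) w : ℕ) := by
  classical
  rw [visits]
  unfold c4_ind
  push_cast
  rfl

private theorem c4_lt {i' k W : ℕ} {e : ℕ →₀ ℤ} (hc : ∀ j, i' ≤ j → e j = 0) (w : List (Lt M)) :
    ∀ st : St, slots (fun s => Cos i' s ∧ W ≤ s.wc k) st w = 0 → e ∈ SE st w → st.wc k < W := by
  induction w with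
  | nil =>
    intro st _ he
    exact absurd he (Finset.notMem_empty _)
  | cons l w ih =>
    intro st h2 he
    obtain ⟨h3, h4⟩ := c4_slots h2
    rcases c4_mem he with ⟨h5, h6, h7⟩ | h5
    · by_contra h8
      refine h3 ⟨h5, ⟨h6, fun j hj => ?_⟩, not_lt.1 h8⟩
      rw [← h7]
      exact hc j hj
    · exact lt_of_le_of_lt (c4_wc k st l) (ih _ h4 h5)

private theorem c4_exp {i i' k W : ℕ} {e : ℕ →₀ ℤ} (hc : ∀ j, i' ≤ j → e j = 0)
    (w : List (Lt M)) : ∀ st : St, slots (fun s => Cos i' s ∧ W ≤ s.wc k) st w = 0 →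
      e ∈ SE st w → |e i| ≤ |st.e i| + c4_ind (st.pos = 2 ^ i)
        + 2 * ((visits (fun s => s.pos = 2 ^ i ∧ s.wc k < W) st w : ℕ) : ℤ) := by
  induction w with
  | nil =>
    intro st _ he
    exact absurd he (Finset.notMem_empty _)
  | cons l w ih =>
    intro st h2 he
    obtain ⟨h3, h4⟩ := c4_slots h2
    have hi := c4_ind_nonneg (st.pos = 2 ^ i)
    rcases c4_mem he with ⟨h5, h6, h7⟩ | h5
    · rw [h7]
      have : (0 : ℤ) ≤ ((visits (fun s => s.pos = 2 ^ i ∧ s.wc k < W) st (l :: w) : ℕ) : ℤ) :=
        Int.natCast_nonneg _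
      linarith
    · have h8 := ih _ h4 h5
      have h9 := c4_lt hc w _ h4 h5
      rw [c4_visits]
      by_cases h0 : l.1 = 0
      · have h10 := c4_ind_nonneg ((step st l).pos = 2 ^ i ∧ (step st l).wc k < W)
        have e1 : step st l = st := step_slot h0
        rw [e1] at h8 h10 ⊢
        linarith
      · have h10 := c4_move i (st := st) h0
        have h11 : c4_ind ((step st l).pos = 2 ^ i)
            = c4_ind ((step st l).pos = 2 ^ i ∧ (step st l).wc k < W) := by
          by_cases h12 : (step st l).pos = 2 ^ i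
          · rw [c4_ind_true h12, c4_ind_true ⟨h12, h9⟩]
          · rw [c4_ind_false h12, c4_ind_false (fun h13 => h12 h13.1)]
        rw [h11] at h8 h10
        linarith

theorem exp_le {i i' k W : ℕ} {w : List (Lt M)}
    (h2 : slots (fun s => Cos i' s ∧ W ≤ s.wc k) st0 w = 0) {e : ℕ →₀ ℤ} (he : e ∈ SE st0 w)
    (hc : ∀ j, i' ≤ j → e j = 0) :
    |e i| ≤ 2 * (visits (fun s => s.pos = 2 ^ i ∧ s.wc k < W) st0 w : ℤ) := by
  have h := c4_exp (i := i) hc w st0 h2 he
  have h1 : c4_ind (st0.pos = 2 ^ i) = 0 := by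
    refine c4_ind_false fun h3 => ?_
    have h4 : (0 : ℤ) < 2 ^ i := by positivity
    rw [← h3] at h4
    exact lt_irrefl _ h4
  have h3 : |st0.e i| = 0 := by simp [st0]
  rw [h1, h3] at h
  linarith

private theorem c4_card (i' : ℕ) (w : List (Lt M)) : ∀ (st : St) (T : Finset (ℕ →₀ ℤ)),
    T ⊆ SE st w → (∀ e ∈ T, ∀ j, i' ≤ j → e j = 0) → T.card ≤ slots (Cos i') st w := by
  classical
  induction w with
  | nil =>
    intro st T hT _
    have h1 : T = ∅ := Finset.subset_empty.1 hT
    rw [h1]
    exact Nat.zero_le _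
  | cons l w ih =>
    intro st T hT hc
    by_cases h0 : (l.1 = 0 ∧ st.pos = 0) ∧ st.e ∈ T
    · have h1 : T.erase st.e ⊆ SE (step st l) w := by
        intro e he
        obtain ⟨h2, h3⟩ := Finset.mem_erase.1 he
        rcases c4_mem (hT h3) with h4 | h4
        · exact absurd h4.2.2 h2
        · exact h4
      have h2 := ih (step st l) _ h1 (fun e he => hc e (Finset.mem_of_mem_erase he))
      have h3 := Finset.card_erase_add_one h0.2
      have h4 : l.1 = 0 ∧ Cos i' st := ⟨h0.1.1, h0.1.2, hc _ h0.2⟩
      have h5 : slots (Cos i') st (l :: w) = 1 + slots (Cos i') (step st l) w := by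
        rw [slots, if_pos h4]
      omega
    · have h1 : T ⊆ SE (step st l) w := by
        intro e he
        rcases c4_mem (hT he) with h4 | h4
        · exact absurd ⟨⟨h4.1, h4.2.1⟩, h4.2.2 ▸ he⟩ h0
        · exact h4
      have h2 := ih (step st l) _ h1 hc
      refine h2.trans ?_
      rw [slots]
      exact Nat.le_add_left _ _

/-- the number of exponents in coset `i'` is at most the number of slots in coset `i'`. -/
theorem card_le (i' : ℕ) (w : List (Lt M)) {T : Finset (ℕ →₀ ℤ)} (hT : T ⊆ SE st0 w)
    (hc : ∀ e ∈ T, ∀ j, i' ≤ j → e j = 0) : T.card ≤ slots (Cos i') st0 w :=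
  c4_card i' w st0 T hT hc

private theorem c4_pos (st : St) (l : Lt M) : |(step st l).pos| ≤ |st.pos| + 1 := by
  by_cases h0 : l.1 = 0
  · rw [step_slot h0]
    linarith
  · rw [step_move h0, hit_pos, arrive_pos, hit_pos]
    split_ifs
    · exact (abs_add_le _ _).trans (by simp)
    · exact (abs_sub _ _).trans (by simp)

private theorem c4_ne {s : St} {n j : ℕ} (h : |s.pos| ≤ n) (hj : n < j) : s.pos ≠ 2 ^ j := by
  intro h1
  rw [h1, abs_of_nonneg (by positivity)] at h
  have h2 : j < 2 ^ j := Nat.lt_two_pow_self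
  have h3 : ((2 ^ j : ℕ) : ℤ) ≤ n := by exact_mod_cast h
  have h4 : 2 ^ j ≤ n := by exact_mod_cast h3
  omega

private theorem c4_far (w : List (Lt M)) : ∀ (st : St) (n : ℕ), |st.pos| ≤ n →
    (∀ j, n < j → st.e j = 0) → ∀ e ∈ SE st w, ∀ j, n + w.length < j → e j = 0 := by
  induction w with
  | nil =>
    intro st n _ _ e he
    exact absurd he (Finset.notMem_empty _)
  | cons l w ih =>
    intro st n h1 h2 e he j hj
    rw [List.length_cons] at hj
    rcases c4_mem he with ⟨_, _, h3⟩ | h3
    · rw [h3]
      exact h2 j (by omega)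
    · have h4 : |(step st l).pos| ≤ ((n + 1 : ℕ) : ℤ) := by
        have := c4_pos st l
        push_cast
        linarith
      refine ih (step st l) (n + 1) h4 (fun j hj => ?_) e h3 j (by omega)
      by_cases h0 : l.1 = 0
      · rw [step_slot h0]
        exact h2 j (by omega)
      · have h5 := c4_move j (st := st) h0
        rw [c4_ind_false (c4_ne h1 (by omega)), c4_ind_false (c4_ne h4 hj), h2 j (by omega),
          abs_zero] at h5
        exact abs_eq_zero.1 (le_antisymm (by linarith) (abs_nonneg _))

/-- exponents at slots vanish at indices larger than the length. -/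
theorem se_far {w : List (Lt M)} {e : ℕ →₀ ℤ} (he : e ∈ SE st0 w) {j : ℕ} (hj : w.length < j) :
    e j = 0 := by
  refine c4_far w st0 0 ?_ (fun j _ => ?_) e he j (by omega)
  · simp [st0]
  · simp [st0]

private theorem c4_append (w w' : List (Lt M)) : ∀ st : St, SE st w ⊆ SE st (w ++ w') := by
  classical
  induction w with
  | nil =>
    intro st
    exact Finset.empty_subset _
  | cons l w ih =>
    intro st
    rw [List.cons_append, SE, SE]
    exact Finset.union_subset_union (Finset.Subset.refl _) (ih _)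

theorem se_append (w w' : List (Lt M)) : SE st0 w ⊆ SE st0 (w ++ w') :=
  c4_append w w' st0

end Pool.Agent.H34.SW
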