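import Pool.Agent.H34.SW.C1

/-!
C5: position bounds. `sp` is strictly monotone; a step changes the position by `0` or `±1`, so a new
special point has index `r - 1`, `r` or `r + 1`. Induction from the right (`List.reverseRecOn`,
`run_append`).
-/

namespace Pool.Agent.H34.SW

open Pool.Agent.H34.LS Filter

variable {M : ℕ}

theorem sp_strictMono : StrictMono sp := by
  refine strictMono_nat_of_lt_succ fun n => ?_
  cases n with
  | zero => simp [sp]
  | succ k =>
    change (2 : ℤ) ^ k < 2 ^ (k + 1)
    rw [pow_succ]
    have : (0 : ℤ) < 2 ^ k := by positivity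
    linarith

/-- the bounds for the position. -/
private def c5_inv (st : St) : Prop :=
  st.pos < sp (st.r + 1) ∧ ∀ k, st.r = k + 1 → sp k < st.pos

private theorem c5_hit (q : Bool × Bool) {st : St} (h : c5_inv st) : c5_inv (hit q st) := by
  unfold c5_inv at *
  rw [hit_pos, (hit_aux q st).1]
  exact h

private theorem c5_arrive (up : Bool) {st : St} (h : c5_inv st) : c5_inv (arrive up st) := by
  rcases hk : ki (if up then st.pos + 1 else st.pos - 1) with _ | k
  · have hne : ∀ j, (if up then st.pos + 1 else st.pos - 1) ≠ sp j := by
      intro j hj
      rw [ki_eq_some.2 hj] at hk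
      cases hk
    have e1 : (arrive up st).pos = (if up then st.pos + 1 else st.pos - 1) := arrive_pos up st
    have e2 : (arrive up st).r = st.r := by
      simp only [arrive, hk]
    unfold c5_inv at *
    rw [e1, e2]
    obtain ⟨h1, h2⟩ := h
    refine ⟨?_, fun k hk' => ?_⟩
    · have h3 := hne (st.r + 1)
      rcases up with _ | _
      · simp only [Bool.false_eq_true, if_false] at h3 ⊢
        omega
      · simp only [if_true] at h3 ⊢
        omega
    · have h3 := hne k
      have h4 := h2 k hk'
      rcases up with _ | _
      · simp only [Bool.false_eq_true, if_false] at h3 ⊢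
        omega
      · simp only [if_true] at h3 ⊢
        omega
  · have e0 : (if up then st.pos + 1 else st.pos - 1) = sp k := ki_eq_some.1 hk
    have e1 : (arrive up st).pos = sp k := (arrive_pos up st).trans e0
    have e2 : (arrive up st).r = k := by
      simp only [arrive, hk]
    unfold c5_inv
    rw [e1, e2]
    refine ⟨sp_strictMono (Nat.lt_succ_self k), fun j hj => ?_⟩
    exact sp_strictMono (by omega)

private theorem c5_step {st : St} (l : Lt M) (h : c5_inv st) : c5_inv (step st l) := by
  by_cases h0 : l.1 = 0
  · rw [step_slot h0]
    exact h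
  · rw [step_move h0]
    exact c5_hit _ (c5_arrive _ (c5_hit _ h))

private theorem c5_run (w : List (Lt M)) : ∀ st : St, c5_inv st → c5_inv (run st w) := by
  induction w with
  | nil => exact fun st h => h
  | cons l w ih => exact fun st h => ih _ (c5_step l h)

private theorem c5_st0 : c5_inv st0 := by
  refine ⟨?_, fun k hk => ?_⟩
  · simp [st0, sp]
  · simp [st0] at hk

/-- the last special point and its neighbours bound the position. -/
theorem r_inv (w : List (Lt M)) : (run st0 w).pos < sp ((run st0 w).r + 1) ∧
    (∀ k, (run st0 w).r = k + 1 → sp k < (run st0 w).pos) :=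
  c5_run w st0 c5_st0

private theorem c5_step_pos (st : St) (l : Lt M) : |(step st l).pos| ≤ |st.pos| + 1 := by
  by_cases h0 : l.1 = 0
  · rw [step_slot h0]
    linarith
  · rw [step_move h0, hit_pos, arrive_pos, hit_pos]
    split_ifs
    · exact (abs_add_le _ _).trans (by simp)
    · exact (abs_sub _ _).trans (by simp)

private theorem c5_run_pos (w : List (Lt M)) : ∀ st : St, |(run st w).pos| ≤ |st.pos| + w.length := by
  induction w with
  | nil => intro st; simp [run]
  | cons l w ih =>
    intro st
    have h1 := ih (step st l)
    have h2 := c5_step_pos st l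
    rw [run_cons, List.length_cons]
    push_cast
    linarith

/-- `|pos| ≤ length`. -/
theorem pos_le (w : List (Lt M)) : |(run st0 w).pos| ≤ w.length := by
  have h := c5_run_pos w st0
  simpa [st0] using h

end Pool.Agent.H34.SW
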