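import Pool.Agent.H34.SW.Defs

/-!
D0: `bb T x` = probability that a sum of `T` fair signs equals `x`:
`bb T x = T.choose k / 2^T` if `x = 2 k - T` with `0 ≤ k ≤ T`, else `0`; `Nat.choose_le_middle`.
-/

namespace Pool.Agent.H34.SW

open Pool.Agent.H34.LS Filter

/-- probability that a sum of `T` fair signs equals `x`. -/
noncomputable def bb : ℕ → ℤ → ℝ
  | 0, x => if x = 0 then 1 else 0
  | T + 1, x => (bb T (x - 1) + bb T (x + 1)) / 2

theorem bb_nonneg (T : ℕ) (x : ℤ) : 0 ≤ bb T x := by
  induction T generalizing x with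
  | zero =>
    simp only [bb]
    split_ifs <;> norm_num
  | succ T ih =>
    simp only [bb]
    have h1 := ih (x - 1)
    have h2 := ih (x + 1)
    linarith

private theorem d0_out (T : ℕ) : ∀ x : ℤ, (x < -(T : ℤ) ∨ (T : ℤ) < x) → bb T x = 0 := by
  induction T with
  | zero =>
    intro x h
    have hx : x ≠ 0 := by
      rintro rfl
      simp at h
    simp only [bb, if_neg hx]
  | succ T ih =>
    intro x h
    push_cast at h
    simp only [bb]
    rw [ih (x - 1) (by omega), ih (x + 1) (by omega)]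
    simp

private theorem d0_par (T : ℕ) : ∀ x : ℤ, (x + T) % 2 = 1 → bb T x = 0 := by
  induction T with
  | zero =>
    intro x h
    have hx : x ≠ 0 := by
      rintro rfl
      simp at h
    simp only [bb, if_neg hx]
  | succ T ih =>
    intro x h
    push_cast at h
    simp only [bb]
    rw [ih (x - 1) (by omega), ih (x + 1) (by omega)]
    simp

theorem bb_eq (T k : ℕ) (hk : k ≤ T) : bb T (2 * k - T) = (T.choose k : ℝ) / 2 ^ T := by
  induction T generalizing k with
  | zero =>
    obtain rfl : k = 0 := by omega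
    simp [bb]
  | succ T ih =>
    simp only [bb]
    rcases Nat.eq_zero_or_pos k with rfl | hk0
    · have h1 : bb T (2 * ((0 : ℕ) : ℤ) - ((T + 1 : ℕ) : ℤ) - 1) = 0 :=
        d0_out T _ (by push_cast; omega)
      have h2 : bb T (2 * ((0 : ℕ) : ℤ) - ((T + 1 : ℕ) : ℤ) + 1) = ((T.choose 0 : ℕ) : ℝ) / 2 ^ T := by
        rw [← ih 0 (Nat.zero_le T)]
        congr 1
        push_cast
        ring
      rw [h1, h2]
      simp only [Nat.choose_zero_right, Nat.cast_one, zero_add, pow_succ]
      field_simp
    · obtain ⟨j, rfl⟩ : ∃ j, k = j + 1 := ⟨k - 1, by omega⟩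
      have h1 : bb T (2 * ((j + 1 : ℕ) : ℤ) - ((T + 1 : ℕ) : ℤ) - 1) =
          ((T.choose j : ℕ) : ℝ) / 2 ^ T := by
        rw [← ih j (by omega)]
        congr 1
        push_cast
        ring
      have h2 : bb T (2 * ((j + 1 : ℕ) : ℤ) - ((T + 1 : ℕ) : ℤ) + 1) =
          ((T.choose (j + 1) : ℕ) : ℝ) / 2 ^ T := by
        rcases Nat.lt_or_ge T (j + 1) with h | h
        · rw [Nat.choose_eq_zero_of_lt h]
          rw [d0_out T _ (by push_cast; omega)]
          simp
        · rw [← ih (j + 1) h]
          congr 1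
          push_cast
          ring
      rw [h1, h2, Nat.choose_succ_succ]
      push_cast
      rw [pow_succ]
      field_simp

theorem bb_le (T : ℕ) (x : ℤ) : bb T x ≤ cc T := by
  have hcc : 0 ≤ cc T := by
    unfold cc
    positivity
  by_cases h1 : x < -(T : ℤ) ∨ (T : ℤ) < x
  · rw [d0_out T x h1]
    exact hcc
  · by_cases h2 : (x + T) % 2 = 1
    · rw [d0_par T x h2]
      exact hcc
    · obtain ⟨k, hk⟩ : ∃ k : ℕ, x = 2 * (k : ℤ) - T := ⟨((x + T) / 2).toNat, by omega⟩
      have hkT : k ≤ T := by omega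
      rw [hk, bb_eq T k hkT]
      unfold cc
      have := Nat.choose_le_middle k T
      have h3 : ((T.choose k : ℕ) : ℝ) ≤ ((T.choose (T / 2) : ℕ) : ℝ) := by exact_mod_cast this
      exact div_le_div_of_nonneg_right h3 (by positivity)

end Pool.Agent.H34.SW
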