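import Pool.Agent.H34.SW.X1
import Pool.Agent.H34.SW.C1
import Pool.Agent.H34.SW.D0

/-!
D1: the coins, with `b = bb` of D0.
Claim: for a blind `φ`, all `n`, all `st`, all finsets `I`,
`1/2 ∑_{fl} Ex n (1(∀ l ∈ I, E_l = 0) φ) (st with fl) =
  Ex n (φ ∏_{l ∈ I} b (T_l - st.T_l) (- st.E_l)) st` (`E, T` at the final state,
`T_l ≥ st.T_l`). Induction on `n`: a slot does nothing; a move: if the position is special, the
departure coins make `fl` uniform, so both sides do not see `fl`; if the new position is special
with index `k ≠ r` then `E_{min k r}` changes by a sign `± sg fl`, `fl` uniform, and after that the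
arrival coins make `fl` uniform again and independent of that sign. The coins also change `e`;
nothing depends on `e`.
At the end `Ex n F st0 ≤ Ex n F (st0, fl = false) + Ex n F (st0, fl = true) = 2 * average`.
-/

namespace Pool.Agent.H34.SW

open Pool.Agent.H34.LS Filter

variable {M : ℕ}

/-- agreement of the blind parts. -/
private def d1_B (s s' : St) : Prop :=
  s.pos = s'.pos ∧ s.r = s'.r ∧ s.T = s'.T ∧ s.ph = s'.ph ∧ s.wc = s'.wc

/-- agreement of everything but the exponents. -/
private def d1_A (s s' : St) : Prop := d1_B s s' ∧ s.fl = s'.fl ∧ s.E = s'.E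

private theorem d1_B_rfl (s : St) : d1_B s s := ⟨rfl, rfl, rfl, rfl, rfl⟩

private theorem d1_B_hit {s s' : St} (h : d1_B s s') (q q' : Bool × Bool) :
    d1_B (hit q s) (hit q' s') := by
  have a := hit_aux q s
  have b := hit_aux q' s'
  refine ⟨?_, ?_, ?_, ?_, ?_⟩
  · rw [hit_pos, hit_pos]; exact h.1
  · rw [a.1, b.1]; exact h.2.1
  · rw [a.2.2.1, b.2.2.1]; exact h.2.2.1
  · rw [a.2.2.2.1, b.2.2.2.1]; exact h.2.2.2.1
  · rw [a.2.2.2.2, b.2.2.2.2]; exact h.2.2.2.2

private theorem d1_B_arrive {s s' : St} (h : d1_B s s') (up : Bool) :
    d1_B (arrive up s) (arrive up s') := by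
  obtain ⟨pos, fl, e, r, E, T, ph, wc⟩ := s
  obtain ⟨pos', fl', e', r', E', T', ph', wc'⟩ := s'
  simp only [d1_B] at h
  obtain ⟨rfl, rfl, rfl, rfl, rfl⟩ := h
  unfold arrive
  cases ki (if up then pos + 1 else pos - 1) with
  | none => exact ⟨rfl, rfl, rfl, rfl, rfl⟩
  | some k => exact ⟨rfl, rfl, rfl, rfl, rfl⟩

private theorem d1_B_step {s s' : St} (h : d1_B s s') (l : Lt M) :
    d1_B (step s l) (step s' l) := by
  by_cases hl : l.1 = 0
  · rw [step_slot hl, step_slot hl]; exact h
  · rw [step_move hl, step_move hl]
    exact d1_B_hit (d1_B_arrive (d1_B_hit h _ _) _) _ _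

private theorem d1_B_run {s s' : St} (h : d1_B s s') (w : List (Lt M)) :
    d1_B (run s w) (run s' w) := by
  induction w generalizing s s' with
  | nil => exact h
  | cons l w ih => exact ih (d1_B_step h l)

private theorem d1_hit_flip (q : Bool × Bool) (st : St) :
    ∃ b : Bool, ∀ f : Bool, d1_A (hit q { st with fl := f }) { st with fl := xor f b } := by
  have key : ∀ b : Bool, (∀ f : Bool, (hit q { st with fl := f }).fl = xor f b) →
      ∀ f : Bool, d1_A (hit q { st with fl := f }) { st with fl := xor f b } := by
    intro b hb f
    have a := hit_aux q { st with fl := f }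
    exact ⟨⟨hit_pos _ _, a.1, a.2.2.1, a.2.2.2.1, a.2.2.2.2⟩, hb f, a.2.1⟩
  rcases hk : ki st.pos with _ | _ | j
  · refine ⟨false, key _ fun f => ?_⟩
    simp [hit, hk]
  · refine ⟨q.1, key _ fun f => ?_⟩
    simp [hit, hk]
  · refine ⟨q.2, key _ fun f => ?_⟩
    simp only [hit, hk]
    cases q.2 <;> simp

private theorem d1_A_hit {s s' : St} (h : d1_A s s') (q : Bool × Bool) :
    d1_A (hit q s) (hit q s') := by
  obtain ⟨hB, hf, hE⟩ := h
  refine ⟨d1_B_hit hB q q, ?_, ?_⟩
  · obtain ⟨pos, fl, e, r, E, T, ph, wc⟩ := s
    obtain ⟨pos', fl', e', r', E', T', ph', wc'⟩ := s'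
    simp only at hf hE
    have hp : pos = pos' := hB.1
    subst hf hp
    unfold hit
    dsimp only
    rcases ki pos with _ | _ | j
    · rfl
    · rfl
    · dsimp only
      cases q.2 <;> rfl
  · rw [(hit_aux q s).2.1, (hit_aux q s').2.1]; exact hE

private theorem d1_A_arrive {s s' : St} (h : d1_A s s') (up : Bool) :
    d1_A (arrive up s) (arrive up s') := by
  obtain ⟨hB, hf, hE⟩ := h
  refine ⟨d1_B_arrive hB up, ?_, ?_⟩
  · rw [arrive_fl, arrive_fl]; exact hf
  · obtain ⟨pos, fl, e, r, E, T, ph, wc⟩ := s
    obtain ⟨pos', fl', e', r', E', T', ph', wc'⟩ := s'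
    simp only at hf hE
    have hp : pos = pos' := hB.1
    have hr : r = r' := hB.2.1
    subst hf hE hp hr
    unfold arrive
    dsimp only
    cases ki (if up then pos + 1 else pos - 1) with
    | none => rfl
    | some k => rfl

private theorem d1_A_step {s s' : St} (h : d1_A s s') (l : Lt M) :
    d1_A (step s l) (step s' l) := by
  by_cases hl : l.1 = 0
  · rw [step_slot hl, step_slot hl]; exact h
  · rw [step_move hl, step_move hl]
    exact d1_A_hit (d1_A_arrive (d1_A_hit h _) _) _

private theorem d1_A_run {s s' : St} (h : d1_A s s') (w : List (Lt M)) :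
    d1_A (run s w) (run s' w) := by
  induction w generalizing s s' with
  | nil => exact h
  | cons l w ih => exact ih (d1_A_step h l)

private theorem d1_T_step (s : St) (l : Lt M) (i : ℕ) : s.T i ≤ (step s l).T i := by
  by_cases hl : l.1 = 0
  · rw [step_slot hl]
  · rw [step_move hl, (hit_aux _ _).2.2.1]
    have h1 : (hit l.2.1 s).T = s.T := (hit_aux _ _).2.2.1
    rw [← h1]
    generalize hit l.2.1 s = u
    unfold arrive
    cases ki (if l.2.2.1 then u.pos + 1 else u.pos - 1) with
    | none => exact le_rfl
    | some k =>
      dsimp only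
      by_cases hk : k = u.r
      · rw [if_pos hk]
      · rw [if_neg hk]
        by_cases hi : i = min k u.r
        · subst hi
          rw [Function.update_self]
          exact Nat.le_succ _
        · rw [Function.update_of_ne hi]

private theorem d1_T_run (s : St) (w : List (Lt M)) (i : ℕ) : s.T i ≤ (run s w).T i := by
  induction w generalizing s with
  | nil => exact le_rfl
  | cons l w ih => exact (d1_T_step s l i).trans (ih _)

/-- the left side. -/
private noncomputable def d1_V (M n : ℕ) (H : St → ℝ) (s : St) : ℝ :=
  Ex M n (fun w => H (run s w))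

/-- the right side. -/
private noncomputable def d1_W (M n : ℕ) (I : Finset ℕ) (φ : St → ℝ) (s : St) (T : ℕ → ℕ)
    (E : ℕ → ℤ) : ℝ :=
  Ex M n (fun w => φ (run s w) * ∏ l ∈ I, bb ((run s w).T l - T l) (-E l))

private theorem d1_V_congr {n : ℕ} {H : St → ℝ} (hH : ∀ s s', d1_A s s' → H s = H s') {s s' : St}
    (h : d1_A s s') : d1_V M n H s = d1_V M n H s' := by
  unfold d1_V
  exact ex_congr n fun w _ => hH _ _ (d1_A_run h w)

private theorem d1_W_congr {n : ℕ} {I : Finset ℕ} {φ : St → ℝ} (hφ : Blind φ) {s s' : St}
    (h : d1_B s s') (T : ℕ → ℕ) (E : ℕ → ℤ) :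
    d1_W M n I φ s T E = d1_W M n I φ s' T E := by
  unfold d1_W
  refine ex_congr n fun w _ => ?_
  have hw := d1_B_run h w
  rw [hφ _ _ hw.1 hw.2.1 hw.2.2.1 hw.2.2.2.1 hw.2.2.2.2, hw.2.2.1]

/-- the step of the recursion at an arrival. -/
private theorem d1_arr {n : ℕ} {I : Finset ℕ} {φ : St → ℝ} (hφ : Blind φ) (up : Bool) (st : St)
    {k : ℕ} (hk : ki (if up then st.pos + 1 else st.pos - 1) = some k) :
    d1_W M n I φ (arrive up { st with fl := false }) (arrive up { st with fl := false }).T
        (arrive up { st with fl := false }).E +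
      d1_W M n I φ (arrive up { st with fl := true }) (arrive up { st with fl := true }).T
        (arrive up { st with fl := true }).E =
      2 * d1_W M n I φ (arrive up st) st.T st.E := by
  have hf : d1_B (arrive up { st with fl := false }) (arrive up st) :=
    d1_B_arrive (s := { st with fl := false }) (s' := st) ⟨rfl, rfl, rfl, rfl, rfl⟩ up
  have ht : d1_B (arrive up { st with fl := true }) (arrive up st) :=
    d1_B_arrive (s := { st with fl := true }) (s' := st) ⟨rfl, rfl, rfl, rfl, rfl⟩ up
  rw [d1_W_congr hφ hf, d1_W_congr hφ ht]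
  unfold d1_W
  rw [← ex_add, ← ex_mul]
  refine ex_congr n fun w _ => ?_
  have hT : ∀ i, (arrive up st).T i ≤ (run (arrive up st) w).T i := fun i => d1_T_run _ w i
  generalize run (arrive up st) w = R at hT ⊢
  rw [← mul_add, mul_left_comm]
  congr 1
  by_cases hkr : k = st.r
  · have e1 : ∀ f : Bool, (arrive up { st with fl := f }).T = st.T := by
      intro f; simp only [arrive, hk, hkr, if_true]
    have e2 : ∀ f : Bool, (arrive up { st with fl := f }).E = st.E := by
      intro f; simp only [arrive, hk, hkr, if_true]
    rw [e1, e1, e2, e2]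
    ring
  · have e1 : ∀ f : Bool, (arrive up { st with fl := f }).T =
        Function.update st.T (min k st.r) (st.T (min k st.r) + 1) := by
      intro f; simp only [arrive, hk, if_neg hkr]
    have e2 : ∀ f : Bool, (arrive up { st with fl := f }).E =
        Function.update st.E (min k st.r)
          (st.E (min k st.r) + (if st.r < k then 1 else -1) * sg f) := by
      intro f; simp only [arrive, hk, if_neg hkr]
    have e3 : (arrive up st).T =
        Function.update st.T (min k st.r) (st.T (min k st.r) + 1) := by
      simp only [arrive, hk, if_neg hkr]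
    rw [e1, e1, e2, e2]
    rw [e3] at hT
    generalize min k st.r = m at hT ⊢
    have hc : ∃ c : ℤ, (c = 1 ∨ c = -1) ∧ (if st.r < k then (1 : ℤ) else -1) = c := by
      by_cases h : st.r < k
      · exact ⟨1, Or.inl rfl, by rw [if_pos h]⟩
      · exact ⟨-1, Or.inr rfl, by rw [if_neg h]⟩
    obtain ⟨c, hc, hc'⟩ := hc
    rw [hc']
    by_cases hm : m ∈ I
    · rw [← Finset.mul_prod_erase I _ hm, ← Finset.mul_prod_erase I _ hm,
        ← Finset.mul_prod_erase I _ hm]
      have hp : ∀ x : ℤ, ∏ l ∈ I.erase m, bb (R.T l - Function.update st.T m (st.T m + 1) l)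
          (-Function.update st.E m x l) = ∏ l ∈ I.erase m, bb (R.T l - st.T l) (-st.E l) := by
        intro x
        refine Finset.prod_congr rfl fun l hl => ?_
        have hlm : l ≠ m := (Finset.mem_erase.1 hl).1
        rw [Function.update_of_ne hlm, Function.update_of_ne hlm]
      rw [hp, hp, Function.update_self, Function.update_self, Function.update_self, ← add_mul,
        ← mul_assoc]
      congr 1
      have h1 := hT m
      rw [Function.update_self] at h1
      obtain ⟨d, hd⟩ : ∃ d, R.T m = st.T m + 1 + d := ⟨R.T m - (st.T m + 1), by omega⟩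
      have h2 : R.T m - (st.T m + 1) = d := by omega
      have h3 : R.T m - st.T m = d + 1 := by omega
      rw [h2, h3]
      simp only [bb, sg, if_true, Bool.false_eq_true, if_false]
      rcases hc with rfl | rfl
      · have a1 : -(st.E m + 1 * 1) = -st.E m - 1 := by ring
        have a2 : -(st.E m + 1 * -1) = -st.E m + 1 := by ring
        rw [a1, a2]; ring
      · have a1 : -(st.E m + -1 * 1) = -st.E m + 1 := by ring
        have a2 : -(st.E m + -1 * -1) = -st.E m - 1 := by ring
        rw [a1, a2]; ring
    · have hp : ∀ x : ℤ, ∏ l ∈ I, bb (R.T l - Function.update st.T m (st.T m + 1) l)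
          (-Function.update st.E m x l) = ∏ l ∈ I, bb (R.T l - st.T l) (-st.E l) := by
        intro x
        refine Finset.prod_congr rfl fun l hl => ?_
        have hlm : l ≠ m := fun h => hm (h ▸ hl)
        rw [Function.update_of_ne hlm, Function.update_of_ne hlm]
      rw [hp, hp]
      ring

open Classical in
private theorem d1_main (n : ℕ) (I : Finset ℕ) {φ : St → ℝ} (hφ : Blind φ) (H : St → ℝ)
    (hH : ∀ s, H s = if ∀ l ∈ I, s.E l = 0 then φ s else 0) (st : St) :
    (d1_V M n H { st with fl := false } + d1_V M n H { st with fl := true }) / 2 =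
      d1_W M n I φ st st.T st.E := by
  have hHA : ∀ s s', d1_A s s' → H s = H s' := by
    intro s s' h
    rw [hH, hH, h.2.2, hφ s s' h.1.1 h.1.2.1 h.1.2.2.1 h.1.2.2.2.1 h.1.2.2.2.2]
  induction n generalizing st with
  | zero =>
    have hf : ∀ f : Bool, H { st with fl := f } = H st := by
      intro f
      rw [hH, hH, hφ { st with fl := f } st rfl rfl rfl rfl rfl]
    have h1 : ∀ f : Bool, d1_V M 0 H { st with fl := f } = H { st with fl := f } := fun f => rfl
    have h2 : d1_W M 0 I φ st st.T st.E =
        φ st * ∏ l ∈ I, bb (st.T l - st.T l) (-st.E l) := rfl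
    have h3 : ∏ l ∈ I, bb (st.T l - st.T l) (-st.E l) = if ∀ l ∈ I, st.E l = 0 then 1 else 0 := by
      have : ∀ l ∈ I, bb (st.T l - st.T l) (-st.E l) = if st.E l = 0 then 1 else 0 := by
        intro l _
        rw [Nat.sub_self]
        simp only [bb, neg_eq_zero]
      rw [Finset.prod_congr rfl this, Finset.prod_boole]
    rw [h1 false, h1 true, hf false, hf true, h2, h3, hH]
    by_cases h : ∀ l ∈ I, st.E l = 0
    · rw [if_pos h, if_pos h]; ring
    · rw [if_neg h, if_neg h]; ring
  | succ n ih =>
    have hV : ∀ s : St, d1_V M (n + 1) H s = av (fun l => d1_V M n H (step s l)) := fun s => rfl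
    have hW : d1_W M (n + 1) I φ st st.T st.E =
        av (fun l => d1_W M n I φ (step st l) st.T st.E) := rfl
    have hL : (d1_V M (n + 1) H { st with fl := false } +
        d1_V M (n + 1) H { st with fl := true }) / 2 =
        av (fun l : Lt M => (1 / 2) * (d1_V M n H (step { st with fl := false } l) +
          d1_V M n H (step { st with fl := true } l))) := by
      rw [av_mul, av_add, hV, hV]; ring
    rw [hL, hW, av_iter, av_iter]
    refine congrArg (· / _) (Finset.sum_congr rfl fun x _ => Finset.sum_congr rfl fun up _ =>
      congrArg (· / (16 : ℝ)) ?_)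
    by_cases hx : x = 0
    · refine Finset.sum_congr rfl fun q _ => Finset.sum_congr rfl fun q' _ => ?_
      rw [step_slot hx, step_slot hx, step_slot hx, ← ih st]
      ring
    · have hG : ∀ q q' : Bool × Bool, d1_W M n I φ (step st (x, q, up, q')) st.T st.E =
          d1_W M n I φ (arrive up st) st.T st.E := by
        intro q q'
        refine d1_W_congr hφ ?_ _ _
        rw [step_move (l := (x, q, up, q')) hx]
        have h0 : d1_B (hit q st) st := by
          have a := hit_aux q st
          exact ⟨hit_pos _ _, a.1, a.2.2.1, a.2.2.2.1, a.2.2.2.2⟩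
        have h1 : d1_B (arrive up (hit q st)) (arrive up st) := d1_B_arrive h0 up
        have a := hit_aux q' (arrive up (hit q st))
        have h2 : d1_B (hit q' (arrive up (hit q st))) (arrive up (hit q st)) :=
          ⟨hit_pos _ _, a.1, a.2.2.1, a.2.2.2.1, a.2.2.2.2⟩
        exact ⟨h2.1.trans h1.1, h2.2.1.trans h1.2.1, h2.2.2.1.trans h1.2.2.1,
          h2.2.2.2.1.trans h1.2.2.2.1, h2.2.2.2.2.trans h1.2.2.2.2⟩
      have hS : ∀ (s : St) (q q' : Bool × Bool),
          step s (x, q, up, q') = hit q' (arrive up (hit q s)) := by
        intro s q q'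
        rw [step_move (l := (x, q, up, q')) hx]
      simp only [hG]
      simp only [hS]
      -- the arrival coins
      obtain ⟨K, hK⟩ : ∃ K : St → ℝ, ∀ s, K s =
          ∑ q' : Bool × Bool, d1_V M n H (hit q' (arrive up s)) := ⟨_, fun s => rfl⟩
      have hKA : ∀ s s', d1_A s s' → K s = K s' := by
        intro s s' h
        rw [hK, hK]
        exact Finset.sum_congr rfl fun q' _ => d1_V_congr hHA (d1_A_hit (d1_A_arrive h up) q')
      have hflip : ∀ q : Bool × Bool, K (hit q { st with fl := false }) +
          K (hit q { st with fl := true }) = K { st with fl := false } +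
            K { st with fl := true } := by
        intro q
        obtain ⟨b, hb⟩ := d1_hit_flip q st
        rw [hKA _ _ (hb false), hKA _ _ (hb true)]
        cases b
        · rfl
        · exact add_comm _ _
      have hleft : ∑ q : Bool × Bool, ∑ q' : Bool × Bool, (1 / 2) *
          (d1_V M n H (hit q' (arrive up (hit q { st with fl := false }))) +
            d1_V M n H (hit q' (arrive up (hit q { st with fl := true })))) =
          2 * (K { st with fl := false } + K { st with fl := true }) := by
        have : ∀ q : Bool × Bool, ∑ q' : Bool × Bool, (1 / 2) *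
            (d1_V M n H (hit q' (arrive up (hit q { st with fl := false }))) +
              d1_V M n H (hit q' (arrive up (hit q { st with fl := true })))) =
            (1 / 2) * (K { st with fl := false } + K { st with fl := true }) := by
          intro q
          rw [← Finset.mul_sum, Finset.sum_add_distrib, ← hK, ← hK, hflip]
        simp only [this, Finset.sum_const, Finset.card_univ, Fintype.card_prod, Fintype.card_bool,
          nsmul_eq_mul]
        push_cast
        ring
      rw [hleft]
      simp only [Finset.sum_const, Finset.card_univ, Fintype.card_prod, Fintype.card_bool,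
          nsmul_eq_mul]
      rcases hk : ki (if up then st.pos + 1 else st.pos - 1) with _ | k
      · -- not special
        have hKn : ∀ f : Bool, K { st with fl := f } =
            4 * d1_V M n H { (arrive up st) with fl := f } := by
          intro f
          have e : arrive up { st with fl := f } = { (arrive up st) with fl := f } := by
            simp only [arrive, hk]
          have hp : (arrive up { st with fl := f }).pos =
              if up then st.pos + 1 else st.pos - 1 := arrive_pos _ _
          have hh : ∀ q' : Bool × Bool, hit q' (arrive up { st with fl := f }) =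
              arrive up { st with fl := f } := by
            intro q'
            unfold hit
            rw [hp, hk]
          rw [hK]
          simp only [hh]
          rw [e]
          simp only [Finset.sum_const, Finset.card_univ, Fintype.card_prod,
            Fintype.card_bool, nsmul_eq_mul]
          push_cast
          ring
        have h1 := ih (arrive up st)
        have hT : (arrive up st).T = st.T := by simp only [arrive, hk]
        have hE : (arrive up st).E = st.E := by simp only [arrive, hk]
        have hWW : d1_W M n I φ (arrive up st) (arrive up st).T (arrive up st).E =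
            d1_W M n I φ (arrive up st) st.T st.E := by rw [hT, hE]
        rw [hWW] at h1
        rw [hKn, hKn, ← h1]
        push_cast
        ring
      · have hKs : ∀ f : Bool, K { st with fl := f } =
            4 * d1_W M n I φ (arrive up { st with fl := f }) (arrive up { st with fl := f }).T
              (arrive up { st with fl := f }).E := by
          intro f
          rw [hK, ← ih (arrive up { st with fl := f })]
          have hp : (arrive up { st with fl := f }).pos =
              if up then st.pos + 1 else st.pos - 1 := arrive_pos _ _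
          generalize arrive up { st with fl := f } = u at hp ⊢
          have hku : ki u.pos = some k := by rw [hp]; exact hk
          have hb : ∀ q' : Bool × Bool, d1_A (hit q' u)
              { u with fl := xor u.fl (if k = 0 then q'.1 else q'.2) } := by
            intro q'
            have a := hit_aux q' u
            refine ⟨⟨hit_pos _ _, a.1, a.2.2.1, a.2.2.2.1, a.2.2.2.2⟩, ?_, a.2.1⟩
            rcases k with _ | j
            · simp [hit, hku]
            · simp only [hit, hku]
              cases q'.2 <;> simp
          have hs : ∀ q' : Bool × Bool, d1_V M n H (hit q' u) = d1_V M n H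
              { u with fl := xor u.fl (if k = 0 then q'.1 else q'.2) } := fun q' =>
            d1_V_congr hHA (hb q')
          simp only [hs, Fintype.sum_prod_type, Fintype.sum_bool]
          by_cases hk0 : k = 0
          · simp only [hk0, if_true]
            cases u.fl
            · simp only [Bool.xor_true, Bool.xor_false, Bool.not_false]
              ring
            · simp only [Bool.xor_true, Bool.xor_false, Bool.not_true]
              ring
          · simp only [hk0, if_false]
            cases u.fl
            · simp only [Bool.xor_true, Bool.xor_false, Bool.not_false]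
              ring
            · simp only [Bool.xor_true, Bool.xor_false, Bool.not_true]
              ring
        have h2 := d1_arr (M := M) (n := n) (I := I) hφ up st hk
        rw [hKs, hKs, ← mul_add, h2]
        push_cast
        ring

open Classical in
theorem coin (n : ℕ) (I : Finset ℕ) {φ : St → ℝ} (hφ : Blind φ) (h0 : ∀ s, 0 ≤ φ s) :
    Ex M n (fun w => if ∀ l ∈ I, (run st0 w).E l = 0 then φ (run st0 w) else 0) ≤
      2 * Ex M n (fun w => φ (run st0 w) * ∏ l ∈ I, cc ((run st0 w).T l)) := by
  obtain ⟨H, hH⟩ : ∃ H : St → ℝ, ∀ s, H s = if ∀ l ∈ I, s.E l = 0 then φ s else 0 :=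
    ⟨_, fun s => rfl⟩
  have hH0 : ∀ s, 0 ≤ H s := by
    intro s
    rw [hH]
    split_ifs
    · exact h0 s
    · exact le_rfl
  have h1 := d1_main (M := M) n I hφ H hH st0
  have h2 : 0 ≤ d1_V M n H { st0 with fl := true } := ex_nonneg n fun w => hH0 _
  have h3 : Ex M n (fun w => if ∀ l ∈ I, (run st0 w).E l = 0 then φ (run st0 w) else 0) =
      d1_V M n H { st0 with fl := false } := by
    have : ({ st0 with fl := false } : St) = st0 := rfl
    rw [this]
    unfold d1_V
    exact ex_congr n fun w _ => (hH _).symm
  have h4 : d1_W M n I φ st0 st0.T st0.E ≤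
      Ex M n (fun w => φ (run st0 w) * ∏ l ∈ I, cc ((run st0 w).T l)) := by
    unfold d1_W
    refine ex_mono n fun w _ => mul_le_mul_of_nonneg_left ?_ (h0 _)
    exact Finset.prod_le_prod (fun l _ => bb_nonneg _ _) fun l _ => bb_le _ _
  rw [h3]
  linarith

end Pool.Agent.H34.SW
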