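import Pool.Agent.H34.SW.C5

/-!
D2: traversals and cycles. Invariant for `l < k`: if `ph k = false` then
`2 wc_k + 1(l + 1 ≤ r) ≤ T_l`; if `ph k = true` then `2 wc_k + 1 + 1(r ≤ l) ≤ T_l`
(`r` changes by one at each traversal because of `r_inv`). `cc` is nonincreasing and
`cc (2 w) ^ 2 ≤ 1 / (3 w + 1)` (induction: central binomial coefficients).
-/

namespace Pool.Agent.H34.SW

open Pool.Agent.H34.LS Filter

variable {M : ℕ}

/-- the invariant. -/
private def d2_inv (k l : ℕ) (st : St) : Prop :=
  (st.ph k = false → 2 * st.wc k + (if l + 1 ≤ st.r then 1 else 0) ≤ st.T l) ∧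
    (st.ph k = true → 2 * st.wc k + 1 + (if st.r ≤ l then 1 else 0) ≤ st.T l)

private theorem d2_inv_hit {k l : ℕ} {st : St} (h : d2_inv k l st) (q : Bool × Bool) :
    d2_inv k l (hit q st) := by
  obtain ⟨h1, -, h3, h4, h5⟩ := hit_aux q st
  unfold d2_inv at h ⊢
  rw [h1, h3, h4, h5]
  exact h

private theorem d2_inv_arrive {k l : ℕ} (hl : l < k) {st : St} (h : d2_inv k l st) (up : Bool)
    (hr1 : st.pos < sp (st.r + 1)) (hr2 : ∀ j, st.r = j + 1 → sp j < st.pos) :
    d2_inv k l (arrive up st) := by
  unfold arrive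
  cases hk : ki (if up then st.pos + 1 else st.pos - 1) with
  | none => exact h
  | some k' =>
    have hpos := ki_eq_some.1 hk
    have hu : k' ≤ st.r + 1 := by
      rw [← sp_strictMono.le_iff_le, ← hpos]
      split_ifs <;> omega
    have hd : st.r ≤ k' + 1 := by
      by_contra hcon
      obtain ⟨j, hj⟩ : ∃ j, st.r = j + 1 := ⟨st.r - 1, by omega⟩
      have h2 := hr2 j hj
      have h3 : sp k' < sp j := sp_strictMono (by omega)
      rw [← hpos] at h3
      split_ifs at h3 <;> omega
    obtain ⟨ha, hb⟩ := h
    have hT : st.T l ≤ (if k' = st.r then st.T else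
        Function.update st.T (min k' st.r) (st.T (min k' st.r) + 1)) l := by
      split_ifs with h0
      · exact le_rfl
      · by_cases hm : l = min k' st.r
        · subst hm
          rw [Function.update_self]
          omega
        · rw [Function.update_of_ne hm]
    have hT1 : k' ≠ st.r → l = min k' st.r → st.T l + 1 = (if k' = st.r then st.T else
        Function.update st.T (min k' st.r) (st.T (min k' st.r) + 1)) l := by
      intro h0 hm
      rw [if_neg h0, ← hm, Function.update_self]
    constructor
    · intro hph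
      simp only at hph ⊢
      by_cases hp : st.ph k = true
      · rw [if_pos hp] at hph
        have hk0 : k' = 0 := by
          by_contra hne
          simp [hne] at hph
        have hb' := hb hp
        rw [if_pos ⟨hp, hk0⟩, if_neg (by omega)]
        by_cases hrl : st.r ≤ l
        · rw [if_pos hrl] at hb'
          omega
        · rw [if_neg hrl] at hb'
          have := hT1 (by omega) (by omega)
          omega
      · have hp' : st.ph k = false := by simpa using hp
        have ha' := ha hp'
        rw [if_neg (by simp [hp'])]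
        by_cases hlk : l + 1 ≤ k'
        · rw [if_pos hlk]
          by_cases hlr : l + 1 ≤ st.r
          · rw [if_pos hlr] at ha'
            omega
          · rw [if_neg hlr] at ha'
            have := hT1 (by omega) (by omega)
            omega
        · rw [if_neg hlk]
          split_ifs at ha' <;> omega
    · intro hph
      simp only at hph ⊢
      by_cases hp : st.ph k = true
      · rw [if_pos hp] at hph
        have hk0 : k' ≠ 0 := by simpa using hph
        have hb' := hb hp
        rw [if_neg (fun h => hk0 h.2)]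
        by_cases hkl : k' ≤ l
        · rw [if_pos hkl]
          by_cases hrl : st.r ≤ l
          · rw [if_pos hrl] at hb'
            omega
          · rw [if_neg hrl] at hb'
            have := hT1 (by omega) (by omega)
            omega
        · rw [if_neg hkl]
          split_ifs at hb' <;> omega
      · have hp' : st.ph k = false := by simpa using hp
        have ha' := ha hp'
        rw [if_neg hp] at hph
        have hkk : k' = k := by simpa using hph
        rw [if_neg (by simp [hp']), if_neg (by omega)]
        by_cases hlr : l + 1 ≤ st.r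
        · rw [if_pos hlr] at ha'
          omega
        · rw [if_neg hlr] at ha'
          have := hT1 (by omega) (by omega)
          omega

private theorem d2_inv_run {k l : ℕ} (hl : l < k) (w : List (Lt M)) : d2_inv k l (run st0 w) := by
  induction w using List.reverseRecOn with
  | nil =>
    refine ⟨fun _ => ?_, fun h => ?_⟩
    · simp [run, st0]
    · simp [run, st0] at h
  | append_singleton w x ih =>
    rw [run_append]
    change d2_inv k l (step (run st0 w) x)
    by_cases hx : x.1 = 0
    · rw [step_slot hx]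
      exact ih
    · rw [step_move hx]
      obtain ⟨h1, h2⟩ := r_inv w
      refine d2_inv_hit (d2_inv_arrive hl (d2_inv_hit ih _) _ ?_ ?_) _
      · rw [hit_pos, (hit_aux _ _).1]
        exact h1
      · intro j hj
        rw [hit_pos]
        rw [(hit_aux _ _).1] at hj
        exact h2 j hj

theorem cyc {k l : ℕ} (hl : l < k) (w : List (Lt M)) :
    2 * (run st0 w).wc k ≤ (run st0 w).T l := by
  obtain ⟨h1, h2⟩ := d2_inv_run hl w
  cases h : (run st0 w).ph k
  · have := h1 h
    omega
  · have := h2 h
    omega

theorem cc_nonneg (T : ℕ) : 0 ≤ cc T := by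
  unfold cc
  positivity

private theorem d2_cc_succ (T : ℕ) : cc (T + 1) ≤ cc T := by
  have h : ((T + 1).choose ((T + 1) / 2) : ℝ) ≤ 2 * (T.choose (T / 2) : ℝ) := by
    have h' : (T + 1).choose ((T + 1) / 2) ≤ 2 * T.choose (T / 2) := by
      cases hm : (T + 1) / 2 with
      | zero =>
        have h1 : 0 < T.choose (T / 2) := Nat.choose_pos (Nat.div_le_self T 2)
        rw [Nat.choose_zero_right]
        omega
      | succ m =>
        rw [Nat.choose_succ_succ]
        have h1 := Nat.choose_le_middle m T
        have h2 := Nat.choose_le_middle (m + 1) T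
        simp only [Nat.succ_eq_add_one]
        omega
    exact_mod_cast h'
  unfold cc
  rw [pow_succ, div_le_div_iff₀ (by positivity) (by positivity)]
  have h2 : (0 : ℝ) < 2 ^ T := by positivity
  nlinarith

theorem cc_anti {T T' : ℕ} (h : T ≤ T') : cc T' ≤ cc T :=
  antitone_nat_of_succ_le d2_cc_succ h

private theorem d2_cc_rec (w : ℕ) :
    cc (2 * (w + 1)) * (2 * (w : ℝ) + 2) = cc (2 * w) * (2 * (w : ℝ) + 1) := by
  have e1 : (2 * (w + 1)) / 2 = w + 1 := by omega
  have e2 : (2 * w) / 2 = w := by omega
  have h := Nat.succ_mul_centralBinom_succ w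
  have h' : ((w : ℝ) + 1) * ((2 * (w + 1)).choose (w + 1) : ℝ) =
      2 * (2 * (w : ℝ) + 1) * ((2 * w).choose w : ℝ) := by
    have h1 : ((w + 1) * (w + 1).centralBinom : ℕ) = (2 * (2 * w + 1) * w.centralBinom : ℕ) := h
    unfold Nat.centralBinom at h1
    exact_mod_cast h1
  unfold cc
  rw [e1, e2]
  have h4 : (2 : ℝ) ^ (2 * (w + 1)) = 4 * 2 ^ (2 * w) := by
    rw [show 2 * (w + 1) = 2 * w + 2 by ring, pow_add]
    ring
  rw [h4]
  have h5 : (2 : ℝ) ^ (2 * w) ≠ 0 := by positivity
  field_simp
  linear_combination 2 * h'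

theorem cc_sq (w : ℕ) : cc (2 * w) ^ 2 ≤ 1 / (3 * (w : ℝ) + 1) := by
  induction w with
  | zero => simp [cc]
  | succ w ih =>
    have hw : (0 : ℝ) ≤ w := Nat.cast_nonneg w
    have h1 := d2_cc_rec w
    have h2 : cc (2 * (w + 1)) = cc (2 * w) * ((2 * (w : ℝ) + 1) / (2 * (w : ℝ) + 2)) := by
      rw [← mul_div_assoc, ← h1]
      field_simp
    rw [h2, mul_pow]
    push_cast
    calc cc (2 * w) ^ 2 * ((2 * (w : ℝ) + 1) / (2 * (w : ℝ) + 2)) ^ 2
        ≤ 1 / (3 * (w : ℝ) + 1) * ((2 * (w : ℝ) + 1) / (2 * (w : ℝ) + 2)) ^ 2 :=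
          mul_le_mul_of_nonneg_right ih (by positivity)
      _ ≤ 1 / (3 * ((w : ℝ) + 1) + 1) := by
          rw [div_pow, div_mul_div_comm, div_le_div_iff₀ (by positivity) (by positivity)]
          nlinarith [mul_nonneg hw hw]

theorem cc_prod (i : ℕ) (w : List (Lt M)) : ∏ l ∈ Finset.Ico i (i + 4), cc ((run st0 w).T l) ≤
    1 / (3 * ((run st0 w).wc (i + 4) : ℝ) + 1) ^ 2 := by
  have h1 : ∏ l ∈ Finset.Ico i (i + 4), cc ((run st0 w).T l) ≤
      ∏ _l ∈ Finset.Ico i (i + 4), cc (2 * (run st0 w).wc (i + 4)) := by
    refine Finset.prod_le_prod (fun l _ => cc_nonneg _) fun l hl => ?_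
    exact cc_anti (cyc (Finset.mem_Ico.1 hl).2 w)
  refine h1.trans ?_
  rw [Finset.prod_const, Nat.card_Ico, Nat.add_sub_cancel_left,
    show (4 : ℕ) = 2 * 2 from rfl, pow_mul, ← one_div_pow]
  exact pow_le_pow_left₀ (sq_nonneg _) (cc_sq _) 2

end Pool.Agent.H34.SW
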