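import Pool.Agent.H34.SW.X1
import Pool.Agent.H34.SW.C1

/-!
D3: the potential. `L = sp k`, `y = pos`, `w = wc k`:
`Φ = c w (2 (L - max y z) + 2 z) + 2 L C (w+1)` if `ph k = false`,
`Φ = c w (2 min y z) + 2 L C (w+1)` if `ph k = true`. Invariant: `ph k = false → y < L`,
`ph k = true → 0 < y`. For each state with the invariant,
`av_l Φ (step st l) + M/(M+1) * c w * 1(y = z) ≤ Φ st` (the phase and `wc` do not depend on the coins).
By induction on `m` (front recursion, `Ex n` over `st`):
`M/(M+1) * ∑_{n<m} Ex n (1(pos = z) c (wc k)) (st) ≤ Φ st`, and `Φ st0 = 2 L (c 0 + C 1) ≤ 2 L C 0`.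
-/

namespace Pool.Agent.H34.SW

open Pool.Agent.H34.LS Filter

variable {M : ℕ}

private def d3_Inv (k : ℕ) (st : St) : Prop :=
  (st.ph k = false → st.pos < sp k) ∧ (st.ph k = true → 0 < st.pos)

private def d3_X (L z y : ℤ) (b : Bool) : ℤ := if b then min y z else L - max y z + z

private noncomputable def d3_P (L z : ℤ) (c C : ℕ → ℝ) (y : ℤ) (b : Bool) (w : ℕ) : ℝ :=
  c w * (2 * (d3_X L z y b : ℝ)) + 2 * L * C (w + 1)

private theorem d3_sp_pos {k : ℕ} (hk : 1 ≤ k) : 0 < sp k := by
  obtain ⟨j, rfl⟩ : ∃ j, k = j + 1 := ⟨k - 1, by omega⟩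
  show (0 : ℤ) < 2 ^ j
  positivity

private theorem d3_conv (L z y : ℤ) (b : Bool) :
    d3_X L z (y + 1) b + d3_X L z (y - 1) b + (if y = z then 1 else 0) ≤ 2 * d3_X L z y b := by
  cases b
  · simp only [d3_X, Bool.false_eq_true, if_false]
    split_ifs <;> omega
  · simp only [d3_X, if_true]
    split_ifs <;> omega

private theorem d3_arrive {k : ℕ} (hk : 1 ≤ k) {z : ℤ} (hz : 0 ≤ z) (hz' : z ≤ sp k)
    {c C : ℕ → ℝ} (h : ∀ w, c w + C (w + 1) ≤ C w) (st : St) (hI : d3_Inv k st) (up : Bool) :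
    d3_Inv k (arrive up st) ∧
      d3_P (sp k) z c C (arrive up st).pos ((arrive up st).ph k) ((arrive up st).wc k) ≤
        d3_P (sp k) z c C (if up then st.pos + 1 else st.pos - 1) (st.ph k) (st.wc k) := by
  have hL := d3_sp_pos hk
  obtain ⟨y, hy⟩ : ∃ y, y = if up then st.pos + 1 else st.pos - 1 := ⟨_, rfl⟩
  have hb : y ≤ st.pos + 1 ∧ st.pos - 1 ≤ y := by
    rw [hy]
    split_ifs <;> constructor <;> omega
  rcases hki : ki y with _ | k'
  · have e : arrive up st = { st with pos := y } := by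
      unfold arrive
      rw [← hy, hki]
    rw [e, ← hy]
    refine ⟨⟨fun hf => ?_, fun ht => ?_⟩, le_refl _⟩
    · have h1 := hI.1 hf
      have h2 : y ≠ sp k := by
        intro h3
        rw [h3, ki_sp] at hki
        exact absurd hki (by simp)
      show y < sp k
      omega
    · have h1 := hI.2 ht
      have h2 : y ≠ 0 := by
        intro h3
        have h4 := ki_sp 0
        rw [show sp 0 = 0 from rfl, ← h3, hki] at h4
        exact absurd h4 (by simp)
      show 0 < y
      omega
  · have hy' : y = sp k' := ki_eq_some.1 hki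
    have e1 : (arrive up st).pos = y := by
      unfold arrive
      rw [← hy, hki]
    have e2 : (arrive up st).ph k = if st.ph k then decide (k' ≠ 0) else decide (k' = k) := by
      unfold arrive
      rw [← hy, hki]
    have e3 : (arrive up st).wc k = if st.ph k ∧ k' = 0 then st.wc k + 1 else st.wc k := by
      unfold arrive
      rw [← hy, hki]
    rw [d3_Inv, e1, e2, e3, ← hy]
    rcases hph : st.ph k with _ | _
    · have h1 := hI.1 hph
      by_cases hkk : k' = k
      · subst hkk
        simp only [Bool.false_eq_true, if_false, false_and, decide_true]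
        refine ⟨⟨fun hf => absurd hf (by simp), fun _ => by omega⟩, le_of_eq ?_⟩
        have h2 : d3_X (sp k') z y true = d3_X (sp k') z y false := by
          simp only [d3_X, Bool.false_eq_true, if_false, if_true]
          omega
        rw [d3_P, d3_P, h2]
      · simp only [Bool.false_eq_true, if_false, false_and, hkk, decide_false]
        refine ⟨⟨fun _ => ?_, fun hf => absurd hf (by simp)⟩, le_refl _⟩
        have h2 : y ≠ sp k := by
          intro h3
          exact hkk (sp_inj (hy'.symm.trans h3))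
        omega
    · have h1 := hI.2 hph
      by_cases hk0 : k' = 0
      · subst hk0
        simp only [if_true, ne_eq, not_true, decide_false, and_self]
        have hy0 : y = 0 := hy'
        refine ⟨⟨fun _ => by omega, fun hf => absurd hf (by simp)⟩, ?_⟩
        have h2 : d3_X (sp k) z y false = sp k := by
          simp only [d3_X, Bool.false_eq_true, if_false]
          omega
        have h3 : d3_X (sp k) z y true = 0 := by
          simp only [d3_X, if_true]
          omega
        rw [d3_P, d3_P, h2, h3]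
        have h4 := h (st.wc k + 1)
        have h5 : (0 : ℝ) < sp k := by exact_mod_cast hL
        have h6 := mul_le_mul_of_nonneg_left h4 (by positivity : (0 : ℝ) ≤ 2 * sp k)
        push_cast
        linarith
      · simp only [if_true, ne_eq, hk0, not_false_eq_true, decide_true, and_false, if_false]
        refine ⟨⟨fun hf => absurd hf (by simp), fun _ => ?_⟩, le_refl _⟩
        rw [hy']
        exact d3_sp_pos (by omega)

private theorem d3_hit {k : ℕ} (st : St) (hI : d3_Inv k st) (q : Bool × Bool) :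
    d3_Inv k (hit q st) := by
  obtain ⟨-, -, -, h1, -⟩ := hit_aux q st
  unfold d3_Inv
  rw [hit_pos, h1]
  exact hI

private theorem d3_one {k : ℕ} (hk : 1 ≤ k) {z : ℤ} (hz : 0 ≤ z) (hz' : z ≤ sp k)
    {c C : ℕ → ℝ} (h : ∀ w, c w + C (w + 1) ≤ C w) (st : St) (hI : d3_Inv k st) (l : Lt M) :
    d3_Inv k (step st l) ∧
      d3_P (sp k) z c C (step st l).pos ((step st l).ph k) ((step st l).wc k) ≤
        if l.1 = 0 then d3_P (sp k) z c C st.pos (st.ph k) (st.wc k)
        else d3_P (sp k) z c C (if l.2.2.1 then st.pos + 1 else st.pos - 1) (st.ph k) (st.wc k) := by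
  by_cases hl : l.1 = 0
  · rw [step_slot hl, if_pos hl]
    exact ⟨hI, le_refl _⟩
  · rw [step_move hl, if_neg hl]
    obtain ⟨h1, h2⟩ := d3_arrive hk hz hz' h (hit l.2.1 st) (d3_hit st hI l.2.1) l.2.2.1
    refine ⟨d3_hit _ h1 _, ?_⟩
    obtain ⟨-, -, -, h3, h4⟩ := hit_aux l.2.2.2 (arrive l.2.2.1 (hit l.2.1 st))
    obtain ⟨-, -, -, h5, h6⟩ := hit_aux l.2.1 st
    rw [hit_pos, h3, h4]
    rw [hit_pos l.2.1 st, h5, h6] at h2
    exact h2

private theorem d3_avg (a g₁ g₀ : ℝ) :
    av (fun l : Lt M => if l.1 = 0 then a else if l.2.2.1 then g₁ else g₀) =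
      (2 * a + M * (g₁ + g₀)) / (2 * ((M : ℝ) + 1)) := by
  rw [av_iter, Fin.sum_univ_succ]
  simp only [if_true, Fin.succ_ne_zero, if_false, Finset.sum_const, Finset.card_univ,
    Fintype.card_prod, Fintype.card_bool, nsmul_eq_mul, Fintype.card_fin, Fintype.sum_bool]
  congr 1
  push_cast
  norm_num
  ring

private theorem d3_step (hM : 1 ≤ M) {k : ℕ} (hk : 1 ≤ k) {z : ℤ} (hz : 0 ≤ z) (hz' : z ≤ sp k)
    {c C : ℕ → ℝ} (hc : ∀ w, 0 ≤ c w) (h : ∀ w, c w + C (w + 1) ≤ C w) (st : St)
    (hI : d3_Inv k st) :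
    av (fun l : Lt M => d3_P (sp k) z c C (step st l).pos ((step st l).ph k) ((step st l).wc k)) +
      (M : ℝ) / (M + 1) * (if st.pos = z then c (st.wc k) else 0) ≤
    d3_P (sp k) z c C st.pos (st.ph k) (st.wc k) := by
  have h1 := av_mono (M := M) (fun l => (d3_one hk hz hz' h st hI l).2)
  have h2 : av (fun l : Lt M => if l.1 = 0 then d3_P (sp k) z c C st.pos (st.ph k) (st.wc k)
      else d3_P (sp k) z c C (if l.2.2.1 then st.pos + 1 else st.pos - 1) (st.ph k) (st.wc k)) =
      (2 * d3_P (sp k) z c C st.pos (st.ph k) (st.wc k) +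
        M * (d3_P (sp k) z c C (st.pos + 1) (st.ph k) (st.wc k) +
          d3_P (sp k) z c C (st.pos - 1) (st.ph k) (st.wc k))) / (2 * ((M : ℝ) + 1)) := by
    rw [← d3_avg]
    congr 1
    funext l
    by_cases hl : l.1 = 0
    · rw [if_pos hl, if_pos hl]
    · rw [if_neg hl, if_neg hl]
      rcases l.2.2.1 with _ | _ <;> simp
  rw [h2] at h1
  have h3 := d3_conv (sp k) z st.pos (st.ph k)
  have h4 : (d3_X (sp k) z (st.pos + 1) (st.ph k) : ℝ) + d3_X (sp k) z (st.pos - 1) (st.ph k) +
      (if st.pos = z then 1 else 0) ≤ 2 * d3_X (sp k) z st.pos (st.ph k) := by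
    exact_mod_cast h3
  have h5 := mul_le_mul_of_nonneg_left h4 (by have := hc (st.wc k); positivity :
    0 ≤ 2 * c (st.wc k))
  have h6 : d3_P (sp k) z c C (st.pos + 1) (st.ph k) (st.wc k) +
      d3_P (sp k) z c C (st.pos - 1) (st.ph k) (st.wc k) +
      2 * (if st.pos = z then c (st.wc k) else 0) ≤
      2 * d3_P (sp k) z c C st.pos (st.ph k) (st.wc k) := by
    unfold d3_P
    have h7 : (if st.pos = z then c (st.wc k) else 0) =
        c (st.wc k) * (if st.pos = z then 1 else 0) := by
      split_ifs <;> simp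
    rw [h7]
    linarith
  have hM' : (0 : ℝ) < M := by exact_mod_cast hM
  refine (add_le_add_left h1 _).trans ?_
  rw [div_mul_eq_mul_div, div_add_div _ _ (by positivity) (by positivity),
    div_le_iff₀ (by positivity)]
  have h8 := mul_le_mul_of_nonneg_left h6 (by positivity : (0 : ℝ) ≤ (M : ℝ) * (M + 1))
  linarith

private theorem d3_av_sum (F : ℕ → Lt M → ℝ) (m : ℕ) :
    av (fun l => ∑ n ∈ Finset.range m, F n l) = ∑ n ∈ Finset.range m, av (F n) := by
  unfold av
  rw [Finset.sum_comm, Finset.sum_div]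

private theorem d3_nonneg {k : ℕ} (hk : 1 ≤ k) {z : ℤ} (hz : 0 ≤ z) (hz' : z ≤ sp k)
    {c C : ℕ → ℝ} (hc : ∀ w, 0 ≤ c w) (hC : ∀ w, 0 ≤ C w) (st : St) (hI : d3_Inv k st) :
    0 ≤ d3_P (sp k) z c C st.pos (st.ph k) (st.wc k) := by
  have hL := d3_sp_pos hk
  have h1 : 0 ≤ d3_X (sp k) z st.pos (st.ph k) := by
    rcases hph : st.ph k with _ | _
    · have := hI.1 hph
      simp only [d3_X, Bool.false_eq_true, if_false]
      omega
    · have := hI.2 hph
      simp only [d3_X, if_true]
      omega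
  have h2 : (0 : ℝ) ≤ d3_X (sp k) z st.pos (st.ph k) := by exact_mod_cast h1
  have h3 : (0 : ℝ) < sp k := by exact_mod_cast hL
  have h4 := hc (st.wc k)
  have h5 := hC (st.wc k + 1)
  unfold d3_P
  positivity

private theorem d3_main (hM : 1 ≤ M) {k : ℕ} (hk : 1 ≤ k) {z : ℤ} (hz : 0 ≤ z) (hz' : z ≤ sp k)
    {c C : ℕ → ℝ} (hc : ∀ w, 0 ≤ c w) (hC : ∀ w, 0 ≤ C w) (h : ∀ w, c w + C (w + 1) ≤ C w)
    (m : ℕ) : ∀ st : St, d3_Inv k st →
    (M : ℝ) / (M + 1) * ∑ n ∈ Finset.range m,
      Ex M n (fun w => if (run st w).pos = z then c ((run st w).wc k) else 0) ≤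
    d3_P (sp k) z c C st.pos (st.ph k) (st.wc k) := by
  induction m with
  | zero =>
    intro st hI
    rw [Finset.range_zero, Finset.sum_empty, mul_zero]
    exact d3_nonneg hk hz hz' hc hC st hI
  | succ m ih =>
    intro st hI
    have e : ∀ n, Ex M (n + 1) (fun w => if (run st w).pos = z then c ((run st w).wc k) else 0) =
        av (fun l => Ex M n (fun w => if (run (step st l) w).pos = z
          then c ((run (step st l) w).wc k) else 0)) := fun n => rfl
    have e0 : Ex M 0 (fun w => if (run st w).pos = z then c ((run st w).wc k) else 0) =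
        if st.pos = z then c (st.wc k) else 0 := rfl
    rw [Finset.sum_range_succ', e0]
    simp only [e]
    rw [← d3_av_sum, mul_add, ← av_mul]
    refine le_trans (add_le_add_left (av_mono fun l => ?_) _) (d3_step hM hk hz hz' hc h st hI)
    exact ih (step st l) (d3_one hk hz hz' h st hI l).1

theorem pot (hM : 1 ≤ M) {k : ℕ} (hk : 1 ≤ k) {z : ℤ} (hz : 0 ≤ z) (hz' : z ≤ sp k)
    {c C : ℕ → ℝ} (hc : ∀ w, 0 ≤ c w) (hC : ∀ w, 0 ≤ C w) (h : ∀ w, c w + C (w + 1) ≤ C w)
    (m : ℕ) :
    ∑ n ∈ Finset.range m, Ex M n (fun w => if (run st0 w).pos = z then c ((run st0 w).wc k) else 0)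
      ≤ ((M : ℝ) + 1) / M * (2 * sp k * C 0) := by
  have hL := d3_sp_pos hk
  have hI : d3_Inv k st0 := ⟨fun _ => hL, fun hf => absurd hf (by simp [st0])⟩
  have h1 := d3_main hM hk hz hz' hc hC h m st0 hI
  have h2 : d3_P (sp k) z c C st0.pos (st0.ph k) (st0.wc k) ≤ 2 * sp k * C 0 := by
    have h3 : d3_X (sp k) z 0 false = sp k := by
      simp only [d3_X, Bool.false_eq_true, if_false]
      omega
    have h4 : d3_P (sp k) z c C st0.pos (st0.ph k) (st0.wc k) =
        c 0 * (2 * (sp k : ℝ)) + 2 * sp k * C 1 := by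
      show c 0 * (2 * (d3_X (sp k) z 0 false : ℝ)) + 2 * (sp k : ℝ) * C (0 + 1) = _
      rw [h3]
    rw [h4]
    have h5 : (0 : ℝ) < sp k := by exact_mod_cast hL
    have h6 := mul_le_mul_of_nonneg_left (h 0) (by positivity : (0 : ℝ) ≤ 2 * sp k)
    rw [zero_add] at h6
    linarith
  have hM' : (0 : ℝ) < M := by exact_mod_cast hM
  have h7 := h1.trans h2
  rw [div_mul_eq_mul_div, div_le_iff₀ (by positivity)] at h7
  rw [div_mul_eq_mul_div, le_div_iff₀ hM']
  linarith

end Pool.Agent.H34.SW
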