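import Pool.Agent.H34.SW.X2
import Pool.Agent.H34.SW.C2
import Pool.Agent.H34.SW.D1
import Pool.Agent.H34.SW.D2
import Pool.Agent.H34.SW.D3

/-!
D4: expected numbers. `Pr_n (Cos i) ≤ Ex_n (1(pos = 0) 1(E_l = 0 for l ∈ [i, i+4)))` (`cos_E`)
`≤ 2 Ex_n (1(pos = 0) ∏ cc (T_l))` (`coin`) `≤ 2 Ex_n (1(pos = 0) / (3 wc + 1)^2)` (`cc_prod`), then
`ex_slots` and `pot` with `k = i + 4`, `z = 0`, `c w = 1/(3w+1)^2`, `C w = (4/3)/(3w+1)`; for `p1W`
`c w = 1(W ≤ w)/(3w+1)^2`, `C w = (4/3)/(3 max w W + 1)`; for `p1V` `ex_visits` and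
`c w = 1(w < W)`, `C w = W - w` (truncated), `z = 2^i`.
-/

namespace Pool.Agent.H34.SW

open Pool.Agent.H34.LS Filter

variable {M : ℕ}

private theorem d4_num (w : ℕ) :
    1 / (3 * (w : ℝ) + 1) ^ 2 + 4 / 3 / (3 * ((w + 1 : ℕ) : ℝ) + 1) ≤ 4 / 3 / (3 * (w : ℝ) + 1) := by
  have hw : (0 : ℝ) ≤ w := Nat.cast_nonneg w
  have h1 : (0 : ℝ) < 3 * (w : ℝ) + 1 := by positivity
  have h2 : (0 : ℝ) < 3 * ((w : ℝ) + 1) + 1 := by positivity
  push_cast
  rw [← sub_nonneg]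
  have h3 : 4 / 3 / (3 * (w : ℝ) + 1) - (1 / (3 * (w : ℝ) + 1) ^ 2 +
      4 / 3 / (3 * ((w : ℝ) + 1) + 1)) =
      (9 * (w : ℝ)) / ((3 * (w : ℝ) + 1) ^ 2 * (3 * ((w : ℝ) + 1) + 1)) := by
    field_simp
    ring
  rw [h3]
  positivity

open Classical in
private theorem d4_one (i n W : ℕ) :
    Ex M n (fun w => if Cos i (run st0 w) ∧ W ≤ (run st0 w).wc (i + 4) then 1 else 0) ≤
      2 * Ex M n (fun w => if (run st0 w).pos = 0 then
        (if W ≤ (run st0 w).wc (i + 4) then 1 / (3 * ((run st0 w).wc (i + 4) : ℝ) + 1) ^ 2 else 0)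
        else 0) := by
  set φ : St → ℝ := fun s => if s.pos = 0 ∧ W ≤ s.wc (i + 4) then 1 else 0 with hφd
  have hφ : Blind φ := by
    intro s s' h1 _ _ _ h5
    simp only [hφd, h1, h5]
  have hφ0 : ∀ s, 0 ≤ φ s := by
    intro s
    simp only [hφd]
    split_ifs <;> norm_num
  refine (le_trans ?_ (coin (M := M) n (Finset.Ico i (i + 4)) hφ hφ0)).trans ?_
  · refine ex_mono n fun w _ => ?_
    by_cases hc : Cos i (run st0 w) ∧ W ≤ (run st0 w).wc (i + 4)
    · have h2 : ∀ l ∈ Finset.Ico i (i + 4), (run st0 w).E l = 0 := fun l hl =>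
        cos_E hc.1 l (Finset.mem_Ico.1 hl).1
      rw [if_pos hc, if_pos h2]
      simp only [hφd]
      rw [if_pos ⟨hc.1.1, hc.2⟩]
    · rw [if_neg hc]
      split_ifs
      · exact hφ0 _
      · exact le_rfl
  refine mul_le_mul_of_nonneg_left (ex_mono n fun w _ => ?_) (by norm_num)
  simp only [hφd]
  by_cases hp : (run st0 w).pos = 0
  · by_cases hW : W ≤ (run st0 w).wc (i + 4)
    · rw [if_pos ⟨hp, hW⟩, if_pos hp, if_pos hW, one_mul]
      exact cc_prod i w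
    · rw [if_neg (fun h => hW h.2), if_pos hp, if_neg hW, zero_mul]
  · rw [if_neg (fun h => hp h.1), if_neg hp, zero_mul]

theorem p1W (hM : 1 ≤ M) (i m W : ℕ) :
    Ex M m (fun w => (slots (fun s => Cos i s ∧ W ≤ s.wc (i + 4)) st0 w : ℝ)) ≤
      Ai M i / (3 * W + 1) := by
  classical
  have hM0 : (0 : ℝ) < M := by exact_mod_cast hM
  rw [ex_slots]
  have h1 := pot hM (k := i + 4) (by omega) (z := 0) le_rfl
    (by show (0 : ℤ) ≤ 2 ^ (i + 3); positivity)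
    (c := fun w => if W ≤ w then 1 / (3 * (w : ℝ) + 1) ^ 2 else 0)
    (C := fun w => 4 / 3 / (3 * ((max w W : ℕ) : ℝ) + 1))
    (fun w => by
      show (0 : ℝ) ≤ if W ≤ w then 1 / (3 * (w : ℝ) + 1) ^ 2 else 0
      split_ifs
      · positivity
      · exact le_rfl)
    (fun w => by
      show (0 : ℝ) ≤ 4 / 3 / (3 * ((max w W : ℕ) : ℝ) + 1)
      positivity)
    (fun w => by
      show (if W ≤ w then 1 / (3 * (w : ℝ) + 1) ^ 2 else 0) +
        4 / 3 / (3 * ((max (w + 1) W : ℕ) : ℝ) + 1) ≤ 4 / 3 / (3 * ((max w W : ℕ) : ℝ) + 1)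
      by_cases hw : W ≤ w
      · rw [if_pos hw, max_eq_left hw, max_eq_left (by omega)]
        exact d4_num w
      · rw [if_neg hw, max_eq_right (by omega), max_eq_right (by omega), zero_add])
    m
  refine le_trans (mul_le_mul_of_nonneg_left (Finset.sum_le_sum fun n _ =>
    le_trans (ex_mono n fun w _ => le_of_eq ?_) (d4_one i n W))
      (by positivity : (0 : ℝ) ≤ 1 / ((M : ℝ) + 1))) ?_
  · by_cases hc : Cos i (run st0 w) ∧ W ≤ (run st0 w).wc (i + 4)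
    · rw [if_pos hc, if_pos hc]
    · rw [if_neg hc, if_neg hc]
  rw [← Finset.mul_sum]
  refine (mul_le_mul_of_nonneg_left (mul_le_mul_of_nonneg_left h1 (by norm_num : (0 : ℝ) ≤ 2))
    (by positivity : (0 : ℝ) ≤ 1 / ((M : ℝ) + 1))).trans (le_of_eq ?_)
  have h3 : ((sp (i + 4) : ℤ) : ℝ) = 2 ^ (i + 3) := by
    show (((2 : ℤ) ^ (i + 3) : ℤ) : ℝ) = 2 ^ (i + 3)
    push_cast
    rfl
  have h4 : (0 : ℝ) < 3 * (W : ℝ) + 1 := by positivity
  rw [h3, Nat.zero_max, Ai]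
  field_simp
  ring

theorem p1 (hM : 1 ≤ M) (i m : ℕ) :
    Ex M m (fun w => (slots (Cos i) st0 w : ℝ)) ≤ Ai M i := by
  have h1 := p1W hM i m 0
  rw [Nat.cast_zero, mul_zero, zero_add, div_one] at h1
  refine (ex_mono m fun w _ => ?_).trans h1
  exact_mod_cast slots_mono (φ := Cos i) (ψ := fun s => Cos i s ∧ 0 ≤ s.wc (i + 4))
    (fun s hs => ⟨hs, Nat.zero_le _⟩) st0 w

theorem p1V (hM : 1 ≤ M) {i k : ℕ} (hik : i < k) (m W : ℕ) :
    Ex M m (fun w => (visits (fun s => s.pos = 2 ^ i ∧ s.wc k < W) st0 w : ℝ)) ≤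
      ((M : ℝ) + 1) / M * (2 * sp k * W) := by
  classical
  obtain ⟨j, rfl⟩ : ∃ j, k = j + 1 := ⟨k - 1, by omega⟩
  have h1 := pot hM (k := j + 1) (by omega) (z := 2 ^ i) (by positivity)
    (by
      show (2 : ℤ) ^ i ≤ 2 ^ j
      exact pow_le_pow_right₀ (by norm_num) (by omega))
    (c := fun w => if w < W then 1 else 0)
    (C := fun w => ((W - w : ℕ) : ℝ))
    (fun w => by
      show (0 : ℝ) ≤ if w < W then 1 else 0
      split_ifs <;> norm_num)
    (fun w => Nat.cast_nonneg _)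
    (fun w => by
      show (if w < W then (1 : ℝ) else 0) + ((W - (w + 1) : ℕ) : ℝ) ≤ ((W - w : ℕ) : ℝ)
      by_cases hw : w < W
      · rw [if_pos hw]
        have h2 : W - w = (W - (w + 1)) + 1 := by omega
        rw [h2]
        push_cast
        linarith
      · rw [if_neg hw, zero_add]
        exact_mod_cast (by omega : W - (w + 1) ≤ W - w))
    (m + 1)
  rw [ex_visits]
  rw [Finset.sum_range_succ'] at h1
  have h2 : 0 ≤ Ex M 0 (fun w => if (run st0 w).pos = 2 ^ i then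
      (fun w => if w < W then (1 : ℝ) else 0) ((run st0 w).wc (j + 1)) else 0) :=
    ex_nonneg 0 fun w => by
      show (0 : ℝ) ≤ if (run st0 w).pos = 2 ^ i then
        (if (run st0 w).wc (j + 1) < W then (1 : ℝ) else 0) else 0
      split_ifs <;> norm_num
  refine le_trans (Finset.sum_le_sum fun n _ => ex_mono (n + 1) fun w _ => ?_)
    ((le_add_of_nonneg_right h2).trans (h1.trans (le_of_eq ?_)))
  · show _ ≤ if (run st0 w).pos = 2 ^ i then
      (if (run st0 w).wc (j + 1) < W then (1 : ℝ) else 0) else 0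
    by_cases ha : (run st0 w).pos = 2 ^ i <;> by_cases hb : (run st0 w).wc (j + 1) < W <;>
      simp [ha, hb]
  · rw [Nat.sub_zero]

end Pool.Agent.H34.SW
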