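import Pool.Agent.H34.SW.X2
import Pool.Agent.H34.SW.C3
import Pool.Agent.H34.SW.D4

/-!
D5: exponential moment of the number of slots in coset `i`. Strong induction on `m`. Let
`Z_m(st) = Ex m ((1+x)^(slots (Cos i) st w))`, `S_m(st) = Ex m (slots (Cos i) st w)`. Suppose
`Z_m'(st0) ≤ 2` for all `m' < m`; by `slots_cos` `Z_m'(st) ≤ 2` for `st` in coset `i`. Then by induction on
`m' ≤ m`, for all `st`: `Z_m'(st) ≤ 1 + 2 x S_m'(st)`: the first letter is a slot in coset `i`:
`(1+x) Z = Z + x Z ≤ Z + 2x`. Finally `Z_m(st0) ≤ 1 + 2 x Ai ≤ 2`.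
-/

namespace Pool.Agent.H34.SW

open Pool.Agent.H34.LS Filter

variable {M : ℕ}

private theorem d5_step (i m : ℕ) {x : ℝ} (hx : 0 < x)
    (ih : ∀ m' < m, Ex M m' (fun w => (1 + x) ^ (slots (Cos i) st0 w)) ≤ 2) :
    ∀ m' ≤ m, ∀ st : St, Ex M m' (fun w => (1 + x) ^ (slots (Cos i) st w)) ≤
      1 + 2 * x * Ex M m' (fun w => (slots (Cos i) st w : ℝ)) := by
  classical
  intro m'
  induction m' with
  | zero =>
    intro _ st
    change (1 + x) ^ (slots (Cos i) st ([] : List (Lt M))) ≤
      1 + 2 * x * ((slots (Cos i) st ([] : List (Lt M)) : ℕ) : ℝ)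
    rw [slots, pow_zero, Nat.cast_zero, mul_zero, add_zero]
  | succ k ihk =>
    intro hk st
    change av (fun l => Ex M k (fun w => (1 + x) ^ (slots (Cos i) st (l :: w)))) ≤
      1 + 2 * x * av (fun l => Ex M k (fun w => (slots (Cos i) st (l :: w) : ℝ)))
    rw [← av_mul]
    conv_rhs => rw [← av_const (M := M) (1 : ℝ)]
    rw [← av_add]
    refine av_mono fun l => ?_
    by_cases h : l.1 = 0 ∧ Cos i st
    · have hst : step st l = st := by
        rw [step, if_pos h.1]
      have h1 : ∀ w : List (Lt M), slots (Cos i) st (l :: w) = 1 + slots (Cos i) st w := by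
        intro w
        rw [slots, if_pos h, hst]
      have h2 : Ex M k (fun w => (1 + x) ^ (slots (Cos i) st (l :: w))) =
          (1 + x) * Ex M k (fun w => (1 + x) ^ (slots (Cos i) st w)) := by
        rw [← ex_mul]
        congr 1
        funext w
        rw [h1, pow_add, pow_one]
      have h3 : Ex M k (fun w => (slots (Cos i) st (l :: w) : ℝ)) =
          1 + Ex M k (fun w => (slots (Cos i) st w : ℝ)) := by
        conv_rhs => rw [← ex_const (M := M) k (1 : ℝ)]
        rw [← ex_add]
        congr 1
        funext w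
        rw [h1]
        push_cast
        ring
      have h4 : Ex M k (fun w => (1 + x) ^ (slots (Cos i) st w)) ≤ 2 := by
        have h5 : Ex M k (fun w => (1 + x) ^ (slots (Cos i) st w)) =
            Ex M k (fun w => (1 + x) ^ (slots (Cos i) st0 w)) := by
          congr 1
          funext w
          rw [slots_cos h.2]
        rw [h5]
        exact ih k (by omega)
      have h6 := ihk (by omega) st
      rw [h2, h3]
      nlinarith
    · have h1 : ∀ w : List (Lt M), slots (Cos i) st (l :: w) = slots (Cos i) (step st l) w := by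
        intro w
        rw [slots, if_neg h, zero_add]
      simp only [h1]
      exact ihk (by omega) (step st l)

theorem p2 (hM : 1 ≤ M) (i m : ℕ) {x : ℝ} (hx : 0 < x) (hx' : 2 * x * Ai M i ≤ 1) :
    Ex M m (fun w => (1 + x) ^ (slots (Cos i) st0 w)) ≤ 2 := by
  induction m using Nat.strong_induction_on with
  | _ m ih =>
    have h1 := d5_step (M := M) i m hx ih m le_rfl st0
    have h2 := p1 hM i m
    have h3 : 2 * x * Ex M m (fun w => (slots (Cos i) st0 w : ℝ)) ≤ 2 * x * Ai M i :=
      mul_le_mul_of_nonneg_left h2 (by positivity)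
    linarith

end Pool.Agent.H34.SW
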