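import Pool.Agent.H34.LS.V0

/-!
# Sharpness of the window growth criterion: definitions

`WW`: the ambient group (functions `ℤ → Perm (K × K)` and a position), `K` an algebraic closure of
`F_2`. `Lt M`: letters of the random walk (slots and moves with coins), `Ex`: expectation over
words, `St`: the walk seen from the lamp at `0`, `slots`, `visits`: counting functionals.
-/

namespace Pool.Agent.H34.SW

open Pool.Agent.H34.LS

/-- an algebraic closure of the field with two elements. -/
abbrev K : Type := AlgebraicClosure (ZMod 2)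

/-! ### The ambient group -/

/-- a configuration of affine maps and a position. -/
@[ext] structure WW where
  lamp : ℤ → Equiv.Perm (K × K)
  pos : ℤ

/-- translation by `(1, 1)`. -/
noncomputable def tau : Equiv.Perm (K × K) := Equiv.addRight ((1 : K), (1 : K))

/-- the swap. -/
noncomputable def sw : Equiv.Perm (K × K) := Equiv.prodComm K K

/-- the involution `(x, y) ↦ (u⁻¹ y, u x)`. -/
noncomputable def rr (u : Kˣ) : Equiv.Perm (K × K) where
  toFun v := ((u⁻¹ : Kˣ) * v.2, (u : K) * v.1)
  invFun v := ((u⁻¹ : Kˣ) * v.2, (u : K) * v.1)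
  left_inv v := by simp
  right_inv v := by simp

/-- the affine map `v ↦ (swap if s) (u x, u⁻¹ y) + p`. -/
noncomputable def aff (s : Bool) (u : Kˣ) (p : K × K) : K × K → K × K := fun v =>
  (if s then ((u : K) * v.2, ((u⁻¹ : Kˣ) : K) * v.1) else ((u : K) * v.1, ((u⁻¹ : Kˣ) : K) * v.2)) + p

/-- exponent of `2`. -/
def lg (y : ℤ) : ℕ := Nat.log 2 y.toNat

noncomputable def gt : WW := ⟨fun _ => 1, 1⟩
noncomputable def ga : WW := ⟨fun z => if z = 0 then tau else 1, 0⟩
noncomputable def gb : WW := ⟨fun z => if z = 0 then sw else 1, 0⟩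
/-- the lamp at `-2^j` is `rr (θ j)`. -/
noncomputable def gc (θ : ℕ → Kˣ) : WW :=
  ⟨fun z => if -z = 2 ^ lg (-z) then rr (θ (lg (-z))) else 1, 0⟩

/-! ### Letters and words -/

/-- Letters: first component `0` is a slot; otherwise the letter is a move in the direction of the
third component, with coins for `b`, `c` before and after. -/
abbrev Lt (M : ℕ) : Type := Fin (M + 1) × (Bool × Bool) × Bool × (Bool × Bool)

/-- average over the letters. -/
noncomputable def av {M : ℕ} (F : Lt M → ℝ) : ℝ := (∑ l, F l) / (32 * ((M : ℝ) + 1))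

/-- expectation over words of length `n`. -/
noncomputable def Ex (M : ℕ) : ℕ → (List (Lt M) → ℝ) → ℝ
  | 0, F => F []
  | n + 1, F => av (fun l => Ex M n (fun w => F (l :: w)))

/-- probability of an event. -/
noncomputable def Pr (M : ℕ) (n : ℕ) (A : List (Lt M) → Prop) : ℝ :=
  open Classical in Ex M n (fun w => if A w then 1 else 0)

/-! ### The walk seen from the lamp at `0` -/

/-- special points: `sp 0 = 0`, `sp (j+1) = 2^j`. -/
def sp : ℕ → ℤ
  | 0 => 0
  | j + 1 => 2 ^ j

/-- index of a special point. -/
def ki (y : ℤ) : Option ℕ :=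
  if y = 0 then some 0 else if y = 2 ^ lg y then some (lg y + 1) else none

/-- The state: position, sign (`fl`), exponents; and (auxiliary) the index `r` of the last special
point, signed and unsigned numbers of traversals `E l`, `T l` of the interval from `sp l` to
`sp (l+1)`, and for each `k` the phase and the number of completed cycles `0 → sp k → 0`. -/
@[ext] structure St where
  pos : ℤ
  fl : Bool
  e : ℕ →₀ ℤ
  r : ℕ
  E : ℕ → ℤ
  T : ℕ → ℕ
  ph : ℕ → Bool
  wc : ℕ → ℕ

/-- the sign. -/
def sg (b : Bool) : ℤ := if b then -1 else 1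

/-- `b^q.1 c^q.2` is applied at the current position. -/
noncomputable def hit (q : Bool × Bool) (st : St) : St :=
  match ki st.pos with
  | none => st
  | some 0 => { st with fl := xor st.fl q.1 }
  | some (j + 1) =>
      if q.2 then { st with fl := !st.fl, e := st.e + Finsupp.single j (-sg st.fl) } else st

/-- a step up or down. -/
def arrive (up : Bool) (st : St) : St :=
  match ki (if up then st.pos + 1 else st.pos - 1) with
  | none => { st with pos := if up then st.pos + 1 else st.pos - 1 }
  | some k =>
    { pos := if up then st.pos + 1 else st.pos - 1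
      fl := st.fl
      e := st.e
      r := k
      E := if k = st.r then st.E else
        Function.update st.E (min k st.r)
          (st.E (min k st.r) + (if st.r < k then 1 else -1) * sg st.fl)
      T := if k = st.r then st.T else
        Function.update st.T (min k st.r) (st.T (min k st.r) + 1)
      ph := fun i => if st.ph i then decide (k ≠ 0) else decide (k = i)
      wc := fun i => if st.ph i ∧ k = 0 then st.wc i + 1 else st.wc i }

/-- one letter. -/
noncomputable def step {M : ℕ} (st : St) (l : Lt M) : St :=
  if l.1 = 0 then st else hit l.2.2.2 (arrive l.2.2.1 (hit l.2.1 st))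

/-- a word. -/
noncomputable def run {M : ℕ} (st : St) (w : List (Lt M)) : St := w.foldl step st

/-- the initial state. -/
noncomputable def st0 : St := ⟨0, false, 0, 0, 0, 0, fun _ => false, 0⟩

/-- the exponents at the slots at position `0`. -/
noncomputable def SE {M : ℕ} (st : St) : List (Lt M) → Finset (ℕ →₀ ℤ)
  | [] => ∅
  | l :: w => open Classical in
      (if l.1 = 0 ∧ st.pos = 0 then {st.e} else ∅) ∪ SE (step st l) w

/-- number of slots at states satisfying `φ`. -/
noncomputable def slots {M : ℕ} (φ : St → Prop) (st : St) : List (Lt M) → ℕ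
  | [] => 0
  | l :: w => open Classical in
      (if l.1 = 0 ∧ φ st then 1 else 0) + slots φ (step st l) w

/-- number of times `≥ 1` at which the state satisfies `φ`. -/
noncomputable def visits {M : ℕ} (φ : St → Prop) (st : St) : List (Lt M) → ℕ
  | [] => 0
  | l :: w => open Classical in
      (if φ (step st l) then 1 else 0) + visits φ (step st l) w

/-- coset `i`: position `0` and all exponents of index `≥ i` vanish. -/
def Cos (i : ℕ) (st : St) : Prop := st.pos = 0 ∧ ∀ j, i ≤ j → st.e j = 0

/-! ### Exponents and relations -/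

/-- the value of an exponent vector. -/
noncomputable def th (θ : ℕ → Kˣ) (e : ℕ →₀ ℤ) : K := ((e.prod (fun j k => θ j ^ k) : Kˣ) : K)

/-- the support of the lamp at `0` is not free. -/
def Dep {M : ℕ} (θ : ℕ → Kˣ) (w : List (Lt M)) : Prop :=
  ∃ T ⊆ SE st0 w, ∑ e ∈ T, th θ e = 1

/-- a relation at level `i`. -/
def Rl {M : ℕ} (θ : ℕ → Kˣ) (i : ℕ) (w : List (Lt M)) : Prop :=
  ∃ T ⊆ SE st0 w, (∀ e ∈ T, ∀ j, i + 1 ≤ j → e j = 0) ∧ ∑ e ∈ T, th θ e = 1 ∧
    ∑ e ∈ T with e i = 0, th θ e ≠ 1

/-! ### Numerical constants -/

/-- maximal probability of a value of a sum of `T` fair signs. -/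
noncomputable def cc (T : ℕ) : ℝ := (T.choose (T / 2) : ℝ) / 2 ^ T

/-- bound for the expected number of slots in coset `i`. -/
noncomputable def Ai (M i : ℕ) : ℝ := 16 / 3 * 2 ^ (i + 3) / M

/-- `2`-logarithm of the degree of the `i`-th field. -/
def dd (s D0 i : ℕ) : ℕ := max D0 (i + Nat.log 2 (Nat.log 2 (i + 4)) - s)

/-- degree of the `i`-th field. -/
def Dd (s D0 i : ℕ) : ℕ := 2 ^ dd s D0 i

/-- first part of the bound (tends to zero as `M → ∞`). -/
noncomputable def dl1 (M i N W : ℕ) : ℝ :=
  2 * ((1 + 1 / (2 * Ai M (i + 1))) ^ N)⁻¹ + Ai M (i + 1) / (3 * W + 1)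

/-- second part of the bound. -/
noncomputable def dl2 (M i N W R U : ℕ) : ℝ :=
  ((M : ℝ) + 1) / M * (2 * sp (i + 5) * W) / R + 2 ^ N * (4 * R) / U

/-- bound for the probability of a relation at level `i`; `N`: number of slots, `W`: number of
cycles, `R`: number of visits, `U`: number of choices. -/
noncomputable def dl (M i N W R U : ℕ) : ℝ := dl1 M i N W + dl2 M i N W R U

/-- a function of the state that does not see the coins. -/
def Blind (φ : St → ℝ) : Prop :=
  ∀ s s' : St, s.pos = s'.pos → s.r = s'.r → s.T = s'.T → s.ph = s'.ph → s.wc = s'.wc → φ s = φ s'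

/-! ### The measure -/

section

variable {G : Type} [Group G]

/-- `b^q.1 c^q.2`. -/
def bc (b c : G) (q : Bool × Bool) : G := (if q.1 then b else 1) * (if q.2 then c else 1)

/-- the group element of a moving letter. -/
def gl {M : ℕ} (t b c : G) (l : Lt M) : G :=
  bc b c l.2.1 * (if l.2.2.1 then t else t⁻¹) * bc b c l.2.2.2

/-- the measure of a letter. -/
noncomputable def ml {M : ℕ} (t a b c : G) (l : Lt M) : G →₀ ℝ :=
  if l.1 = 0 then Finsupp.single 1 (1 / 2) + Finsupp.single a (1 / 2)
  else Finsupp.single (gl t b c l) 1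

/-- the measure of a word. -/
noncomputable def mw {M : ℕ} (t a b c : G) : List (Lt M) → (G →₀ ℝ)
  | [] => Finsupp.single 1 1
  | l :: w => bnd (ml t a b c l) (fun g => tl g (mw t a b c w))

/-- the step distribution. -/
noncomputable def PP (M : ℕ) (t a b c : G) : G →₀ ℝ :=
  (1 / (32 * ((M : ℝ) + 1))) • ∑ l : Lt M, ml t a b c l

end

end Pool.Agent.H34.SW
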