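import Pool.Agent.H34.SW.Defs

/-!
F0: roots of a Laurent polynomial. Multiply by `X^(2R)`: the polynomial
`∑ m ∈ s, C (v m) * X^(m + 2R) - X^(2R)` has degree at most `4 R` and its coefficient at `2 R` is
`v 0 - 1` (or `-1` if `0 ∉ s`), non-zero. Roots: `Polynomial.card_roots'`.
-/

namespace Pool.Agent.H34.SW

open Pool.Agent.H34.LS Filter

open Classical in
theorem laurent_roots (s : Finset ℤ) (R : ℕ) (hs : ∀ m ∈ s, |m| ≤ 2 * (R : ℤ)) (v : ℤ → K)
    (hv : (if (0 : ℤ) ∈ s then v 0 else 0) ≠ 1) (U : Finset Kˣ) :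
    (U.filter (fun u => ∑ m ∈ s, v m * ((u ^ m : Kˣ) : K) = 1)).card ≤ 4 * R := by
  set P : Polynomial K :=
    (∑ m ∈ s, Polynomial.C (v m) * Polynomial.X ^ (m + 2 * (R : ℤ)).toNat) -
      Polynomial.X ^ (2 * R) with hP
  have hdeg : P.natDegree ≤ 4 * R := by
    rw [hP]
    refine (Polynomial.natDegree_sub_le _ _).trans (max_le ?_ ?_)
    · refine Polynomial.natDegree_sum_le_of_forall_le s _ (fun m hm => ?_)
      refine (Polynomial.natDegree_C_mul_X_pow_le _ _).trans ?_
      have h1 := abs_le.1 (hs m hm)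
      omega
    · rw [Polynomial.natDegree_X_pow]
      omega
  have hcoeff : P.coeff (2 * R) ≠ 0 := by
    rw [hP, Polynomial.coeff_sub, Polynomial.finset_sum_coeff, Polynomial.coeff_X_pow]
    simp only [if_true]
    have h1 : ∑ m ∈ s, (Polynomial.C (v m) * Polynomial.X ^ (m + 2 * (R : ℤ)).toNat).coeff (2 * R)
        = if (0 : ℤ) ∈ s then v 0 else 0 := by
      rw [← Finset.sum_ite_eq s (0 : ℤ) v]
      refine Finset.sum_congr rfl (fun m hm => ?_)
      rw [Polynomial.coeff_C_mul_X_pow]
      have h2 := abs_le.1 (hs m hm)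
      have h3 : (2 * R = (m + 2 * (R : ℤ)).toNat) ↔ (0 : ℤ) = m := by omega
      simp only [h3]
    rw [h1]
    exact sub_ne_zero.2 hv
  have hP0 : P ≠ 0 := by
    intro h
    rw [h, Polynomial.coeff_zero] at hcoeff
    exact hcoeff rfl
  have hcard : (U.filter (fun u => ∑ m ∈ s, v m * ((u ^ m : Kˣ) : K) = 1)).card
      ≤ P.roots.toFinset.card := by
    refine Finset.card_le_card_of_injOn (fun u : Kˣ => (u : K)) ?_ ?_
    · intro u hu
      rw [Finset.mem_coe, Finset.mem_filter] at hu
      rw [Finset.mem_coe, Multiset.mem_toFinset, Polynomial.mem_roots hP0, Polynomial.IsRoot.def, hP,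
        Polynomial.eval_sub, Polynomial.eval_finset_sum, Polynomial.eval_pow, Polynomial.eval_X,
        sub_eq_zero]
      have h1 : ∑ m ∈ s, Polynomial.eval (u : K)
            (Polynomial.C (v m) * Polynomial.X ^ (m + 2 * (R : ℤ)).toNat)
          = (∑ m ∈ s, v m * ((u ^ m : Kˣ) : K)) * (u : K) ^ (2 * R) := by
        rw [Finset.sum_mul]
        refine Finset.sum_congr rfl (fun m hm => ?_)
        rw [Polynomial.eval_mul, Polynomial.eval_C, Polynomial.eval_pow, Polynomial.eval_X, mul_assoc]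
        congr 1
        have h2 := abs_le.1 (hs m hm)
        have h3 : u ^ (m + 2 * (R : ℤ)).toNat = u ^ m * u ^ (2 * R) := by
          rw [← zpow_natCast u (m + 2 * (R : ℤ)).toNat, ← zpow_natCast u (2 * R), ← zpow_add]
          congr 1
          omega
        have h4 := congrArg (fun w : Kˣ => (w : K)) h3
        simpa only [Units.val_mul, Units.val_pow_eq_pow_val] using h4
      rw [h1, hu.2, one_mul]
    · intro u _ w _ h
      exact Units.ext h
  calc _ ≤ P.roots.toFinset.card := hcard
    _ ≤ Multiset.card P.roots := Multiset.toFinset_card_le _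
    _ ≤ P.natDegree := Polynomial.card_roots' P
    _ ≤ 4 * R := hdeg

end Pool.Agent.H34.SW
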