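import Pool.Agent.H34.SW.C4
import Pool.Agent.H34.SW.F0

/-!
F1: counting the bad `u`. Fix `w`. `Rl (update θ i u) i w` gives `T` (at most `2 ^ N` possibilities, all
contained in the set `V` of elements of `SE st0 w` in coset `i+1`, `V.card < N` by `card_le`),
and for each `T` the element `u` is a root of the Laurent polynomial
`∑_m u_m X^m - 1`, `u_m = ∑ e ∈ T with e i = m, th θ (e.erase i)`, `|m| ≤ 2 R` (`exp_le`), whose constant
coefficient `u_0 - 1` is non-zero (`u_0 = ∑ e ∈ T with e i = 0, th θ e` does not depend on `u`):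
`laurent_roots`.
-/

namespace Pool.Agent.H34.SW

open Pool.Agent.H34.LS Filter

variable {M : ℕ}

private theorem f1_th (θ : ℕ → Kˣ) (i : ℕ) (u : Kˣ) (e : ℕ →₀ ℤ) :
    th (Function.update θ i u) e = th θ (e.erase i) * ((u ^ (e i) : Kˣ) : K) := by
  unfold th
  rw [← Units.val_mul]
  have key : (e.prod fun j k => Function.update θ i u j ^ k)
      = ((e.erase i).prod fun j k => θ j ^ k) * u ^ (e i) := by
    have h1 : (Finsupp.single i (e i) + e.erase i).prod (fun j k => Function.update θ i u j ^ k)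
        = (Finsupp.single i (e i)).prod (fun j k => Function.update θ i u j ^ k)
          * (e.erase i).prod (fun j k => Function.update θ i u j ^ k) :=
      Finsupp.prod_add_index' (fun j => zpow_zero _) (fun j a b => zpow_add _ a b)
    rw [Finsupp.single_add_erase] at h1
    rw [h1, Finsupp.prod_single_index (zpow_zero _), Function.update_self, mul_comm]
    refine (mul_left_inj _).2 ?_
    refine Finsupp.prod_congr ?_
    intro j hj
    have hji : j ≠ i := by
      intro h
      subst h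
      rw [Finsupp.mem_support_iff, Finsupp.erase_same] at hj
      exact hj rfl
    rw [Function.update_of_ne hji]
  rw [key]

/-- the coefficients of the Laurent polynomial of `T`. -/
private noncomputable def f1_v (θ : ℕ → Kˣ) (i : ℕ) (T : Finset (ℕ →₀ ℤ)) (m : ℤ) : K :=
  ∑ e ∈ T with e i = m, th θ (e.erase i)

private theorem f1_sum (θ : ℕ → Kˣ) (i : ℕ) (u : Kˣ) (T : Finset (ℕ →₀ ℤ)) :
    ∑ e ∈ T, th (Function.update θ i u) e
      = ∑ m ∈ T.image (fun e => e i), f1_v θ i T m * ((u ^ m : Kˣ) : K) := by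
  rw [← Finset.sum_fiberwise_of_maps_to (s := T) (t := T.image (fun e => e i))
    (g := fun e => e i) (fun e he => Finset.mem_image_of_mem _ he)]
  refine Finset.sum_congr rfl (fun m _ => ?_)
  unfold f1_v
  rw [Finset.sum_mul]
  refine Finset.sum_congr rfl (fun e he => ?_)
  rw [f1_th, (Finset.mem_filter.1 he).2]

private theorem f1_zero (θ : ℕ → Kˣ) (i : ℕ) (u : Kˣ) (T : Finset (ℕ →₀ ℤ)) :
    ∑ e ∈ T with e i = 0, th (Function.update θ i u) e = f1_v θ i T 0 := by
  unfold f1_v
  refine Finset.sum_congr rfl (fun e he => ?_)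
  rw [f1_th, (Finset.mem_filter.1 he).2, zpow_zero, Units.val_one, mul_one]

private theorem f1_if (θ : ℕ → Kˣ) (i : ℕ) (T : Finset (ℕ →₀ ℤ)) :
    (if (0 : ℤ) ∈ T.image (fun e => e i) then f1_v θ i T 0 else 0) = f1_v θ i T 0 := by
  by_cases h : (0 : ℤ) ∈ T.image (fun e => e i)
  · rw [if_pos h]
  · rw [if_neg h]
    unfold f1_v
    symm
    have h0 : T.filter (fun e => e i = 0) = ∅ := by
      rw [Finset.filter_eq_empty_iff]
      intro e he h'
      exact h (Finset.mem_image.2 ⟨e, he, h'⟩)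
    rw [h0, Finset.sum_empty]

open Classical in
private theorem f1_one (θ : ℕ → Kˣ) (i R : ℕ) (T : Finset (ℕ →₀ ℤ))
    (hT : ∀ e ∈ T, |e i| ≤ 2 * (R : ℤ)) (U : Finset Kˣ) :
    (U.filter (fun u => ∑ e ∈ T, th (Function.update θ i u) e = 1 ∧
      ∑ e ∈ T with e i = 0, th (Function.update θ i u) e ≠ 1)).card ≤ 4 * R := by
  by_cases hv : f1_v θ i T 0 = 1
  · have h0 : U.filter (fun u => ∑ e ∈ T, th (Function.update θ i u) e = 1 ∧
        ∑ e ∈ T with e i = 0, th (Function.update θ i u) e ≠ 1) = ∅ := by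
      rw [Finset.filter_eq_empty_iff]
      intro u _ h
      exact h.2 ((f1_zero θ i u T).trans hv)
    rw [h0, Finset.card_empty]
    exact Nat.zero_le _
  · have hs : ∀ m ∈ T.image (fun e => e i), |m| ≤ 2 * (R : ℤ) := by
      intro m hm
      obtain ⟨e, he, rfl⟩ := Finset.mem_image.1 hm
      exact hT e he
    have h1 := laurent_roots (T.image (fun e => e i)) R hs (f1_v θ i T)
      (by rw [f1_if]; exact hv) U
    refine (Finset.card_le_card ?_).trans h1
    intro u hu
    rw [Finset.mem_filter] at hu ⊢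
    exact ⟨hu.1, (f1_sum θ i u T).symm.trans hu.2.1⟩

open Classical in
theorem gen (θ : ℕ → Kˣ) (i N W R : ℕ) (w : List (Lt M))
    (h1 : slots (Cos (i + 1)) st0 w < N)
    (h2 : slots (fun s => Cos (i + 1) s ∧ W ≤ s.wc (i + 5)) st0 w = 0)
    (h3 : visits (fun s => s.pos = 2 ^ i ∧ s.wc (i + 5) < W) st0 w < R) (U : Finset Kˣ) :
    (U.filter (fun u => Rl (Function.update θ i u) i w)).card ≤ 2 ^ N * (4 * R) := by
  have hVc : ((SE st0 w).filter (fun e => ∀ j, i + 1 ≤ j → e j = 0)).card < N :=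
    lt_of_le_of_lt (card_le (i + 1) w (Finset.filter_subset _ _)
      (fun e he => (Finset.mem_filter.1 he).2)) h1
  generalize hV : (SE st0 w).filter (fun e => ∀ j, i + 1 ≤ j → e j = 0) = V at hVc
  have hsub : U.filter (fun u => Rl (Function.update θ i u) i w) ⊆
      V.powerset.biUnion (fun T => U.filter (fun u =>
        ∑ e ∈ T, th (Function.update θ i u) e = 1 ∧
          ∑ e ∈ T with e i = 0, th (Function.update θ i u) e ≠ 1)) := by
    intro u hu
    rw [Finset.mem_filter] at hu
    obtain ⟨hu, T, hT, hTc, h, h'⟩ := hu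
    rw [Finset.mem_biUnion]
    refine ⟨T, Finset.mem_powerset.2 (fun e he => ?_), Finset.mem_filter.2 ⟨hu, h, h'⟩⟩
    rw [← hV]
    exact Finset.mem_filter.2 ⟨hT he, hTc e he⟩
  have hone : ∀ T ∈ V.powerset, (U.filter (fun u =>
        ∑ e ∈ T, th (Function.update θ i u) e = 1 ∧
          ∑ e ∈ T with e i = 0, th (Function.update θ i u) e ≠ 1)).card ≤ 4 * R := by
    intro T hT
    refine f1_one θ i R T (fun e he => ?_) U
    have he' : e ∈ (SE st0 w).filter (fun e => ∀ j, i + 1 ≤ j → e j = 0) := by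
      rw [hV]
      exact Finset.mem_powerset.1 hT he
    have h4 := exp_le (i := i) (i' := i + 1) (k := i + 5) (W := W) h2
      (Finset.mem_filter.1 he').1 (Finset.mem_filter.1 he').2
    have h5 : ((visits (fun s => s.pos = 2 ^ i ∧ s.wc (i + 5) < W) st0 w : ℕ) : ℤ) ≤ (R : ℤ) := by
      exact_mod_cast h3.le
    linarith
  calc (U.filter (fun u => Rl (Function.update θ i u) i w)).card
      ≤ _ := Finset.card_le_card hsub
    _ ≤ ∑ T ∈ V.powerset, (U.filter (fun u =>
        ∑ e ∈ T, th (Function.update θ i u) e = 1 ∧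
          ∑ e ∈ T with e i = 0, th (Function.update θ i u) e ≠ 1)).card :=
        Finset.card_biUnion_le
    _ ≤ ∑ T ∈ V.powerset, 4 * R := Finset.sum_le_sum hone
    _ = V.powerset.card * (4 * R) := by rw [Finset.sum_const, smul_eq_mul]
    _ = 2 ^ V.card * (4 * R) := by rw [Finset.card_powerset]
    _ ≤ 2 ^ N * (4 * R) := Nat.mul_le_mul_right _ (Nat.pow_le_pow_right (by norm_num) hVc.le)

end Pool.Agent.H34.SW
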