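import Pool.Agent.H34.SW.F1
import Pool.Agent.H34.SW.D5

/-!
F2: choice of `θ i`. For each `m`, `∑ u ∈ U, Pr m (Rl (update θ i u) i) = Ex m (card of bad u) ≤
U.card * (Pr (N ≤ slots) + Pr (1 ≤ slots') + Pr (R ≤ visits)) + 2^N * (4R)` (`gen`), and the three
probabilities are bounded by `markov` and `p2` (with `x = 1/(2 Ai M (i+1))`,
`N ≤ slots → (1+x)^N ≤ (1+x)^slots`), `p1W`, `p1V` (`k = i+5`). So for each `m` some `u ∈ U` has
`Pr m (Rl ..) ≤ dl ..`; `Pr m (Rl ..)` is nondecreasing in `m` (`se_append`, `ex_back`), `U` is finite, so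
some `u` works for infinitely many `m`, hence for all `m`.
-/

namespace Pool.Agent.H34.SW

open Pool.Agent.H34.LS Filter

variable {M : ℕ}

private theorem f2_rl_append (θ : ℕ → Kˣ) (i : ℕ) {w : List (Lt M)} (w' : List (Lt M))
    (h : Rl θ i w) : Rl θ i (w ++ w') := by
  obtain ⟨T, hT, h1, h2, h3⟩ := h
  exact ⟨T, hT.trans (se_append w w'), h1, h2, h3⟩

open Classical in
private theorem f2_pr_succ (θ : ℕ → Kˣ) (i m : ℕ) :
    Pr M m (Rl θ i) ≤ Pr M (m + 1) (Rl θ i) := by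
  unfold Pr
  rw [ex_back]
  refine ex_mono m (fun w _ => ?_)
  rw [← av_const (M := M) (if Rl θ i w then (1 : ℝ) else 0)]
  refine av_mono (fun l => ?_)
  by_cases h : Rl θ i w
  · rw [if_pos h, if_pos (f2_rl_append θ i [l] h)]
  · rw [if_neg h]
    split_ifs <;> norm_num

theorem pr_rl_mono (θ : ℕ → Kˣ) (i : ℕ) {m m' : ℕ} (h : m ≤ m') :
    Pr M m (Rl θ i) ≤ Pr M m' (Rl θ i) := by
  induction m', h using Nat.le_induction with
  | base => exact le_refl _
  | succ n _ ih => exact ih.trans (f2_pr_succ θ i n)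

private theorem f2_Ai_pos (hM : 1 ≤ M) (i : ℕ) : 0 < Ai M i := by
  unfold Ai
  have : (0 : ℝ) < M := by exact_mod_cast hM
  positivity

/-- first probability. -/
private theorem f2_a (hM : 1 ≤ M) (i N m : ℕ) :
    Pr M m (fun w => N ≤ slots (Cos (i + 1)) st0 w) ≤
      2 * ((1 + 1 / (2 * Ai M (i + 1))) ^ N)⁻¹ := by
  have hA := f2_Ai_pos hM (i + 1)
  set x : ℝ := 1 / (2 * Ai M (i + 1)) with hx
  have hx0 : 0 < x := by rw [hx]; positivity
  have hx1 : 2 * x * Ai M (i + 1) ≤ 1 := by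
    rw [hx]
    have : 2 * (1 / (2 * Ai M (i + 1))) * Ai M (i + 1) = 1 := by
      field_simp
    exact this.le
  have h2 := p2 hM (i + 1) m hx0 hx1
  have hpos : 0 < (1 + x) ^ N := by positivity
  have hmk := markov m (F := fun w : List (Lt M) => (1 + x) ^ (slots (Cos (i + 1)) st0 w))
    (fun w => by positivity) hpos
  have hmono : Pr M m (fun w => N ≤ slots (Cos (i + 1)) st0 w) ≤
      Pr M m (fun w => (1 + x) ^ N ≤ (1 + x) ^ (slots (Cos (i + 1)) st0 w)) := by
    refine pr_mono m (fun w _ hw => ?_)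
    exact pow_le_pow_right₀ (by linarith) hw
  calc Pr M m (fun w => N ≤ slots (Cos (i + 1)) st0 w)
      ≤ _ := hmono
    _ ≤ _ := hmk
    _ ≤ 2 / (1 + x) ^ N := div_le_div_of_nonneg_right h2 hpos.le
    _ = 2 * ((1 + x) ^ N)⁻¹ := div_eq_mul_inv _ _

/-- second probability. -/
private theorem f2_b (hM : 1 ≤ M) (i W m : ℕ) :
    Pr M m (fun w => 1 ≤ slots (fun s => Cos (i + 1) s ∧ W ≤ s.wc (i + 5)) st0 w) ≤
      Ai M (i + 1) / (3 * W + 1) := by
  have h := p1W hM (i + 1) m W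
  have hmk := markov m (F := fun w : List (Lt M) =>
    (slots (fun s => Cos (i + 1) s ∧ W ≤ s.wc (i + 5)) st0 w : ℝ))
    (fun w => by positivity) one_pos
  have hmono : Pr M m (fun w => 1 ≤ slots (fun s => Cos (i + 1) s ∧ W ≤ s.wc (i + 5)) st0 w) ≤
      Pr M m (fun w => (1 : ℝ) ≤
        (slots (fun s => Cos (i + 1) s ∧ W ≤ s.wc (i + 5)) st0 w : ℝ)) := by
    refine pr_mono m (fun w _ hw => ?_)
    exact_mod_cast hw
  have e : i + 1 + 4 = i + 5 := by ring
  rw [e] at h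
  rw [div_one] at hmk
  exact hmono.trans (hmk.trans h)

/-- third probability. -/
private theorem f2_c (hM : 1 ≤ M) (i W R m : ℕ) (hR : 1 ≤ R) :
    Pr M m (fun w => R ≤ visits (fun s => s.pos = 2 ^ i ∧ s.wc (i + 5) < W) st0 w) ≤
      ((M : ℝ) + 1) / M * (2 * sp (i + 5) * W) / R := by
  have h := p1V hM (i := i) (k := i + 5) (by omega) m W
  have hRp : (0 : ℝ) < R := by exact_mod_cast hR
  have hmk := markov m (F := fun w : List (Lt M) =>
    (visits (fun s => s.pos = 2 ^ i ∧ s.wc (i + 5) < W) st0 w : ℝ))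
    (fun w => by positivity) hRp
  have hmono : Pr M m (fun w => R ≤ visits (fun s => s.pos = 2 ^ i ∧ s.wc (i + 5) < W) st0 w) ≤
      Pr M m (fun w => (R : ℝ) ≤
        (visits (fun s => s.pos = 2 ^ i ∧ s.wc (i + 5) < W) st0 w : ℝ)) := by
    refine pr_mono m (fun w _ hw => ?_)
    exact_mod_cast hw
  exact hmono.trans (hmk.trans (div_le_div_of_nonneg_right h hRp.le))

open Classical in
/-- pointwise bound. -/
private theorem f2_pt (θ : ℕ → Kˣ) (i N W R : ℕ) (U : Finset Kˣ) (w : List (Lt M)) :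
    ∑ u ∈ U, (if Rl (Function.update θ i u) i w then (1 : ℝ) else 0) ≤
      U.card * ((if N ≤ slots (Cos (i + 1)) st0 w then (1 : ℝ) else 0) +
        ((if 1 ≤ slots (fun s => Cos (i + 1) s ∧ W ≤ s.wc (i + 5)) st0 w then (1 : ℝ) else 0) +
          (if R ≤ visits (fun s => s.pos = 2 ^ i ∧ s.wc (i + 5) < W) st0 w then (1 : ℝ) else 0))) +
      2 ^ N * (4 * R) := by
  have hcard : ∑ u ∈ U, (if Rl (Function.update θ i u) i w then (1 : ℝ) else 0) =
      ((U.filter (fun u => Rl (Function.update θ i u) i w)).card : ℝ) := by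
    rw [Finset.card_filter]
    push_cast
    rfl
  rw [hcard]
  have hU : ((U.filter (fun u => Rl (Function.update θ i u) i w)).card : ℝ) ≤ U.card := by
    exact_mod_cast Finset.card_filter_le _ _
  have hlast : (0 : ℝ) ≤ 2 ^ N * (4 * R) := by positivity
  have hU0 : (0 : ℝ) ≤ U.card := by positivity
  by_cases a1 : N ≤ slots (Cos (i + 1)) st0 w
  · rw [if_pos a1]
    have : (0 : ℝ) ≤ (if 1 ≤ slots (fun s => Cos (i + 1) s ∧ W ≤ s.wc (i + 5)) st0 w
        then (1 : ℝ) else 0) +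
          (if R ≤ visits (fun s => s.pos = 2 ^ i ∧ s.wc (i + 5) < W) st0 w
            then (1 : ℝ) else 0) := by
      split_ifs <;> norm_num
    nlinarith
  by_cases a2 : 1 ≤ slots (fun s => Cos (i + 1) s ∧ W ≤ s.wc (i + 5)) st0 w
  · rw [if_neg a1, if_pos a2]
    have : (0 : ℝ) ≤ (if R ≤ visits (fun s => s.pos = 2 ^ i ∧ s.wc (i + 5) < W) st0 w
            then (1 : ℝ) else 0) := by
      split_ifs <;> norm_num
    nlinarith
  by_cases a3 : R ≤ visits (fun s => s.pos = 2 ^ i ∧ s.wc (i + 5) < W) st0 w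
  · rw [if_neg a1, if_neg a2, if_pos a3]
    nlinarith
  · rw [if_neg a1, if_neg a2, if_neg a3]
    have hg := gen θ i N W R w (not_le.1 a1) (by omega) (not_le.1 a3) U
    have hg' : ((U.filter (fun u => Rl (Function.update θ i u) i w)).card : ℝ) ≤
        2 ^ N * (4 * R) := by
      exact_mod_cast hg
    linarith

private theorem f2_sum (hM : 1 ≤ M) (θ : ℕ → Kˣ) (i N W R : ℕ) (hR : 1 ≤ R) (U : Finset Kˣ)
    (m : ℕ) :
    ∑ u ∈ U, Pr M m (Rl (Function.update θ i u) i) ≤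
      U.card * (2 * ((1 + 1 / (2 * Ai M (i + 1))) ^ N)⁻¹ + (Ai M (i + 1) / (3 * W + 1) +
        ((M : ℝ) + 1) / M * (2 * sp (i + 5) * W) / R)) + 2 ^ N * (4 * R) := by
  have ha := f2_a hM i N m
  have hb := f2_b hM i W m
  have hc := f2_c hM i W R m hR
  have hU0 : (0 : ℝ) ≤ U.card := by positivity
  have h1 : ∑ u ∈ U, Pr M m (Rl (Function.update θ i u) i) ≤
      U.card * (Pr M m (fun w => N ≤ slots (Cos (i + 1)) st0 w) +
        (Pr M m (fun w => 1 ≤ slots (fun s => Cos (i + 1) s ∧ W ≤ s.wc (i + 5)) st0 w) +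
          Pr M m (fun w => R ≤ visits (fun s => s.pos = 2 ^ i ∧ s.wc (i + 5) < W) st0 w))) +
      2 ^ N * (4 * R) := by
    unfold Pr
    rw [← ex_sum, ← ex_add, ← ex_add, ← ex_mul,
      ← ex_const (M := M) m ((2 : ℝ) ^ N * (4 * R)), ← ex_add]
    refine ex_mono m (fun w _ => ?_)
    refine le_trans (le_of_eq ?_) ((f2_pt θ i N W R U w).trans (le_of_eq ?_)) <;> congr!
  have h2 := mul_le_mul_of_nonneg_left (add_le_add ha (add_le_add hb hc)) hU0
  linarith

private theorem f2_one (hM : 1 ≤ M) (θ : ℕ → Kˣ) (i N W R : ℕ) (hR : 1 ≤ R) (U : Finset Kˣ)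
    (hU : U.Nonempty) (m : ℕ) :
    ∃ u ∈ U, Pr M m (Rl (Function.update θ i u) i) ≤ dl M i N W R U.card := by
  refine Finset.exists_le_of_sum_le hU ?_
  have h := f2_sum hM θ i N W R hR U m
  have hc : (0 : ℝ) < U.card := by exact_mod_cast hU.card_pos
  rw [Finset.sum_const, nsmul_eq_mul]
  refine h.trans (le_of_eq ?_)
  unfold dl dl1 dl2
  have : (U.card : ℝ) * (2 ^ N * (4 * R) / U.card) = 2 ^ N * (4 * R) := by
    field_simp
  linear_combination -this

theorem choice (hM : 1 ≤ M) (θ : ℕ → Kˣ) (i N W R : ℕ) (hR : 1 ≤ R) (U : Finset Kˣ)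
    (hU : U.Nonempty) :
    ∃ u ∈ U, ∀ m, Pr M m (Rl (Function.update θ i u) i) ≤ dl M i N W R U.card := by
  by_contra hne
  push Not at hne
  choose f hf using hne
  obtain ⟨u, hu, hle⟩ := f2_one hM θ i N W R hR U hU
    (U.attach.sup (fun u => f u.1 u.2))
  have h1 := hf u hu
  have h2 : f u hu ≤ U.attach.sup (fun u => f u.1 u.2) :=
    Finset.le_sup (f := fun u : {x // x ∈ U} => f u.1 u.2) (Finset.mem_attach U ⟨u, hu⟩)
  have h3 := pr_rl_mono (M := M) (Function.update θ i u) i h2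
  linarith

end Pool.Agent.H34.SW
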