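import Pool.Agent.H34.SW.F2

/-!
F3: successive choice: `Rl θ i w` depends only on `θ j`, `j ≤ i` (`th θ e` for `e` with
`e j = 0`, `j ≥ i+1`). Choose `θ 0, θ 1, ...` successively.
`dep_sub`: descent: a dependence `T ⊆ SE st0 w` is in coset `w.length + 1` (`se_far`); if no `Rl θ i w`
holds, replace `T` by `T.filter (e i = 0)`, `i = w.length, ..., 0`; at the end `T` is contained in `{0}` and
its sum is `1`, so `0 ∈ SE st0 w`, `card_le`.
-/

namespace Pool.Agent.H34.SW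

open Pool.Agent.H34.LS Filter

variable {M : ℕ}

private theorem f3_th_congr {θ θ' : ℕ → Kˣ} {i : ℕ} (h : ∀ j, j ≤ i → θ j = θ' j) {e : ℕ →₀ ℤ}
    (he : ∀ j, i + 1 ≤ j → e j = 0) : th θ e = th θ' e := by
  unfold th
  congr 1
  apply Finsupp.prod_congr
  intro j hj
  have h1 : e j ≠ 0 := Finsupp.mem_support_iff.1 hj
  have h2 : j ≤ i := by
    by_contra hc
    exact h1 (he j (by omega))
  rw [h j h2]

private theorem f3_rl_congr {θ θ' : ℕ → Kˣ} {i : ℕ} (h : ∀ j, j ≤ i → θ j = θ' j)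
    (w : List (Lt M)) (hw : Rl θ i w) : Rl θ' i w := by
  obtain ⟨T, hT, hc, h1, h2⟩ := hw
  refine ⟨T, hT, hc, ?_, ?_⟩
  · rw [← h1]
    exact Finset.sum_congr rfl (fun e he => (f3_th_congr h (hc e he)).symm)
  · intro h3
    apply h2
    rw [← h3]
    exact Finset.sum_congr rfl
      (fun e he => f3_th_congr h (hc e (Finset.mem_filter.1 he).1))

private theorem f3_pr_congr {θ θ' : ℕ → Kˣ} {i : ℕ} (h : ∀ j, j ≤ i → θ j = θ' j) (m : ℕ) :
    Pr M m (Rl θ i) ≤ Pr M m (Rl θ' i) :=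
  pr_mono m (fun w _ => f3_rl_congr h w)

/-- the successive choices. -/
private noncomputable def f3_seq (pick : (ℕ → Kˣ) → ℕ → Kˣ) : ℕ → ℕ → Kˣ
  | 0 => fun _ => 1
  | i + 1 => Function.update (f3_seq pick i) i (pick (f3_seq pick i) i)

private theorem f3_seq_stable (pick : (ℕ → Kˣ) → ℕ → Kˣ) (j d : ℕ) :
    f3_seq pick (j + 1 + d) j = f3_seq pick (j + 1) j := by
  induction d with
  | zero => rfl
  | succ d ih =>
    rw [← ih, ← Nat.add_assoc]
    show Function.update (f3_seq pick (j + 1 + d)) (j + 1 + d) _ j = _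
    rw [Function.update_of_ne]
    omega

theorem choose_all (hM : 1 ≤ M) (N W R : ℕ → ℕ) (hR : ∀ i, 1 ≤ R i) (U : ℕ → Finset Kˣ)
    (hU : ∀ i, (U i).Nonempty) :
    ∃ θ : ℕ → Kˣ, (∀ i, θ i ∈ U i) ∧
      ∀ i m, Pr M m (Rl θ i) ≤ dl M i (N i) (W i) (R i) (U i).card := by
  have h1 : ∀ (θ : ℕ → Kˣ) (i : ℕ), ∃ u ∈ U i, ∀ m, Pr M m (Rl (Function.update θ i u) i) ≤
      dl M i (N i) (W i) (R i) (U i).card :=
    fun θ i => choice hM θ i (N i) (W i) (R i) (hR i) (U i) (hU i)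
  choose pick hpick hpr using h1
  refine ⟨fun i => f3_seq pick (i + 1) i, ?_, ?_⟩
  · intro i
    have h2 : f3_seq pick (i + 1) i = pick (f3_seq pick i) i := by
      show Function.update (f3_seq pick i) i (pick (f3_seq pick i) i) i = _
      rw [Function.update_self]
    show f3_seq pick (i + 1) i ∈ U i
    rw [h2]
    exact hpick _ _
  · intro i m
    refine le_trans (f3_pr_congr (θ' := f3_seq pick (i + 1)) ?_ m) (hpr (f3_seq pick i) i m)
    intro j hj
    obtain ⟨d, hd⟩ := Nat.exists_eq_add_of_le hj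
    have h3 := f3_seq_stable pick j d
    have h4 : j + 1 + d = i + 1 := by omega
    rw [h4] at h3
    exact h3.symm

theorem dep_sub (θ : ℕ → Kˣ) (w : List (Lt M)) (h : Dep θ w) :
    1 ≤ slots (Cos 0) st0 w ∨ ∃ i < w.length + 1, Rl θ i w := by
  by_contra hcon
  push Not at hcon
  obtain ⟨hs, hR⟩ := hcon
  have key : ∀ d n, n + d = w.length + 1 → ∃ T ⊆ SE st0 w,
      (∀ e ∈ T, ∀ j, n ≤ j → e j = 0) ∧ ∑ e ∈ T, th θ e = 1 := by
    intro d
    induction d with
    | zero =>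
      intro n hn
      obtain ⟨T, hT, h1⟩ := h
      refine ⟨T, hT, ?_, h1⟩
      intro e he j hj
      exact se_far (hT he) (by omega)
    | succ d ih =>
      intro n hn
      obtain ⟨T, hT, hc, h1⟩ := ih (n + 1) (by omega)
      have h2 : ∑ e ∈ T with e n = 0, th θ e = 1 := by
        by_contra h3
        exact hR n (by omega) ⟨T, hT, hc, h1, h3⟩
      refine ⟨T.filter (fun e => e n = 0), (Finset.filter_subset _ _).trans hT, ?_, h2⟩
      intro e he j hj
      obtain ⟨he1, he2⟩ := Finset.mem_filter.1 he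
      rcases Nat.eq_or_lt_of_le hj with h4 | h4
      · rw [← h4]
        exact he2
      · exact hc e he1 j h4
  obtain ⟨T, hT, hc, h1⟩ := key (w.length + 1) 0 (by omega)
  have h2 : T.Nonempty := by
    rw [Finset.nonempty_iff_ne_empty]
    rintro rfl
    rw [Finset.sum_empty] at h1
    exact zero_ne_one h1
  have h3 := card_le 0 w hT hc
  have h4 := Finset.card_pos.2 h2
  omega

theorem dep_prob (hM : 1 ≤ M) (θ : ℕ → Kˣ) (δ : ℕ → ℝ) (hδ : Summable δ)
    (h : ∀ i m, Pr M m (Rl θ i) ≤ δ i) (m : ℕ) :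
    Pr M m (Dep θ) ≤ Ai M 0 + ∑' i, δ i := by
  have hδ0 : ∀ i, 0 ≤ δ i := fun i => le_trans (pr_nonneg m _) (h i m)
  have h1 : Pr M m (Dep θ) ≤ Pr M m (fun w => (1 : ℝ) ≤ (slots (Cos 0) st0 w : ℝ) ∨
      ∃ i < m + 1, Rl θ i w) := by
    apply pr_mono
    intro w hw hd
    rcases dep_sub θ w hd with h2 | h2
    · left
      exact_mod_cast h2
    · right
      rw [hw] at h2
      exact h2
  have h2 := pr_or m (fun w : List (Lt M) => (1 : ℝ) ≤ (slots (Cos 0) st0 w : ℝ))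
    (fun w => ∃ i < m + 1, Rl θ i w)
  have h3 := markov (M := M) m (F := fun w => (slots (Cos 0) st0 w : ℝ))
    (fun w => Nat.cast_nonneg _) (a := 1) one_pos
  rw [div_one] at h3
  have h4 := pr_ex m (m + 1) (fun i => Rl (M := M) θ i)
  have h5 := p1 hM 0 m
  have h6 : ∑ i ∈ Finset.range (m + 1), Pr M m (Rl θ i) ≤ ∑ i ∈ Finset.range (m + 1), δ i :=
    Finset.sum_le_sum (fun i _ => h i m)
  have h7 : ∑ i ∈ Finset.range (m + 1), δ i ≤ ∑' i, δ i :=
    hδ.sum_le_tsum _ (fun i _ => hδ0 i)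
  linarith

end Pool.Agent.H34.SW
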