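import Pool.Agent.H34.LS.Defs
import Pool.Agent.H34.LS.Win

/-!
# Loc: local finiteness of the kernel from finite windows

A finite subset of the kernel lies in one window together with the inverses of its elements; the elements of
height `0` of a window are closed under multiplication.
-/

namespace Pool.Agent.H34.SW

open Pool.Agent.H34.LS

section

universe u

variable {G : Type u} [Group G]

theorem fin_list {s : Set G} {x : G} (hx : x ∈ Subgroup.closure s) :
    ∃ l : List G, (∀ y ∈ l, y ∈ s ∨ y⁻¹ ∈ s) ∧ l.prod = x := by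
  rw [← Subgroup.mem_toSubmonoid, Subgroup.closure_toSubmonoid] at hx
  obtain ⟨l, h1, h2⟩ := Submonoid.exists_list_of_mem_closure hx
  exact ⟨l, fun y hy => (h1 y hy).imp id id, h2⟩

theorem fin_win_one (f : G →* Multiplicative ℤ) (S : Set G) (n : ℕ) : (1 : G) ∈ window f S n :=
  ⟨[], fun x hx => absurd hx List.not_mem_nil, rfl, fun k => by simp⟩

theorem fin_win_mono (f : G →* Multiplicative ℤ) (S : Set G) {n m : ℕ} (h : n ≤ m) :
    window f S n ⊆ window f S m := by
  rintro g ⟨l, h1, h2, h3⟩
  exact ⟨l, h1, h2, fun k => (h3 k).trans (by exact_mod_cast h)⟩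

theorem fin_win_ex (f : G →* Multiplicative ℤ) {S : Set G} (hS : Subgroup.closure S = ⊤) (g : G) :
    ∃ n, g ∈ window f S n := by
  have hg : g ∈ Subgroup.closure S := by rw [hS]; trivial
  obtain ⟨l, h1, h2⟩ := fin_list hg
  refine ⟨∑ k ∈ Finset.range (l.length + 1),
    (Multiplicative.toAdd (f ((l.take k).prod))).natAbs, l, h1, h2, ?_⟩
  have key : ∀ k, k ≤ l.length → |Multiplicative.toAdd (f ((l.take k).prod))| ≤
      ((∑ k ∈ Finset.range (l.length + 1),
        (Multiplicative.toAdd (f ((l.take k).prod))).natAbs : ℕ) : ℤ) := by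
    intro k hk
    rw [Int.abs_eq_natAbs]
    exact_mod_cast Finset.single_le_sum
      (f := fun k => (Multiplicative.toAdd (f ((l.take k).prod))).natAbs)
      (fun i _ => Nat.zero_le _) (Finset.mem_range.2 (Nat.lt_succ_of_le hk))
  intro k
  rcases le_total k l.length with h | h
  · exact key k h
  · have := key l.length le_rfl
    rw [List.take_length] at this
    rw [List.take_of_length_le h]
    exact this

theorem fin_win_mul (f : G →* Multiplicative ℤ) {S : Set G} {n : ℕ} {x y : G}
    (hx : x ∈ window f S n) (hx1 : f x = 1) (hy : y ∈ window f S n) :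
    x * y ∈ window f S n := by
  obtain ⟨l, h1, h2, h3⟩ := hx
  obtain ⟨l', h1', h2', h3'⟩ := hy
  refine ⟨l ++ l', ?_, by rw [List.prod_append, h2, h2'], ?_⟩
  · intro z hz
    rcases List.mem_append.1 hz with h | h
    · exact h1 z h
    · exact h1' z h
  · intro k
    rw [List.take_append, List.prod_append, map_mul, toAdd_mul]
    rcases le_total k l.length with h | h
    · rw [Nat.sub_eq_zero_of_le h, List.take_zero, List.prod_nil, map_one, toAdd_one, add_zero]
      exact h3 k
    · rw [List.take_of_length_le h, h2, hx1, toAdd_one, zero_add]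
      exact h3' _

theorem fin_locfin (f : G →* Multiplicative ℤ) {S : Set G} (hS : Subgroup.closure S = ⊤)
    (hfin : ∀ n, (window f S n).Finite) (s : Set G) (hs : s.Finite)
    (hk : s ⊆ (f.ker : Set G)) : ((Subgroup.closure s : Subgroup G) : Set G).Finite := by
  choose N hN using fun g => fin_win_ex f hS g
  set n := ∑ g ∈ hs.toFinset, (N g + N g⁻¹) with hn
  have hmem : ∀ g ∈ s, g ∈ window f S n ∧ g⁻¹ ∈ window f S n := by
    intro g hg
    have h : N g + N g⁻¹ ≤ n := Finset.single_le_sum (f := fun g => N g + N g⁻¹)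
      (fun i _ => Nat.zero_le _) (hs.mem_toFinset.2 hg)
    exact ⟨fin_win_mono f S (by omega) (hN g), fin_win_mono f S (by omega) (hN g⁻¹)⟩
  refine (hfin n).subset ?_
  intro x hx
  obtain ⟨l, h1, h2⟩ := fin_list hx
  have key : ∀ l : List G, (∀ y ∈ l, y ∈ s ∨ y⁻¹ ∈ s) → l.prod ∈ window f S n := by
    intro l
    induction l with
    | nil =>
      intro _
      exact fin_win_one f S n
    | cons a l ih =>
      intro hl
      rw [List.prod_cons]
      have ha : a ∈ window f S n ∧ f a = 1 := by
        rcases hl a List.mem_cons_self with h | h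
        · exact ⟨(hmem a h).1, hk h⟩
        · refine ⟨?_, ?_⟩
          · have := (hmem _ h).2
            rwa [inv_inv] at this
          · have h3 : f a⁻¹ = 1 := hk h
            rw [map_inv, inv_eq_one] at h3
            exact h3
      exact fin_win_mul f ha.1 ha.2 (ih fun y hy => hl y (List.mem_cons_of_mem a hy))
  rw [← h2]
  exact key l h1

theorem locfin_of {f : G →* Multiplicative ℤ} {S : Set G} (hf : Function.Surjective f)
    (hS : Subgroup.closure S = ⊤) (hfin : ∀ n, (window f S n).Finite) : LocFinByZ G :=
  ⟨f, hf, fun s hs hk => fin_locfin f hS hfin s hs hk⟩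

end

end Pool.Agent.H34.SW
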