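import Pool.Agent.H34.SW.Defs

/-!
N0: with `D = Dd s D0 i` (`8 ∣ D`, since `D0 ≥ 3`), `N = D/4`, `W = 2^(D/8)`, `R = 2^(D/4)`, `U = 2^D - 1`:
`dl2 = (M+1)/M * 2^(i+5) * W / R + 2^N * 4 R / U ≤ 2^(i+6) * 2^(-D/8) + 8 * 2^(-D/2)`; `D ≥ 2^D0` and
`D ≥ 2^(i-s)`; so for `D0` large the sum over `i` is at most `ε`: e.g. `2^(D/8) ≥ 2^(D0 + 2 i) / C(s)`-type bounds
(`D/16 ≥ 2^(D0-4)` and `D/16 ≥ 2^(i-s-4)`), then a geometric series. (For instance: for `D0 ≥ D1(s)` one has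
`2^(i+6) * 2^(-D/8) + 8 * 2^(-D/2) ≤ 2^(-i) * ε / 2` for all `i`.)
-/

namespace Pool.Agent.H34.SW

open Pool.Agent.H34.LS Filter

private lemma n0_pow (d : ℕ) (hd : 20 ≤ d) : 5 * d ≤ 2 ^ (d - 3) + 52 := by
  induction d, hd using Nat.le_induction with
  | base => norm_num
  | succ d hd ih =>
    have h1 : d + 1 - 3 = (d - 3) + 1 := by omega
    have h2 : 2 ^ 17 ≤ 2 ^ (d - 3) := Nat.pow_le_pow_right (by norm_num) (by omega)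
    rw [h1, pow_succ]
    omega

private lemma n0_term {M i d E : ℕ} (hM : 1 ≤ M) (hd : 3 ≤ d) (h : 2 * i + 8 + E ≤ 2 ^ (d - 3)) :
    dl2 M i (2 ^ d / 4) (2 ^ (2 ^ d / 8)) (2 ^ (2 ^ d / 4)) (2 ^ 2 ^ d - 1) ≤
      (1 / 2) ^ E * (1 / 2 * (1 / 2) ^ i) := by
  obtain ⟨n, hn⟩ : ∃ n : ℕ, n = 2 ^ (d - 3) := ⟨_, rfl⟩
  have hD : 2 ^ d = 8 * n := by
    rw [hn, show (8 : ℕ) = 2 ^ 3 by norm_num, ← pow_add]
    congr 1
    omega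
  rw [← hn] at h
  have h4 : 8 * n / 4 = 2 * n := by omega
  have h8 : 8 * n / 8 = n := by omega
  have hU : ((2 ^ (8 * n) - 1 : ℕ) : ℝ) = (2 : ℝ) ^ (8 * n) - 1 := by
    rw [Nat.cast_sub Nat.one_le_two_pow]
    push_cast
    rfl
  have hsp : ((sp (i + 5) : ℤ) : ℝ) = (2 : ℝ) ^ (i + 4) := by
    have h1 : sp (i + 5) = 2 ^ (i + 4) := rfl
    rw [h1]
    push_cast
    rfl
  have hM0 : (1 : ℝ) ≤ M := by exact_mod_cast hM
  rw [hD, h4, h8, dl2, hU, hsp]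
  push_cast
  obtain ⟨x, hx⟩ : ∃ x : ℝ, x = (2 : ℝ) ^ n := ⟨_, rfl⟩
  have hx1 : (1 : ℝ) ≤ x := by
    rw [hx]
    exact one_le_pow₀ (by norm_num)
  have hx0 : 0 < x := by linarith
  have e2 : (2 : ℝ) ^ (2 * n) = x ^ 2 := by rw [hx, ← pow_mul, mul_comm]
  have e8 : (2 : ℝ) ^ (8 * n) = x ^ 8 := by rw [hx, ← pow_mul, mul_comm]
  have hx2 : (2 : ℝ) ≤ x := by
    rw [hx]
    calc (2 : ℝ) = 2 ^ 1 := by norm_num
      _ ≤ 2 ^ n := pow_le_pow_right₀ (by norm_num) (by omega)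
  rw [e2, e8, ← hx]
  have t1 : ((M : ℝ) + 1) / M * (2 * 2 ^ (i + 4) * x) / x ^ 2 ≤ 2 ^ (i + 6) / x := by
    have h1 : ((M : ℝ) + 1) / M ≤ 2 := by
      rw [div_le_iff₀ (by linarith)]
      linarith
    have h2 : ((M : ℝ) + 1) / M * (2 * 2 ^ (i + 4) * x) / x ^ 2 =
        ((M : ℝ) + 1) / M * (2 ^ (i + 5) / x) := by
      have h3 : (2 : ℝ) ^ (i + 5) = 2 * 2 ^ (i + 4) := by ring
      rw [h3]
      field_simp
    rw [h2]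
    have h4 : (2 : ℝ) ^ (i + 6) / x = 2 * (2 ^ (i + 5) / x) := by ring
    rw [h4]
    exact mul_le_mul_of_nonneg_right h1 (by positivity)
  have t2 : x ^ 2 * (4 * x ^ 2) / (x ^ 8 - 1) ≤ 8 / x := by
    have h1 : 2 ≤ x ^ 8 := by
      calc (2 : ℝ) ≤ x := hx2
        _ = x ^ 1 := (pow_one x).symm
        _ ≤ x ^ 8 := pow_le_pow_right₀ hx1 (by norm_num)
    have h2 : x ^ 5 ≤ x ^ 8 := pow_le_pow_right₀ hx1 (by norm_num)
    rw [div_le_div_iff₀ (by linarith) hx0]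
    have h3 : x ^ 2 * (4 * x ^ 2) * x = 4 * x ^ 5 := by ring
    rw [h3]
    linarith
  have t3 : (2 : ℝ) ^ (i + 6) / x + 8 / x ≤ 2 ^ (i + 7) / x := by
    rw [← add_div]
    apply div_le_div_of_nonneg_right _ hx0.le
    have h1 : (8 : ℝ) ≤ 2 ^ (i + 6) := by
      calc (8 : ℝ) = 2 ^ 3 := by norm_num
        _ ≤ 2 ^ (i + 6) := pow_le_pow_right₀ (by norm_num) (by omega)
    have h2 : (2 : ℝ) ^ (i + 7) = 2 * 2 ^ (i + 6) := by ring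
    linarith
  have t4 : (2 : ℝ) ^ (i + 7) / x ≤ (1 / 2) ^ E * (1 / 2 * (1 / 2) ^ i) := by
    have h1 : (2 : ℝ) ^ (2 * i + 8 + E) ≤ x := by
      rw [hx]
      exact pow_le_pow_right₀ (by norm_num) h
    rw [div_le_iff₀ hx0]
    calc (2 : ℝ) ^ (i + 7) = (1 / 2) ^ E * (1 / 2 * (1 / 2) ^ i) * 2 ^ (2 * i + 8 + E) := by
          rw [one_div, inv_pow, inv_pow]
          have h2 : (2 : ℝ) ^ (2 * i + 8 + E) = 2 ^ E * (2 * (2 ^ i * 2 ^ (i + 7))) := by ring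
          rw [h2]
          field_simp
      _ ≤ (1 / 2) ^ E * (1 / 2 * (1 / 2) ^ i) * x :=
          mul_le_mul_of_nonneg_left h1 (by positivity)
  calc _ ≤ (2 : ℝ) ^ (i + 6) / x + 8 / x := add_le_add t1 t2
    _ ≤ _ := t3.trans t4

private lemma n0_nonneg (M i N W R U : ℕ) : 0 ≤ dl2 M i N W R U := by
  unfold dl2
  have h1 : (0 : ℝ) ≤ ((sp (i + 5) : ℤ) : ℝ) := by
    have h2 : sp (i + 5) = 2 ^ (i + 4) := rfl
    rw [h2]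
    positivity
  positivity

theorem params_a (s : ℕ) {ε : ℝ} (hε : 0 < ε) : ∃ D0 : ℕ, 3 ≤ D0 ∧ ∀ M : ℕ, 1 ≤ M →
    Summable (fun i => dl2 M i (Dd s D0 i / 4) (2 ^ (Dd s D0 i / 8)) (2 ^ (Dd s D0 i / 4))
      (2 ^ Dd s D0 i - 1)) ∧
    ∑' i, dl2 M i (Dd s D0 i / 4) (2 ^ (Dd s D0 i / 8)) (2 ^ (Dd s D0 i / 4))
      (2 ^ Dd s D0 i - 1) ≤ ε := by
  obtain ⟨E, hE⟩ : ∃ E : ℕ, ((1 : ℝ) / 2) ^ E < ε := exists_pow_lt_of_lt_one hε (by norm_num)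
  refine ⟨s + E + 20, by omega, fun M hM => ?_⟩
  have hb : ∀ i, dl2 M i (Dd s (s + E + 20) i / 4) (2 ^ (Dd s (s + E + 20) i / 8))
      (2 ^ (Dd s (s + E + 20) i / 4)) (2 ^ Dd s (s + E + 20) i - 1) ≤
      (1 / 2) ^ E * (1 / 2 * (1 / 2) ^ i) := by
    intro i
    obtain ⟨d, hd⟩ : ∃ d : ℕ, d = dd s (s + E + 20) i := ⟨_, rfl⟩
    have h1 : s + E + 20 ≤ d := by
      rw [hd, dd]
      exact le_max_left _ _
    have h2 : i ≤ d + s := by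
      have h3 : i + Nat.log 2 (Nat.log 2 (i + 4)) - s ≤ d := by
        rw [hd, dd]
        exact le_max_right _ _
      omega
    have h4 := n0_pow d (by omega)
    have h5 : Dd s (s + E + 20) i = 2 ^ d := by rw [Dd, hd]
    rw [h5]
    exact n0_term hM (by omega) (by omega)
  have hs : Summable (fun i : ℕ => ((1 : ℝ) / 2) ^ E * (1 / 2 * (1 / 2) ^ i)) :=
    (summable_geometric_two.mul_left (1 / 2)).mul_left _
  have hS : ∑' i : ℕ, ((1 : ℝ) / 2) ^ E * (1 / 2 * (1 / 2) ^ i) = (1 / 2) ^ E := by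
    rw [tsum_mul_left, tsum_mul_left, tsum_geometric_two]
    norm_num
  have hsum := Summable.of_nonneg_of_le (fun i => n0_nonneg M i _ _ _ _) hb hs
  refine ⟨hsum, ?_⟩
  calc _ ≤ ∑' i : ℕ, ((1 : ℝ) / 2) ^ E * (1 / 2 * (1 / 2) ^ i) := hsum.tsum_le_tsum hb hs
    _ ≤ ε := by rw [hS]; exact hE.le

end Pool.Agent.H34.SW
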