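import Pool.Agent.H34.SW.Defs

/-!
N1: for fixed `s`, `D0`, with `D = Dd s D0 i`: `dl1 = 2 (1 + 1/(2 A))^(-D/4) + A/(3 2^(D/8) + 1)`,
`A = Ai M (i+1) = (16/3) 2^(i+4) / M`. Both terms are nonincreasing in `M` and tend to `0` as `M → ∞` for each
`i` (`D/4 ≥ 1`). The series converges for `M = M1` large: second term by `D ≥ 2^(i-s)`; first term:
`D ≥ 2^i log2(i+4) / 2^(s+1)` (`2^⌊log2 x⌋ > x/2`, and `⌊log2 (i+4)⌋ ≥ log2(i+4) - 1`: some constant), and
`(1 + 1/(2A))^(-D/4) ≤ exp (-D/(16 A)) ≤ (i+4)^(-2)` if `A ≥ 1/2`, `M ≥ C 2^s`. Then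
`tendsto_tsum_of_dominated_convergence` (or: split the series at a large index).
-/

namespace Pool.Agent.H34.SW

open Pool.Agent.H34.LS Filter

/-- the numerator of `Ai M (i + 1)`. -/
private noncomputable def n1_a (i : ℕ) : ℝ := 16 / 3 * 2 ^ (i + 4)

private lemma n1_a_pos (i : ℕ) : 0 < n1_a i := by
  unfold n1_a
  positivity

private lemma n1_eq {M : ℕ} (hM : 1 ≤ M) (i N W : ℕ) :
    dl1 M i N W = 2 * ((1 + (M : ℝ) / (2 * n1_a i)) ^ N)⁻¹ + n1_a i / M / (3 * W + 1) := by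
  have hM' : (0 : ℝ) < M := by exact_mod_cast hM
  have ha := n1_a_pos i
  have hA : Ai M (i + 1) = n1_a i / M := by
    unfold Ai n1_a
    rw [show i + 1 + 3 = i + 4 by omega]
  unfold dl1
  rw [hA]
  have : 1 / (2 * (n1_a i / (M : ℝ))) = (M : ℝ) / (2 * n1_a i) := by
    field_simp
  rw [this]

private lemma n1_nonneg {M : ℕ} (hM : 1 ≤ M) (i N W : ℕ) : 0 ≤ dl1 M i N W := by
  have hM' : (0 : ℝ) < M := by exact_mod_cast hM
  have ha := n1_a_pos i
  rw [n1_eq hM]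
  positivity

private lemma n1_mono {M M' : ℕ} (hM : 1 ≤ M) (h : M ≤ M') (i N W : ℕ) :
    dl1 M' i N W ≤ dl1 M i N W := by
  have hM' : (0 : ℝ) < M := by exact_mod_cast hM
  have hh : (M : ℝ) ≤ M' := by exact_mod_cast h
  have ha := n1_a_pos i
  rw [n1_eq hM, n1_eq (hM.trans h)]
  apply add_le_add
  · apply mul_le_mul_of_nonneg_left _ (by norm_num)
    apply inv_anti₀ (by positivity)
    apply pow_le_pow_left₀ (by positivity)
    have : (M : ℝ) / (2 * n1_a i) ≤ (M' : ℝ) / (2 * n1_a i) :=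
      div_le_div_of_nonneg_right hh (by positivity)
    linarith
  · apply div_le_div_of_nonneg_right _ (by positivity)
    exact div_le_div_of_nonneg_left ha.le hM' hh

private lemma n1_small {M : ℕ} (hM : 1 ≤ M) (i : ℕ) {N : ℕ} (hN : 1 ≤ N) (W : ℕ) :
    dl1 M i N W ≤ 5 * n1_a i / M := by
  have hM' : (0 : ℝ) < M := by exact_mod_cast hM
  have ha := n1_a_pos i
  rw [n1_eq hM]
  have h1 : (M : ℝ) / (2 * n1_a i) ≤ (1 + (M : ℝ) / (2 * n1_a i)) ^ N := by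
    have h2 : (1 + (M : ℝ) / (2 * n1_a i)) ^ 1 ≤ (1 + (M : ℝ) / (2 * n1_a i)) ^ N := by
      apply pow_le_pow_right₀ _ hN
      have : (0 : ℝ) ≤ (M : ℝ) / (2 * n1_a i) := by positivity
      linarith
    rw [pow_one] at h2
    linarith
  have h3 : ((1 + (M : ℝ) / (2 * n1_a i)) ^ N)⁻¹ ≤ ((M : ℝ) / (2 * n1_a i))⁻¹ :=
    inv_anti₀ (by positivity) h1
  rw [inv_div] at h3
  have h4 : n1_a i / M / (3 * (W : ℝ) + 1) ≤ n1_a i / M := by
    apply div_le_self (by positivity)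
    have : (0 : ℝ) ≤ W := Nat.cast_nonneg _
    linarith
  have e : 5 * n1_a i / (M : ℝ) = 2 * (2 * n1_a i / M) + n1_a i / M := by ring
  rw [e]
  linarith

private lemma n1_dd {s D0 i : ℕ} : i + Nat.log 2 (Nat.log 2 (i + 4)) - s ≤ dd s D0 i :=
  le_max_right _ _

private lemma n1_D4 {s D0 : ℕ} (hD0 : 3 ≤ D0) (i : ℕ) :
    Dd s D0 i / 4 = 2 ^ (dd s D0 i - 2) := by
  have h : 3 ≤ dd s D0 i := hD0.trans (le_max_left _ _)
  unfold Dd
  rw [show (4 : ℕ) = 2 ^ 2 by norm_num, Nat.pow_div (by omega) (by norm_num)]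

private lemma n1_D8 {s D0 : ℕ} (hD0 : 3 ≤ D0) (i : ℕ) :
    Dd s D0 i / 8 = 2 ^ (dd s D0 i - 3) := by
  have h : 3 ≤ dd s D0 i := hD0.trans (le_max_left _ _)
  unfold Dd
  rw [show (8 : ℕ) = 2 ^ 3 by norm_num, Nat.pow_div (by omega) (by norm_num)]

private lemma n1_two_mul_le (j : ℕ) : 2 * j ≤ 2 ^ j := by
  induction j with
  | zero => simp
  | succ j ih =>
    rcases Nat.eq_zero_or_pos j with rfl | hj
    · norm_num
    · rw [pow_succ]
      have : 2 ≤ 2 ^ j := by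
        calc 2 = 2 ^ 1 := by norm_num
          _ ≤ 2 ^ j := Nat.pow_le_pow_right (by norm_num) hj
      omega

/-- the first term at `M = 2 ^ (s + 12)`. -/
private lemma n1_first {s D0 : ℕ} (hD0 : 3 ≤ D0) (j : ℕ) :
    ((1 + ((2 ^ (s + 12) : ℕ) : ℝ) / (2 * n1_a (j + (s + 3)))) ^ (Dd s D0 (j + (s + 3)) / 4))⁻¹
      ≤ 1 / ((j : ℝ) + 1) ^ 2 := by
  rw [n1_D4 hD0]
  set i := j + (s + 3) with hi
  have ha := n1_a_pos i
  set y : ℝ := ((2 ^ (s + 12) : ℕ) : ℝ) / (2 * n1_a i) with hy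
  have hy0 : 0 < y := by
    rw [hy]
    positivity
  have hyj : ((2 ^ j : ℕ) : ℝ) * y = 3 := by
    rw [hy, hi]
    unfold n1_a
    push_cast
    rw [show j + (s + 3) + 4 = j + s + 7 by ring, pow_add, pow_add, pow_add]
    field_simp
    ring
  set L := Nat.log 2 (i + 4) with hL
  have h1 : L + 1 ≤ 2 ^ (Nat.log 2 L + 1) := Nat.lt_pow_succ_log_self (by norm_num) L
  have h2 : i + 4 ≤ 2 ^ (L + 1) := (Nat.lt_pow_succ_log_self (by norm_num) (i + 4)).le
  have h3 : 2 ^ j * (L + 1) ≤ 2 ^ (dd s D0 i - 2) := by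
    calc 2 ^ j * (L + 1) ≤ 2 ^ j * 2 ^ (Nat.log 2 L + 1) := Nat.mul_le_mul_left _ h1
      _ = 2 ^ (j + (Nat.log 2 L + 1)) := by rw [← pow_add]
      _ ≤ 2 ^ (dd s D0 i - 2) := by
        apply Nat.pow_le_pow_right (by norm_num)
        have := n1_dd (s := s) (D0 := D0) (i := i)
        rw [← hL] at this
        omega
  have h4 : (4 : ℝ) ≤ (1 + y) ^ (2 ^ j) := by
    have := one_add_mul_le_pow (a := y) (by linarith) (2 ^ j)
    rw [hyj] at this
    linarith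
  have h5 : ((j : ℝ) + 1) ^ 2 ≤ (1 + y) ^ (2 ^ (dd s D0 i - 2)) := by
    calc ((j : ℝ) + 1) ^ 2 ≤ ((2 : ℝ) ^ (L + 1)) ^ 2 := by
          apply pow_le_pow_left₀ (by positivity)
          have : j + 1 ≤ 2 ^ (L + 1) := by omega
          exact_mod_cast this
      _ = 4 ^ (L + 1) := by
          rw [← pow_mul, mul_comm, pow_mul]
          norm_num
      _ ≤ ((1 + y) ^ (2 ^ j)) ^ (L + 1) := pow_le_pow_left₀ (by norm_num) h4 _
      _ = (1 + y) ^ (2 ^ j * (L + 1)) := by rw [← pow_mul]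
      _ ≤ (1 + y) ^ (2 ^ (dd s D0 i - 2)) := pow_le_pow_right₀ (by linarith) h3
  rw [one_div]
  exact inv_anti₀ (by positivity) h5

/-- the second term. -/
private lemma n1_second {s D0 : ℕ} (hD0 : 3 ≤ D0) (j : ℕ) {M : ℕ} (hM : 1 ≤ M) :
    n1_a (j + (s + 3)) / M / (3 * ((2 ^ (Dd s D0 (j + (s + 3)) / 8) : ℕ) : ℝ) + 1)
      ≤ n1_a (s + 3) * (1 / 2) ^ j := by
  rw [n1_D8 hD0]
  set i := j + (s + 3) with hi
  have hM' : (1 : ℝ) ≤ M := by exact_mod_cast hM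
  have ha := n1_a_pos i
  have ha' := n1_a_pos (s + 3)
  have h1 : 2 ^ j ≤ 2 ^ (dd s D0 i - 3) := by
    apply Nat.pow_le_pow_right (by norm_num)
    have := n1_dd (s := s) (D0 := D0) (i := i)
    omega
  have h2 : 2 * j ≤ 2 ^ (dd s D0 i - 3) := (n1_two_mul_le j).trans h1
  have h3 : (4 : ℝ) ^ j ≤ ((2 ^ 2 ^ (dd s D0 i - 3) : ℕ) : ℝ) := by
    have : 4 ^ j ≤ 2 ^ 2 ^ (dd s D0 i - 3) := by
      calc 4 ^ j = 2 ^ (2 * j) := by rw [pow_mul]; norm_num
        _ ≤ _ := Nat.pow_le_pow_right (by norm_num) h2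
    exact_mod_cast this
  have e : n1_a i = n1_a (s + 3) * 2 ^ j := by
    rw [hi]
    unfold n1_a
    rw [show j + (s + 3) + 4 = (s + 3 + 4) + j by ring, pow_add]
    ring
  have h4 : n1_a i / M ≤ n1_a i := div_le_self ha.le hM'
  calc n1_a i / M / (3 * ((2 ^ 2 ^ (dd s D0 i - 3) : ℕ) : ℝ) + 1)
      ≤ n1_a i / (4 : ℝ) ^ j := by
        apply div_le_div₀ ha.le h4 (by positivity)
        have : (0 : ℝ) ≤ ((2 ^ 2 ^ (dd s D0 i - 3) : ℕ) : ℝ) := Nat.cast_nonneg _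
        linarith
    _ = n1_a (s + 3) * (1 / 2) ^ j := by
        rw [e]
        have : (4 : ℝ) ^ j = 2 ^ j * 2 ^ j := by
          rw [← mul_pow]
          norm_num
        rw [this, one_div, inv_pow]
        field_simp

private lemma n1_summable (s D0 : ℕ) (hD0 : 3 ≤ D0) :
    Summable (fun i => dl1 (2 ^ (s + 12)) i (Dd s D0 i / 4) (2 ^ (Dd s D0 i / 8))) := by
  have hM : 1 ≤ 2 ^ (s + 12) := Nat.one_le_two_pow
  rw [← summable_nat_add_iff (s + 3)]
  have hs1 : Summable (fun j : ℕ => 2 * (1 / ((j : ℝ) + 1) ^ 2)) := by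
    have h := (summable_nat_add_iff 1).2 (Real.summable_one_div_nat_pow.2 (by norm_num : 1 < 2))
    apply Summable.mul_left
    refine h.congr ?_
    intro j
    push_cast
    rfl
  have hs2 : Summable (fun j : ℕ => n1_a (s + 3) * (1 / 2 : ℝ) ^ j) :=
    (summable_geometric_of_lt_one (by norm_num) (by norm_num)).mul_left _
  refine Summable.of_nonneg_of_le (fun j => n1_nonneg hM _ _ _) (fun j => ?_) (hs1.add hs2)
  rw [n1_eq hM]
  exact add_le_add (mul_le_mul_of_nonneg_left (n1_first hD0 j) (by norm_num))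
    (n1_second hD0 j hM)

theorem params_b (s D0 : ℕ) (hD0 : 3 ≤ D0) {ε : ℝ} (hε : 0 < ε) : ∃ M : ℕ, 1 ≤ M ∧
    Summable (fun i => dl1 M i (Dd s D0 i / 4) (2 ^ (Dd s D0 i / 8))) ∧
    Ai M 0 + ∑' i, dl1 M i (Dd s D0 i / 4) (2 ^ (Dd s D0 i / 8)) ≤ ε := by
  have hM1 : 1 ≤ 2 ^ (s + 12) := Nat.one_le_two_pow
  have hsum := n1_summable s D0 hD0
  have hN : ∀ i, 1 ≤ Dd s D0 i / 4 := by
    intro i
    rw [n1_D4 hD0]
    exact Nat.one_le_two_pow
  have hdiv : ∀ c : ℝ, Tendsto (fun M : ℕ => c / (M : ℝ)) atTop (nhds 0) := fun c =>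
    tendsto_const_div_atTop_nhds_zero_nat c
  have hlim : Tendsto (fun M : ℕ => ∑' i, dl1 M i (Dd s D0 i / 4) (2 ^ (Dd s D0 i / 8))) atTop
      (nhds (∑' _ : ℕ, (0 : ℝ))) := by
    refine tendsto_tsum_of_dominated_convergence hsum ?_ ?_
    · intro i
      refine tendsto_of_tendsto_of_tendsto_of_le_of_le' tendsto_const_nhds
        (hdiv (5 * n1_a i)) ?_ ?_
      · filter_upwards [eventually_ge_atTop 1] with M hM
        exact n1_nonneg hM _ _ _
      · filter_upwards [eventually_ge_atTop 1] with M hM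
        exact n1_small hM i (hN i) _
    · filter_upwards [eventually_ge_atTop (2 ^ (s + 12))] with M hM
      intro i
      rw [Real.norm_of_nonneg (n1_nonneg (hM1.trans hM) _ _ _)]
      exact n1_mono hM1 hM _ _ _
  rw [tsum_zero] at hlim
  have hA : Tendsto (fun M : ℕ => Ai M 0) atTop (nhds 0) := hdiv (16 / 3 * 2 ^ (0 + 3))
  have hboth := hA.add hlim
  rw [add_zero] at hboth
  have hev := hboth.eventually (gt_mem_nhds hε)
  obtain ⟨M, hM, hMε⟩ := ((eventually_ge_atTop (2 ^ (s + 12))).and hev).exists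
  refine ⟨M, hM1.trans hM, ?_, hMε.le⟩
  exact Summable.of_nonneg_of_le (fun i => n1_nonneg (hM1.trans hM) _ _ _)
    (fun i => n1_mono hM1 hM _ _ _) hsum

end Pool.Agent.H34.SW
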