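import Pool.Agent.H34.SW.Defs

/-!
N2: growth numerics. With `i = Nat.log 2 (4 n)`, `Dd s D0 i ≤ 2^D0 + 2^i * log2(i+4) / 2^s ≤
2^D0 + 4 n * log2(i+4)/2^s`, `log2 (i + 4) ≤ C log log n` for `n` large; the logarithm is at most
`log (2n+1) + (4n+1) log 2 (1 + 3 D) + (2n+1) log 2`.
-/

namespace Pool.Agent.H34.SW

open Pool.Agent.H34.LS Filter

/-- the bound for the degree. -/
theorem n2_Dd_le (s D0 i : ℕ) :
    (Dd s D0 i : ℝ) ≤ 2 ^ D0 + 1 + 2 ^ i * (Nat.log 2 (i + 4) : ℝ) / 2 ^ s := by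
  have hm : Nat.log 2 (i + 4) ≠ 0 := by
    have : 1 ≤ Nat.log 2 (i + 4) := Nat.le_log_of_pow_le (by norm_num) (by omega)
    omega
  have hL : (2 : ℝ) ^ Nat.log 2 (Nat.log 2 (i + 4)) ≤ (Nat.log 2 (i + 4) : ℝ) := by
    exact_mod_cast Nat.pow_log_le_self 2 hm
  have h2 : (0 : ℝ) < 2 ^ s := by positivity
  have h3 : (0 : ℝ) ≤ 2 ^ i * (Nat.log 2 (i + 4) : ℝ) / 2 ^ s := by positivity
  have h4 : (2 : ℝ) ^ (i + Nat.log 2 (Nat.log 2 (i + 4)) - s) ≤
      1 + 2 ^ i * (Nat.log 2 (i + 4) : ℝ) / 2 ^ s := by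
    rcases le_total s (i + Nat.log 2 (Nat.log 2 (i + 4))) with h | h
    · have h5 : (2 : ℝ) ^ (i + Nat.log 2 (Nat.log 2 (i + 4)) - s) ≤
          2 ^ i * (Nat.log 2 (i + 4) : ℝ) / 2 ^ s := by
        rw [le_div_iff₀ h2, ← pow_add, Nat.sub_add_cancel h, pow_add]
        exact mul_le_mul_of_nonneg_left hL (by positivity)
      linarith
    · rw [Nat.sub_eq_zero_of_le h, pow_zero]
      linarith
  unfold Dd dd
  push_cast
  rcases le_total D0 (i + Nat.log 2 (Nat.log 2 (i + 4)) - s) with h | h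
  · rw [max_eq_right h]
    have : (0 : ℝ) ≤ 2 ^ D0 := by positivity
    linarith
  · rw [max_eq_left h]
    linarith

theorem growth {κ : ℝ} (hκ : 0 < κ) : ∃ s : ℕ, ∀ D0 : ℕ, ∀ᶠ n : ℕ in atTop,
    Real.log (((2 * n + 1) * (2 * 2 ^ (3 * Dd s D0 (Nat.log 2 (4 * n)))) ^ (4 * n + 1) *
      2 ^ (2 * n + 1) : ℕ) : ℝ) ≤ κ * (n : ℝ) ^ 2 * Real.log (Real.log n) := by
  obtain ⟨s, hs⟩ := pow_unbounded_of_one_lt (360 / κ) (one_lt_two : (1 : ℝ) < 2)
  refine ⟨s, fun D0 => ?_⟩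
  have t1 : Tendsto (fun n : ℕ => Real.log (n : ℝ)) atTop atTop :=
    Real.tendsto_log_atTop.comp tendsto_natCast_atTop_atTop
  have t2 : Tendsto (fun n : ℕ => Real.log (Real.log (n : ℝ))) atTop atTop :=
    Real.tendsto_log_atTop.comp t1
  filter_upwards [t1.eventually_ge_atTop 4, t2.eventually_ge_atTop 1,
    tendsto_natCast_atTop_atTop.eventually_ge_atTop ((22 + 30 * (2 ^ D0 + 1)) / κ : ℝ),
    eventually_ge_atTop 1] with n h4 hll hn h1
  have hn1 : (1 : ℝ) ≤ (n : ℝ) := by exact_mod_cast h1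
  have hl2 : 0.69 < Real.log 2 := lt_trans (by norm_num) Real.log_two_gt_d9
  have hl2' : Real.log 2 ≤ 1 := by
    have := Real.log_two_lt_d9
    linarith
  set x := Real.log (n : ℝ) with hx
  set i := Nat.log 2 (4 * n) with hi
  have hi1 : (2 : ℝ) ^ i ≤ 4 * n := by
    have := Nat.pow_log_le_self 2 (x := 4 * n) (by omega)
    rw [← hi] at this
    exact_mod_cast this
  have hi2 : (i : ℝ) * Real.log 2 ≤ 2 * Real.log 2 + x := by
    have h := Real.log_le_log (by positivity) hi1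
    rw [Real.log_pow, Real.log_mul (by norm_num) (by positivity), ← hx] at h
    have h' : Real.log 4 = 2 * Real.log 2 := by
      rw [show (4 : ℝ) = 2 ^ 2 by norm_num, Real.log_pow]
      norm_num
    rw [h'] at h
    exact h
  -- i + 4 ≤ x ^ 2
  have hi3 : (i : ℝ) + 4 ≤ x ^ 2 := by
    have h5 : (i : ℝ) ≤ 2 + 1.5 * x := by
      by_contra hcon
      push Not at hcon
      have h6 : (2 + 1.5 * x) * Real.log 2 < (i : ℝ) * Real.log 2 :=
        mul_lt_mul_of_pos_right hcon (by linarith)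
      nlinarith
    nlinarith
  set m := Nat.log 2 (i + 4) with hm
  have hm1 : (2 : ℝ) ^ m ≤ (i : ℝ) + 4 := by
    have := Nat.pow_log_le_self 2 (x := i + 4) (by omega)
    rw [← hm] at this
    exact_mod_cast this
  have hm2 : (m : ℝ) ≤ 3 * Real.log x := by
    have h := Real.log_le_log (by positivity) (hm1.trans hi3)
    rw [Real.log_pow, Real.log_pow] at h
    push_cast at h
    by_contra hcon
    push Not at hcon
    have h6 : (3 * Real.log x) * Real.log 2 < (m : ℝ) * Real.log 2 :=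
      mul_lt_mul_of_pos_right hcon (by linarith)
    nlinarith
  have hD := n2_Dd_le s D0 i
  rw [← hm] at hD
  set D := Dd s D0 i with hDdef
  have h2s : (0 : ℝ) < 2 ^ s := by positivity
  have hD2 : (D : ℝ) ≤ 2 ^ D0 + 1 + 12 * n * Real.log x / 2 ^ s := by
    refine hD.trans ?_
    have : 2 ^ i * (m : ℝ) / 2 ^ s ≤ 12 * n * Real.log x / 2 ^ s := by
      apply div_le_div_of_nonneg_right _ h2s.le
      calc 2 ^ i * (m : ℝ) ≤ (4 * n) * (3 * Real.log x) :=
            mul_le_mul hi1 hm2 (by positivity) (by positivity)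
        _ = 12 * n * Real.log x := by ring
    linarith
  -- the logarithm
  have hlog : Real.log (((2 * n + 1) * (2 * 2 ^ (3 * D)) ^ (4 * n + 1) *
      2 ^ (2 * n + 1) : ℕ) : ℝ) = Real.log (2 * n + 1) +
        (4 * n + 1) * ((1 + 3 * D) * Real.log 2) + (2 * n + 1) * Real.log 2 := by
    push_cast
    rw [Real.log_mul (by positivity) (by positivity), Real.log_mul (by positivity) (by positivity),
      Real.log_pow, Real.log_pow, Real.log_mul (by norm_num) (by positivity), Real.log_pow]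
    push_cast
    ring
  rw [hlog]
  have ha : Real.log (2 * n + 1) ≤ 2 * n := by
    have := Real.log_le_sub_one_of_pos (show (0 : ℝ) < 2 * n + 1 by positivity)
    linarith
  have hDn : (0 : ℝ) ≤ D := by positivity
  have hb : (4 * n + 1) * ((1 + 3 * (D : ℝ)) * Real.log 2) ≤ (5 * n) * (1 + 3 * D) := by
    apply mul_le_mul _ _ _ (by positivity)
    · linarith
    · have : (1 + 3 * (D : ℝ)) * Real.log 2 ≤ (1 + 3 * D) * 1 :=
        mul_le_mul_of_nonneg_left hl2' (by positivity)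
      linarith
    · have := Real.log_pos (show (1 : ℝ) < 2 by norm_num)
      positivity
  have hc : (2 * n + 1) * Real.log 2 ≤ 3 * n := by
    have : (2 * (n : ℝ) + 1) * Real.log 2 ≤ (2 * n + 1) * 1 :=
      mul_le_mul_of_nonneg_left hl2' (by positivity)
    linarith
  have hd : (n : ℝ) * D ≤ n * (2 ^ D0 + 1) + 12 * n ^ 2 * Real.log x / 2 ^ s := by
    calc (n : ℝ) * D ≤ n * (2 ^ D0 + 1 + 12 * n * Real.log x / 2 ^ s) :=
          mul_le_mul_of_nonneg_left hD2 (by positivity)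
      _ = _ := by ring
  -- the choice of s
  have hs' : 180 / 2 ^ s ≤ κ / 2 := by
    rw [div_le_iff₀ h2s]
    rw [div_lt_iff₀ hκ] at hs
    linarith
  have he : 180 * (n : ℝ) ^ 2 * Real.log x / 2 ^ s ≤ κ / 2 * (n ^ 2 * Real.log x) := by
    have : 180 * (n : ℝ) ^ 2 * Real.log x / 2 ^ s = 180 / 2 ^ s * (n ^ 2 * Real.log x) := by ring
    rw [this]
    exact mul_le_mul_of_nonneg_right hs' (by positivity)
  -- the lower order terms
  have hf : (n : ℝ) * (11 + 15 * (2 ^ D0 + 1)) ≤ κ / 2 * (n ^ 2 * Real.log x) := by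
    rw [div_le_iff₀ hκ] at hn
    have h7 : (11 + 15 * (2 ^ D0 + 1) : ℝ) ≤ κ / 2 * n := by linarith
    have h8 : κ / 2 * (n : ℝ) ≤ κ / 2 * n * Real.log x := by
      have : (0 : ℝ) ≤ κ / 2 * n := by positivity
      nlinarith
    calc (n : ℝ) * (11 + 15 * (2 ^ D0 + 1)) ≤ n * (κ / 2 * n * Real.log x) :=
          mul_le_mul_of_nonneg_left (h7.trans h8) (by positivity)
      _ = _ := by ring
  have hg : 12 * (n : ℝ) ^ 2 * Real.log x / 2 ^ s * 15 = 180 * (n : ℝ) ^ 2 * Real.log x / 2 ^ s := by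
    ring
  nlinarith

theorem Dd_dvd (s D0 : ℕ) {i j : ℕ} (h : i ≤ j) : Dd s D0 i ∣ Dd s D0 j := by
  unfold Dd dd
  apply pow_dvd_pow
  apply max_le_max le_rfl
  have h1 : Nat.log 2 (Nat.log 2 (i + 4)) ≤ Nat.log 2 (Nat.log 2 (j + 4)) :=
    Nat.log_mono_right (Nat.log_mono_right (by omega))
  omega

end Pool.Agent.H34.SW
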