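import Pool.Agent.H34.LS.E8
import Pool.Agent.H34.LS.E10
import Pool.Agent.H34.LS.E14
import Pool.Agent.H34.LS.V3
import Pool.Agent.H34.LS.V2

/-!
T1: linear entropy implies a non-trivial boundary. If `Liou p` then `Liou (lz p)` (`lz_liou`), so
`ent ((lz p)^n)/n → 0` (`ent_div_tendsto`, `lz_norm`). But concavity of the entropy gives, by induction on `n`,
`ent ((lz p)^n * p^m) ≥ c (m + n/2)`.
-/

namespace Pool.Agent.H34.SW

open Pool.Agent.H34.LS Filter

universe u v

private theorem t1_fent {X : Type v} (q : X →₀ ℝ) (s : Finset X) (hs : q.support ⊆ s) :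
    fent q = ∑ x ∈ s, Real.negMulLog (q x) := by
  unfold fent
  exact Finsupp.sum_of_support_subset q hs _ (fun x _ => Real.negMulLog_zero)

private theorem t1_conc {X : Type v} (q r : X →₀ ℝ) (hq : ∀ x, 0 ≤ q x) (hr : ∀ x, 0 ≤ r x) :
    (1 / 2 : ℝ) * fent q + (1 / 2 : ℝ) * fent r ≤ fent ((1 / 2 : ℝ) • (q + r)) := by
  classical
  have h1 := t1_fent q (q.support ∪ r.support) Finset.subset_union_left
  have h2 := t1_fent r (q.support ∪ r.support) Finset.subset_union_right
  have h3 := t1_fent ((1 / 2 : ℝ) • (q + r)) (q.support ∪ r.support)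
    (Finsupp.support_smul.trans Finsupp.support_add)
  rw [h1, h2, h3, Finset.mul_sum, Finset.mul_sum, ← Finset.sum_add_distrib]
  refine Finset.sum_le_sum fun x _ => ?_
  have h := Real.concaveOn_negMulLog.2 (Set.mem_Ici.2 (hq x)) (Set.mem_Ici.2 (hr x))
    (show (0 : ℝ) ≤ 1 / 2 by norm_num) (show (0 : ℝ) ≤ 1 / 2 by norm_num) (by norm_num)
  simp only [smul_eq_mul] at h
  refine h.trans (le_of_eq ?_)
  congr 1
  show 1 / 2 * q x + 1 / 2 * r x = 1 / 2 * (q x + r x)
  ring

variable {G : Type u} [Group G]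

private theorem t1_step {p : MonoidAlgebra ℝ G} (hp : PA p) (n m : ℕ) :
    (1 / 2 : ℝ) * ent ((lz p) ^ n * p ^ m) + (1 / 2 : ℝ) * ent ((lz p) ^ n * p ^ (m + 1)) ≤
      ent ((lz p) ^ (n + 1) * p ^ m) := by
  have h1 : (lz p) ^ (n + 1) * p ^ m =
      (1 / 2 : ℝ) • ((lz p) ^ n * p ^ m + (lz p) ^ n * p ^ (m + 1)) := by
    have e : lz p * p ^ m = (1 / 2 : ℝ) • (p ^ m + p ^ (m + 1)) := by
      unfold lz
      rw [smul_mul_assoc, add_mul, one_mul, ← pow_succ']
    rw [pow_succ, mul_assoc, e, mul_smul_comm, mul_add]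
  have h2 : ((lz p) ^ (n + 1) * p ^ m).coeff =
      (1 / 2 : ℝ) • (((lz p) ^ n * p ^ m).coeff + ((lz p) ^ n * p ^ (m + 1)).coeff) := by
    rw [h1]
    rfl
  have hA := pa_mul (pa_pow (lz_pa hp) n) (pa_pow hp m)
  have hB := pa_mul (pa_pow (lz_pa hp) n) (pa_pow hp (m + 1))
  unfold ent
  rw [h2]
  exact t1_conc _ _ hA.1 hB.1

theorem not_liou {p : MonoidAlgebra ℝ G} (hp : PA p) {c : ℝ} (hc : 0 < c)
    (h : ∀ n : ℕ, c * n ≤ ent (p ^ n)) : ¬ Liou p := by
  intro hL
  have hlow : ∀ n m : ℕ, c * (m + n / 2) ≤ ent ((lz p) ^ n * p ^ m) := by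
    intro n
    induction n with
    | zero =>
      intro m
      rw [pow_zero, one_mul]
      have := h m
      simpa using this
    | succ n ih =>
      intro m
      have h1 := t1_step hp n m
      have h2 := ih m
      have h3 := ih (m + 1)
      push_cast at h3 ⊢
      nlinarith
  have hlim := ent_div_tendsto (lz_pa hp) ((lz_liou p).2 hL) (lz_norm hp)
  have hev : ∀ᶠ n : ℕ in atTop, c / 2 ≤ ent ((lz p) ^ n) / n := by
    filter_upwards [eventually_ge_atTop 1] with n hn
    have h1 := hlow n 0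
    rw [pow_zero, mul_one] at h1
    have hn' : (0 : ℝ) < n := by exact_mod_cast hn
    rw [le_div_iff₀ hn']
    push_cast at h1
    linarith
  have := ge_of_tendsto hlim hev
  linarith

/-- version for `pw`. -/
theorem not_trivial {P : G →₀ ℝ} (hP : IsFSProb (fun g => P g)) {c : ℝ} (hc : 0 < c)
    (h : ∀ n : ℕ, c * n ≤ fent (pw P n)) : ¬ TrivialBoundary (fun g => P g) := by
  rw [triv_iff hP]
  refine not_liou (toPA_pa hP) hc fun n => ?_
  have h1 : (toPA (fun g => P g) hP.finite).coeff = P := by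
    ext g
    rfl
  unfold ent
  rw [pw_coeff, h1]
  exact h n

end Pool.Agent.H34.SW
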