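import Pool.Agent.H34.SW.W0

/-!
W1: counting windows. By `win_form` an element of the window is determined by `pos` (`2n+1` values), the
restriction of `A` to `[-3n, n]` (`4n+1` integers, at most `2 * 2^(3D)` values each: the sets
`{u : Kˣ | u^(2^D-1) = 1}` and `{x : K | x^(2^D) = x}` have at most `2^D` elements, as roots of
polynomials) and the restriction of `π` to `[-n, n]` (`2^(2n+1)`): for `z < -3n` there is at most one `j` with
`|z + 2^j| ≤ n`, but this is not even needed (the lamp is given by any such `j`).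
-/

namespace Pool.Agent.H34.SW

open Pool.Agent.H34.LS Filter

/-- the elements of the field with `2^D` elements. -/
private abbrev w1_Q (D : ℕ) : Type := {q : K // q ^ (2 ^ D) = q}

private theorem w1_fin (D : ℕ) (hD : 1 ≤ D) :
    Finite (w1_Q D) ∧ Nat.card (w1_Q D) ≤ 2 ^ D := by
  classical
  have h1 : 1 < 2 ^ D := Nat.one_lt_two_pow (by omega)
  have hne : (Polynomial.X ^ (2 ^ D) - Polynomial.X : Polynomial K) ≠ 0 :=
    FiniteField.X_pow_card_sub_X_ne_zero K h1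
  have hset : {q : K | q ^ (2 ^ D) = q} =
      (((Polynomial.X ^ (2 ^ D) - Polynomial.X : Polynomial K).roots.toFinset : Finset K) : Set K) := by
    ext q
    simp only [Set.mem_setOf_eq, Finset.mem_coe, Multiset.mem_toFinset, Polynomial.mem_roots hne,
      Polynomial.IsRoot.def, Polynomial.eval_sub, Polynomial.eval_pow, Polynomial.eval_X, sub_eq_zero]
  have hfin : ({q : K | q ^ (2 ^ D) = q}).Finite := by
    rw [hset]
    exact Finset.finite_toSet _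
  refine ⟨hfin, ?_⟩
  have h2 : Nat.card (w1_Q D) = ({q : K | q ^ (2 ^ D) = q}).ncard := rfl
  rw [h2, hset, Set.ncard_coe_finset]
  refine (Multiset.toFinset_card_le _).trans ?_
  refine (Polynomial.card_roots' _).trans ?_
  rw [FiniteField.X_pow_card_sub_X_natDegree_eq K h1]

private theorem w1_unit {D : ℕ} {u : Kˣ} (h : u ^ (2 ^ D - 1) = 1) : (u : K) ^ (2 ^ D) = u := by
  have h1 : 2 ^ D = (2 ^ D - 1) + 1 := (Nat.sub_add_cancel Nat.one_le_two_pow).symm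
  rw [h1, pow_succ]
  have h2 : (u : K) ^ (2 ^ D - 1) = 1 := by
    rw [← Units.val_pow_eq_pow_val, h, Units.val_one]
  rw [h2, one_mul]

/-- codes of the elements of the window. -/
private abbrev w1_C (n D : ℕ) : Type :=
  Fin (2 * n + 1) × (Fin (4 * n + 1) → Bool × w1_Q D × w1_Q D × w1_Q D) × (Fin (2 * n + 1) → Bool)

private theorem w1_card (n D : ℕ) (hD : 1 ≤ D) :
    Finite (w1_C n D) ∧ Nat.card (w1_C n D) ≤
      (2 * n + 1) * (2 * 2 ^ (3 * D)) ^ (4 * n + 1) * 2 ^ (2 * n + 1) := by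
  obtain ⟨hf, hc⟩ := w1_fin D hD
  refine ⟨inferInstance, ?_⟩
  have h1 : Nat.card (w1_C n D) = (2 * n + 1) *
      ((2 * (Nat.card (w1_Q D) * (Nat.card (w1_Q D) * Nat.card (w1_Q D)))) ^ (4 * n + 1) *
        2 ^ (2 * n + 1)) := by
    simp only [w1_C, Nat.card_prod, Nat.card_fun, Nat.card_eq_fintype_card, Fintype.card_fin,
      Fintype.card_bool, Fintype.card_fun]
  rw [h1, mul_assoc]
  refine Nat.mul_le_mul_left _ (Nat.mul_le_mul_right _ (Nat.pow_le_pow_left ?_ _))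
  refine Nat.mul_le_mul_left _ ?_
  have h3 : 2 ^ (3 * D) = 2 ^ D * (2 ^ D * 2 ^ D) := by
    rw [← pow_add, ← pow_add]
    congr 1
    ring
  rw [h3]
  exact Nat.mul_le_mul hc (Nat.mul_le_mul hc hc)

theorem win (θ : ℕ → Kˣ) (n D : ℕ) (hD : 1 ≤ D)
    (hθ : ∀ j, 2 ^ j ≤ 4 * n → θ j ^ (2 ^ D - 1) = 1) :
    (window hpos ({gt, ga, gb, gc θ} : Set WW) n).Finite ∧
    (window hpos ({gt, ga, gb, gc θ} : Set WW) n).ncard ≤
      (2 * n + 1) * (2 * 2 ^ (3 * D)) ^ (4 * n + 1) * 2 ^ (2 * n + 1) := by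
  classical
  obtain ⟨hCf, hCc⟩ := w1_card n D hD
  choose A π hw using fun x : (window hpos ({gt, ga, gb, gc θ} : Set WW) n) =>
    win_form θ n D hD hθ x.2
  have hzi : ∀ i : Fin (4 * n + 1), -(3 * (n : ℤ)) ≤ -(3 * (n : ℤ)) + (i : ℕ) ∧
      -(3 * (n : ℤ)) + (i : ℕ) ≤ n := by
    intro i
    have := i.2
    omega
  let f : (window hpos ({gt, ga, gb, gc θ} : Set WW) n) → w1_C n D := fun x =>
    (⟨(x.1.pos + n).toNat, by
        have h := abs_le.1 (hw x).1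
        omega⟩,
      fun i => ((A x (-(3 * (n : ℤ)) + (i : ℕ))).1,
        ⟨((A x (-(3 * (n : ℤ)) + (i : ℕ))).2.1 : K),
          w1_unit ((hw x).2.2.1 _ (hzi i).1 (hzi i).2).2.1⟩,
        ⟨(A x (-(3 * (n : ℤ)) + (i : ℕ))).2.2.1, ((hw x).2.2.1 _ (hzi i).1 (hzi i).2).2.2.1⟩,
        ⟨(A x (-(3 * (n : ℤ)) + (i : ℕ))).2.2.2, ((hw x).2.2.1 _ (hzi i).1 (hzi i).2).2.2.2⟩),
      fun i => π x (-(n : ℤ) + (i : ℕ)))
  have hf : Function.Injective f := by
    intro x y hxy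
    have e1 : ((x.1.pos + n).toNat : ℕ) = (y.1.pos + n).toNat := congrArg (fun c => (c.1 : ℕ)) hxy
    have e2 : ∀ i : Fin (4 * n + 1), (f x).2.1 i = (f y).2.1 i := fun i => by rw [hxy]
    have e3 : ∀ i : Fin (2 * n + 1), π x (-(n : ℤ) + (i : ℕ)) = π y (-(n : ℤ) + (i : ℕ)) := fun i =>
      congrArg (fun c : w1_C n D => c.2.2 i) hxy
    have hA : ∀ z : ℤ, -(3 * (n : ℤ)) ≤ z → z ≤ n → A x z = A y z := by
      intro z h1 h2
      have hi : (z + 3 * n).toNat < 4 * n + 1 := by omega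
      have hz : -(3 * (n : ℤ)) + (((⟨(z + 3 * n).toNat, hi⟩ : Fin (4 * n + 1)) : ℕ) : ℤ) = z := by
        show -(3 * (n : ℤ)) + (((z + 3 * n).toNat : ℕ) : ℤ) = z
        omega
      have h := e2 ⟨(z + 3 * n).toNat, hi⟩
      have k1 : (A x (-(3 * (n : ℤ)) + (((⟨(z + 3 * n).toNat, hi⟩ : Fin (4 * n + 1)) : ℕ) : ℤ))).1 =
          (A y (-(3 * (n : ℤ)) + (((⟨(z + 3 * n).toNat, hi⟩ : Fin (4 * n + 1)) : ℕ) : ℤ))).1 :=
        congrArg (fun c => c.1) h
      have k2 : ((A x (-(3 * (n : ℤ)) + (((⟨(z + 3 * n).toNat, hi⟩ : Fin (4 * n + 1)) : ℕ) : ℤ))).2.1 : K) =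
          ((A y (-(3 * (n : ℤ)) + (((⟨(z + 3 * n).toNat, hi⟩ : Fin (4 * n + 1)) : ℕ) : ℤ))).2.1 : K) :=
        congrArg (fun c => (c.2.1 : K)) h
      have k3 : (A x (-(3 * (n : ℤ)) + (((⟨(z + 3 * n).toNat, hi⟩ : Fin (4 * n + 1)) : ℕ) : ℤ))).2.2.1 =
          (A y (-(3 * (n : ℤ)) + (((⟨(z + 3 * n).toNat, hi⟩ : Fin (4 * n + 1)) : ℕ) : ℤ))).2.2.1 :=
        congrArg (fun c => (c.2.2.1 : K)) h
      have k4 : (A x (-(3 * (n : ℤ)) + (((⟨(z + 3 * n).toNat, hi⟩ : Fin (4 * n + 1)) : ℕ) : ℤ))).2.2.2 =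
          (A y (-(3 * (n : ℤ)) + (((⟨(z + 3 * n).toNat, hi⟩ : Fin (4 * n + 1)) : ℕ) : ℤ))).2.2.2 :=
        congrArg (fun c => (c.2.2.2 : K)) h
      rw [hz] at k1 k2 k3 k4
      exact Prod.ext k1 (Prod.ext (Units.ext k2) (Prod.ext k3 k4))
    have hP : ∀ z : ℤ, |z| ≤ (n : ℤ) → π x z = π y z := by
      intro z h1
      have h2 := abs_le.1 h1
      have hi : (z + n).toNat < 2 * n + 1 := by omega
      have h := e3 ⟨(z + n).toNat, hi⟩
      have hz : -(n : ℤ) + (((⟨(z + n).toNat, hi⟩ : Fin (2 * n + 1)) : ℕ) : ℤ) = z := by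
        show -(n : ℤ) + (((z + n).toNat : ℕ) : ℤ) = z
        omega
      rw [hz] at h
      exact h
    apply Subtype.ext
    apply WW.ext
    · funext z
      by_cases hz1 : (n : ℤ) < z
      · rw [(hw x).2.1 z hz1, (hw y).2.1 z hz1]
      by_cases hz2 : -(3 * (n : ℤ)) ≤ z
      · apply DFunLike.coe_injective
        rw [((hw x).2.2.1 z hz2 (by omega)).1, ((hw y).2.2.1 z hz2 (by omega)).1, hA z hz2 (by omega)]
      by_cases hj : ∃ j : ℕ, |z + 2 ^ j| ≤ (n : ℤ)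
      · obtain ⟨j, hj⟩ := hj
        rw [(hw x).2.2.2.1 z j (by omega) hj, (hw y).2.2.2.1 z j (by omega) hj, hP _ hj]
      · have hj' : ∀ j : ℕ, ¬ |z + 2 ^ j| ≤ (n : ℤ) := fun j h => hj ⟨j, h⟩
        rw [(hw x).2.2.2.2 z (by omega) hj', (hw y).2.2.2.2 z (by omega) hj']
    · have h1 := abs_le.1 (hw x).1
      have h2 := abs_le.1 (hw y).1
      omega
  have hfin : Finite (window hpos ({gt, ga, gb, gc θ} : Set WW) n) := Finite.of_injective f hf
  refine ⟨hfin, ?_⟩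
  rw [← Nat.card_coe_set_eq]
  exact (Nat.card_le_card_of_injective f hf).trans hCc

end Pool.Agent.H34.SW
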