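import Pool.Agent.H34.SW.A2
import Pool.Agent.H34.SW.B1
import Pool.Agent.H34.SW.B2
import Pool.Agent.H34.SW.F3
import Pool.Agent.H34.SW.N0
import Pool.Agent.H34.SW.N1
import Pool.Agent.H34.SW.N2
import Pool.Agent.H34.SW.W1
import Pool.Agent.H34.SW.T1
import Pool.Agent.H34.SW.Loc

/-!
Fin: assembly.
-/

namespace Pool.Agent.H34.SW

open Pool.Agent.H34.LS Filter

theorem params (s : ℕ) : ∃ D0 M : ℕ, 3 ≤ D0 ∧ 1 ≤ M ∧
    Summable (fun i => dl M i (Dd s D0 i / 4) (2 ^ (Dd s D0 i / 8)) (2 ^ (Dd s D0 i / 4))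
      (2 ^ Dd s D0 i - 1)) ∧
    Ai M 0 + ∑' i, dl M i (Dd s D0 i / 4) (2 ^ (Dd s D0 i / 8)) (2 ^ (Dd s D0 i / 4))
      (2 ^ Dd s D0 i - 1) ≤ 1 / 2 := by
  obtain ⟨D0, h3, ha⟩ := params_a s (show (0 : ℝ) < 1 / 4 by norm_num)
  obtain ⟨M, hM, hb1, hb2⟩ := params_b s D0 h3 (show (0 : ℝ) < 1 / 4 by norm_num)
  obtain ⟨ha1, ha2⟩ := ha M hM
  refine ⟨D0, M, h3, hM, hb1.add ha1, ?_⟩
  have h := hb1.tsum_add ha1
  have h' : ∑' i, dl M i (Dd s D0 i / 4) (2 ^ (Dd s D0 i / 8)) (2 ^ (Dd s D0 i / 4))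
      (2 ^ Dd s D0 i - 1) = _ := h
  rw [h']
  linarith

/-- the generators of the group. -/
noncomputable def gens (θ : ℕ → Kˣ) : Set WW := {gt, ga, gb, gc θ}

/-- the group. -/
noncomputable def GG (θ : ℕ → Kˣ) : Subgroup WW := Subgroup.closure (gens θ)

noncomputable def xt (θ : ℕ → Kˣ) : GG θ := ⟨gt, Subgroup.subset_closure (by simp [gens])⟩
noncomputable def xa (θ : ℕ → Kˣ) : GG θ := ⟨ga, Subgroup.subset_closure (by simp [gens])⟩
noncomputable def xb (θ : ℕ → Kˣ) : GG θ := ⟨gb, Subgroup.subset_closure (by simp [gens])⟩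
noncomputable def xc (θ : ℕ → Kˣ) : GG θ := ⟨gc θ, Subgroup.subset_closure (by simp [gens])⟩

/-- the generating set of `GG θ`. -/
noncomputable def gS (θ : ℕ → Kˣ) : Set (GG θ) := {xt θ, xa θ, xb θ, xc θ}

/-- the height. -/
noncomputable def hh (θ : ℕ → Kˣ) : GG θ →* Multiplicative ℤ := hpos.comp (GG θ).subtype

theorem gS_image (θ : ℕ → Kˣ) : (GG θ).subtype '' gS θ = gens θ := by
  simp only [gS, gens, Set.image_insert_eq, Set.image_singleton]
  rfl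

theorem gS_closure (θ : ℕ → Kˣ) : Subgroup.closure (gS θ) = ⊤ := by
  have h1 : (Subgroup.closure (gS θ)).map (GG θ).subtype = (⊤ : Subgroup (GG θ)).map (GG θ).subtype := by
    rw [MonoidHom.map_closure, gS_image, ← MonoidHom.range_eq_map, Subgroup.range_subtype]
    rfl
  exact Subgroup.map_injective (GG θ).subtype_injective h1

theorem gS_finite (θ : ℕ → Kˣ) : (gS θ).Finite := by
  unfold gS
  exact Set.toFinite _

theorem hh_xt (θ : ℕ → Kˣ) : hh θ (xt θ) = Multiplicative.ofAdd 1 := rfl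

theorem hh_surj (θ : ℕ → Kˣ) : Function.Surjective (hh θ) := by
  intro z
  refine ⟨xt θ ^ (Multiplicative.toAdd z), ?_⟩
  rw [map_zpow, hh_xt, ← ofAdd_zsmul, smul_eq_mul, mul_one, ofAdd_toAdd]

/-- windows of the subgroup embed into windows of `WW`. -/
theorem window_image (θ : ℕ → Kˣ) (n : ℕ) :
    (GG θ).subtype '' window (hh θ) (gS θ) n ⊆ window hpos (gens θ) n := by
  rintro _ ⟨g, ⟨l, h1, h2, h3⟩, rfl⟩
  refine ⟨l.map (GG θ).subtype, ?_, ?_, ?_⟩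
  · intro x hx
    obtain ⟨y, hy, rfl⟩ := List.mem_map.1 hx
    rw [← gS_image]
    rcases h1 y hy with h | h
    · exact Or.inl ⟨y, h, rfl⟩
    · refine Or.inr ⟨y⁻¹, h, ?_⟩
      rw [map_inv]
  · rw [← h2, map_list_prod]
  · intro k
    have := h3 k
    rw [← List.map_take, ← map_list_prod]
    exact this

theorem win_GG (θ : ℕ → Kˣ) (n D : ℕ) (hD : 1 ≤ D)
    (hθ : ∀ j, 2 ^ j ≤ 4 * n → θ j ^ (2 ^ D - 1) = 1) :
    (window (hh θ) (gS θ) n).Finite ∧ (window (hh θ) (gS θ) n).ncard ≤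
      (2 * n + 1) * (2 * 2 ^ (3 * D)) ^ (4 * n + 1) * 2 ^ (2 * n + 1) := by
  obtain ⟨h1, h2⟩ := win θ n D hD hθ
  have hinj : Set.InjOn (GG θ).subtype (window (hh θ) (gS θ) n) :=
    (GG θ).subtype_injective.injOn
  refine ⟨Set.Finite.of_finite_image (h1.subset (window_image θ n)) hinj, ?_⟩
  rw [← Set.InjOn.ncard_image hinj]
  exact (Set.ncard_le_ncard (window_image θ n) h1).trans h2

/-- local finiteness of the kernel. -/
theorem locfin (θ : ℕ → Kˣ) (hfin : ∀ n, (window (hh θ) (gS θ) n).Finite) :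
    LocFinByZ (GG θ) :=
  locfin_of (hh_surj θ) (gS_closure θ) hfin

theorem sharp (κ : ℝ) (hκ : 0 < κ) :
    ∃ (G : Type) (_ : Group G) (f : G →* Multiplicative ℤ) (S : Set G),
      LocFinByZ G ∧ Function.Surjective f ∧ S.Finite ∧ Subgroup.closure S = ⊤ ∧
      (∀ n, (window f S n).Finite) ∧
      (∀ᶠ n : ℕ in atTop, Real.log ((window f S n).ncard : ℝ) ≤
        κ * (n : ℝ) ^ 2 * Real.log (Real.log n)) ∧
      ∃ mu : G → ℝ, IsFSProb mu ∧ Generating mu ∧ Symm mu ∧ ¬ TrivialBoundary mu := by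
  obtain ⟨s, hs⟩ := growth hκ
  obtain ⟨D0, M, hD0, hM, hsum, hle⟩ := params s
  -- the fields
  have hU : ∀ D : ℕ, 1 ≤ D → ∃ U : Finset Kˣ, U.card = 2 ^ D - 1 ∧ ∀ u ∈ U, u ^ (2 ^ D - 1) = 1 := by
    intro D hD
    have h1 : 1 < 2 ^ D := Nat.one_lt_two_pow (by omega)
    have h4 : 0 < 2 ^ D - 1 := by omega
    have : NeZero (2 ^ D - 1) := ⟨h4.ne'⟩
    have : NeZero (((2 ^ D - 1 : ℕ) : ZMod 2)) := by
      refine ⟨?_⟩
      rw [Nat.cast_sub h1.le]
      push_cast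
      have h2 : (2 : ZMod 2) = 0 := rfl
      rw [h2, zero_pow (by omega)]
      decide
    have h3 : Nat.card (rootsOfUnity (2 ^ D - 1) K) = 2 ^ D - 1 :=
      HasEnoughRootsOfUnity.natCard_rootsOfUnity K (2 ^ D - 1)
    have h5 : ((rootsOfUnity (2 ^ D - 1) K : Subgroup Kˣ) : Set Kˣ).Finite := by
      refine Nat.finite_of_card_ne_zero ?_
      rw [SetLike.coe_sort_coe, h3]
      exact h4.ne'
    refine ⟨h5.toFinset, ?_, ?_⟩
    · rw [← Set.ncard_eq_toFinset_card _ h5, ← Nat.card_coe_set_eq]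
      exact h3
    · intro u hu
      rw [Set.Finite.mem_toFinset] at hu
      exact (mem_rootsOfUnity _ _).1 hu
  have hDd : ∀ i, 8 ≤ Dd s D0 i := by
    intro i
    have h1 : 3 ≤ dd s D0 i := hD0.trans (le_max_left _ _)
    calc 8 = 2 ^ 3 := by norm_num
      _ ≤ 2 ^ dd s D0 i := Nat.pow_le_pow_right (by norm_num) h1
  choose U hUc hUr using fun i => hU (Dd s D0 i) (by have := hDd i; omega)
  obtain ⟨θ, hθU, hθ⟩ := choose_all hM (fun i => Dd s D0 i / 4) (fun i => 2 ^ (Dd s D0 i / 8))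
    (fun i => 2 ^ (Dd s D0 i / 4)) (fun i => Nat.one_le_two_pow) U (fun i => by
      rw [← Finset.card_pos, hUc]
      have h1 : 1 < 2 ^ Dd s D0 i := Nat.one_lt_two_pow (by have := hDd i; omega)
      omega)
  have hθ' : ∀ i m, Pr M m (Rl θ i) ≤ dl M i (Dd s D0 i / 4) (2 ^ (Dd s D0 i / 8))
      (2 ^ (Dd s D0 i / 4)) (2 ^ Dd s D0 i - 1) := by
    intro i m
    have := hθ i m
    rwa [hUc] at this
  have hdep : ∀ m, Pr M m (Dep θ) ≤ 1 / 2 := fun m =>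
    (dep_prob hM θ _ hsum hθ' m).trans hle
  -- windows
  have hroot : ∀ n j : ℕ, 2 ^ j ≤ 4 * n →
      θ j ^ (2 ^ Dd s D0 (Nat.log 2 (4 * n)) - 1) = 1 := by
    intro n j hj
    have h1 : j ≤ Nat.log 2 (4 * n) := by
      refine Nat.le_log_of_pow_le (by norm_num) hj
    have h2 : (2 ^ Dd s D0 j - 1) ∣ (2 ^ Dd s D0 (Nat.log 2 (4 * n)) - 1) :=
      Nat.pow_sub_one_dvd_pow_sub_one 2 (Dd_dvd s D0 h1)
    obtain ⟨q, hq⟩ := h2
    rw [hq, pow_mul, hUr j (θ j) (hθU j), one_pow]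
  have hwin := fun n => win_GG θ n (Dd s D0 (Nat.log 2 (4 * n)))
    (by have := hDd (Nat.log 2 (4 * n)); omega) (hroot n)
  have hfin : ∀ n, (window (hh θ) (gS θ) n).Finite := fun n => (hwin n).1
  refine ⟨GG θ, inferInstance, hh θ, gS θ, locfin θ hfin, hh_surj θ, gS_finite θ, gS_closure θ,
    hfin, ?_, ?_⟩
  · filter_upwards [hs D0, eventually_ge_atTop 1] with n hn h1
    refine le_trans ?_ hn
    refine Real.log_le_log ?_ ?_
    · have : 0 < (window (hh θ) (gS θ) n).ncard := by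
        rw [Set.ncard_pos (hfin n)]
        refine ⟨1, [], ?_, rfl, ?_⟩
        · intro x hx
          exact absurd hx List.not_mem_nil
        · intro k
          simp
      exact_mod_cast this
    · exact_mod_cast (hwin n).2
  -- the measure
  have ha : xa θ * xa θ = 1 := Subtype.ext ga_sq
  have hb : xb θ * xb θ = 1 := Subtype.ext gb_sq
  have hc : xc θ * xc θ = 1 := Subtype.ext (gc_sq θ)
  have hbc : xb θ * xc θ = xc θ * xb θ := Subtype.ext (gb_gc θ)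
  refine ⟨fun g => PP M (xt θ) (xa θ) (xb θ) (xc θ) g, pp_fs, pp_gen hM ha hb hc (gS_closure θ),
    pp_symm ha hb hc hbc, ?_⟩
  refine not_trivial pp_fs (c := Real.log 2 / ((M : ℝ) + 1) * (1 / 2)) ?_ ?_
  · have := Real.log_pos (show (1 : ℝ) < 2 by norm_num)
    positivity
  intro n
  refine le_trans ?_ (fent_pw_ge ha n)
  have hk : ∀ k, 1 / 2 ≤ Pr M k (Disj (xt θ) (xa θ) (xb θ) (xc θ)) := by
    intro k
    have h1 : Pr M k (fun w => ¬ Dep θ w) ≤ Pr M k (Disj (xt θ) (xa θ) (xb θ) (xc θ)) :=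
      pr_mono k fun w _ hw x hx => sup θ (GG θ).subtype rfl rfl rfl rfl w hw x hx
    rw [pr_not] at h1
    have := hdep k
    linarith
  have h2 : (1 / 2 : ℝ) * n ≤ ∑ k ∈ Finset.range n, Pr M k (Disj (xt θ) (xa θ) (xb θ) (xc θ)) := by
    calc (1 / 2 : ℝ) * n = ∑ k ∈ Finset.range n, (1 / 2 : ℝ) := by
          rw [Finset.sum_const, Finset.card_range, nsmul_eq_mul, mul_comm]
      _ ≤ _ := Finset.sum_le_sum fun k _ => hk k
  have h3 : 0 ≤ Real.log 2 / ((M : ℝ) + 1) := by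
    have := Real.log_pos (show (1 : ℝ) < 2 by norm_num)
    positivity
  calc Real.log 2 / ((M : ℝ) + 1) * (1 / 2) * n = Real.log 2 / ((M : ℝ) + 1) * (1 / 2 * n) := by ring
    _ ≤ _ := mul_le_mul_of_nonneg_left h2 h3

end Pool.Agent.H34.SW
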