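import Pool.Agent.H34.SW.A1
import Pool.Agent.H34.LS.Win

/-!
W0: the form of the elements of a window. Let `p` be a prefix-bounded word (heights in `[-n, n]`),
`x = p.prod`. The lamp of `x` at `z`:
trivial for `z > n`; for `-3n ≤ z ≤ n` it is `aff s u q` (as a function) with `u^(2^D-1) = 1`,
`q.1^(2^D) = q.1`, `q.2^(2^D) = q.2` (the letters `a`, `b` act at `y = z`, `c` at `y = z + 2^j ≤ n`, so
`2^j ≤ 4n`); for `z < -3n` there is at most one `j` with `-n ≤ z + 2^j ≤ n` and the lamp is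
`rr (θ j)` if `π (z + 2^j)` and `1` otherwise, `π y` = parity of the number of letters `c` used at position `y`
(`rr u * rr u = 1`); it is `1` if there is no such `j`. Extend a word by a letter on the right
(`List.reverseRecOn`); letters `gt⁻¹`, `ga⁻¹ = ga` etc.
`aff s u p ∘ tau = aff s u (p + (u, u⁻¹))`, `aff s u p ∘ sw = aff (!s) u p`,
`aff s u p ∘ rr x = aff (!s) (if s then u * x else u * x⁻¹) p`; sums stay in the field by
`add_pow_char_pow` (characteristic two).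
-/

namespace Pool.Agent.H34.SW

open Pool.Agent.H34.LS Filter

/-- the form of the elements of the window of half-width `n`. -/
def WForm (θ : ℕ → Kˣ) (n D : ℕ) (A : ℤ → Bool × Kˣ × (K × K)) (π : ℤ → Bool) (x : WW) : Prop :=
  |x.pos| ≤ (n : ℤ) ∧ (∀ z, (n : ℤ) < z → x.lamp z = 1) ∧
  (∀ z, -(3 * (n : ℤ)) ≤ z → z ≤ n → (⇑(x.lamp z) : K × K → K × K) = aff (A z).1 (A z).2.1 (A z).2.2 ∧
    (A z).2.1 ^ (2 ^ D - 1) = 1 ∧ (A z).2.2.1 ^ (2 ^ D) = (A z).2.2.1 ∧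
    (A z).2.2.2 ^ (2 ^ D) = (A z).2.2.2) ∧
  (∀ (z : ℤ) (j : ℕ), z < -(3 * (n : ℤ)) → |z + 2 ^ j| ≤ (n : ℤ) →
    x.lamp z = if π (z + 2 ^ j) then rr (θ j) else 1) ∧
  (∀ z : ℤ, z < -(3 * (n : ℤ)) → (∀ j : ℕ, ¬ |z + 2 ^ j| ≤ (n : ℤ)) → x.lamp z = 1)

/-! ### Affine maps -/

private theorem w0_aff_tau (s : Bool) (u : Kˣ) (p v : K × K) :
    aff s u p (tau v) = aff s u (p + ((u : K), ((u⁻¹ : Kˣ) : K))) v := by
  have h : tau v = (v.1 + 1, v.2 + 1) := rfl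
  rw [h]
  unfold aff
  cases s
  · simp only [Bool.false_eq_true, if_false]
    ext
    · show (u : K) * (v.1 + 1) + p.1 = (u : K) * v.1 + (p.1 + u)
      ring
    · show ((u⁻¹ : Kˣ) : K) * (v.2 + 1) + p.2 = ((u⁻¹ : Kˣ) : K) * v.2 + (p.2 + ((u⁻¹ : Kˣ) : K))
      ring
  · simp only [if_true]
    ext
    · show (u : K) * (v.2 + 1) + p.1 = (u : K) * v.2 + (p.1 + u)
      ring
    · show ((u⁻¹ : Kˣ) : K) * (v.1 + 1) + p.2 = ((u⁻¹ : Kˣ) : K) * v.1 + (p.2 + ((u⁻¹ : Kˣ) : K))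
      ring

private theorem w0_aff_sw (s : Bool) (u : Kˣ) (p v : K × K) :
    aff s u p (sw v) = aff (!s) u p v := by
  have h : sw v = (v.2, v.1) := rfl
  rw [h]
  unfold aff
  cases s <;> simp

private theorem w0_aff_rr (s : Bool) (u x : Kˣ) (p v : K × K) :
    aff s u p (rr x v) = aff (!s) (if s then u * x else u * x⁻¹) p v := by
  have h : rr x v = ((x⁻¹ : Kˣ) * v.2, (x : K) * v.1) := rfl
  rw [h]
  unfold aff
  cases s
  · simp only [Bool.false_eq_true, if_false, Bool.not_false, if_true]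
    congr 1
    ext
    · show (u : K) * (((x⁻¹ : Kˣ) : K) * v.2) = ((u * x⁻¹ : Kˣ) : K) * v.2
      rw [Units.val_mul, mul_assoc]
    · show ((u⁻¹ : Kˣ) : K) * ((x : K) * v.1) = (((u * x⁻¹)⁻¹ : Kˣ) : K) * v.1
      rw [mul_inv, inv_inv, Units.val_mul, mul_assoc]
  · simp only [if_true, Bool.not_true, Bool.false_eq_true, if_false]
    congr 1
    ext
    · show (u : K) * ((x : K) * v.1) = ((u * x : Kˣ) : K) * v.1
      rw [Units.val_mul, mul_assoc]
    · show ((u⁻¹ : Kˣ) : K) * (((x⁻¹ : Kˣ) : K) * v.2) = (((u * x)⁻¹ : Kˣ) : K) * v.2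
      rw [mul_inv, Units.val_mul, mul_assoc]

private theorem w0_rr_rr (x : Kˣ) : rr x * rr x = 1 := by
  apply Equiv.ext
  intro v
  show ((x⁻¹ : Kˣ) * ((x : K) * v.1), (x : K) * ((x⁻¹ : Kˣ) * v.2)) = v
  simp

private theorem w0_pow_val {D : ℕ} {u : Kˣ} (hu : u ^ (2 ^ D - 1) = 1) :
    (u : K) ^ (2 ^ D) = u := by
  have h : 2 ^ D = (2 ^ D - 1) + 1 := (Nat.sub_add_cancel Nat.one_le_two_pow).symm
  rw [h, pow_succ, ← Units.val_pow_eq_pow_val, hu, Units.val_one, one_mul]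

private theorem w0_pow_inv {D : ℕ} {u : Kˣ} (hu : u ^ (2 ^ D - 1) = 1) :
    ((u⁻¹ : Kˣ) : K) ^ (2 ^ D) = ((u⁻¹ : Kˣ) : K) := by
  apply w0_pow_val
  rw [inv_pow, hu, inv_one]

private theorem w0_add_pow {D : ℕ} {a b : K} (ha : a ^ (2 ^ D) = a) (hb : b ^ (2 ^ D) = b) :
    (a + b) ^ (2 ^ D) = a + b := by
  haveI : CharP K 2 := charP_of_injective_algebraMap (algebraMap (ZMod 2) K).injective 2
  haveI : Fact (Nat.Prime 2) := ⟨Nat.prime_two⟩
  rw [add_pow_char_pow, ha, hb]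

/-! ### The form -/

/-- the form of one lamp. -/
private def w0_Lf (D : ℕ) (g : Equiv.Perm (K × K)) (a : Bool × Kˣ × (K × K)) : Prop :=
  (⇑g : K × K → K × K) = aff a.1 a.2.1 a.2.2 ∧ a.2.1 ^ (2 ^ D - 1) = 1 ∧
    a.2.2.1 ^ (2 ^ D) = a.2.2.1 ∧ a.2.2.2 ^ (2 ^ D) = a.2.2.2

private theorem w0_Lf_one (D : ℕ) : w0_Lf D 1 (false, 1, 0) := by
  refine ⟨?_, one_pow _, ?_, ?_⟩
  · funext v
    show v = aff false 1 0 v
    unfold aff
    simp
  · show (0 : K) ^ (2 ^ D) = 0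
    exact zero_pow (by positivity)
  · show (0 : K) ^ (2 ^ D) = 0
    exact zero_pow (by positivity)

private theorem w0_Lf_tau {D : ℕ} {g : Equiv.Perm (K × K)} {a : Bool × Kˣ × (K × K)}
    (h : w0_Lf D g a) : ∃ a', w0_Lf D (g * tau) a' := by
  obtain ⟨h1, h2, h3, h4⟩ := h
  refine ⟨(a.1, a.2.1, a.2.2 + ((a.2.1 : K), ((a.2.1⁻¹ : Kˣ) : K))), ?_, h2, ?_, ?_⟩
  · funext v
    show g (tau v) = _
    rw [h1, w0_aff_tau]
  · exact w0_add_pow h3 (w0_pow_val h2)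
  · exact w0_add_pow h4 (w0_pow_inv h2)

private theorem w0_Lf_sw {D : ℕ} {g : Equiv.Perm (K × K)} {a : Bool × Kˣ × (K × K)}
    (h : w0_Lf D g a) : ∃ a', w0_Lf D (g * sw) a' := by
  obtain ⟨h1, h2, h3, h4⟩ := h
  refine ⟨(!a.1, a.2.1, a.2.2), ?_, h2, h3, h4⟩
  funext v
  show g (sw v) = _
  rw [h1, w0_aff_sw]

private theorem w0_Lf_rr {D : ℕ} {g : Equiv.Perm (K × K)} {a : Bool × Kˣ × (K × K)} {x : Kˣ}
    (hx : x ^ (2 ^ D - 1) = 1) (h : w0_Lf D g a) : ∃ a', w0_Lf D (g * rr x) a' := by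
  obtain ⟨h1, h2, h3, h4⟩ := h
  refine ⟨(!a.1, if a.1 then a.2.1 * x else a.2.1 * x⁻¹, a.2.2), ?_, ?_, h3, h4⟩
  · funext v
    show g (rr x v) = _
    rw [h1, w0_aff_rr]
  · show (if a.1 then a.2.1 * x else a.2.1 * x⁻¹) ^ (2 ^ D - 1) = 1
    split_ifs
    · rw [mul_pow, h2, hx, mul_one]
    · rw [mul_pow, h2, inv_pow, hx, inv_one, mul_one]

/-- one letter: the new lamps have the form near the window, and the lamps far away are given. -/
private theorem w0_core {θ : ℕ → Kˣ} {n D : ℕ} {x y : WW}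
    {A : ℤ → Bool × Kˣ × (K × K)} {π π' : ℤ → Bool} (hf : WForm θ n D A π x)
    (hp : |y.pos| ≤ (n : ℤ))
    (h1 : ∀ z, (n : ℤ) < z → y.lamp z = x.lamp z)
    (h2 : ∀ z, -(3 * (n : ℤ)) ≤ z → z ≤ n → ∃ a', w0_Lf D (y.lamp z) a')
    (h3 : ∀ (z : ℤ) (j : ℕ), z < -(3 * (n : ℤ)) → |z + 2 ^ j| ≤ (n : ℤ) →
      y.lamp z = if π' (z + 2 ^ j) then rr (θ j) else 1)
    (h4 : ∀ z : ℤ, z < -(3 * (n : ℤ)) → (∀ j : ℕ, ¬ |z + 2 ^ j| ≤ (n : ℤ)) →
      y.lamp z = x.lamp z) :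
    ∃ (A' : ℤ → Bool × Kˣ × (K × K)) (π'' : ℤ → Bool), WForm θ n D A' π'' y := by
  classical
  obtain ⟨f1, f2, f3, f4, f5⟩ := hf
  have h2' : ∀ z, ∃ a', (-(3 * (n : ℤ)) ≤ z → z ≤ n → w0_Lf D (y.lamp z) a') := by
    intro z
    by_cases hz : -(3 * (n : ℤ)) ≤ z ∧ z ≤ n
    · obtain ⟨a', ha'⟩ := h2 z hz.1 hz.2
      exact ⟨a', fun _ _ => ha'⟩
    · exact ⟨(false, 1, 0), fun a b => absurd ⟨a, b⟩ hz⟩
  choose A' hA' using h2'
  refine ⟨A', π', hp, fun z hz => ?_, fun z hz1 hz2 => hA' z hz1 hz2, h3, fun z hz hj => ?_⟩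
  · rw [h1 z hz, f2 z hz]
  · rw [h4 z hz hj, f5 z hz hj]

/-- the special point is unique far away. -/
private theorem w0_unique {n : ℕ} {z : ℤ} {i j : ℕ} (hz : z < -(3 * (n : ℤ)))
    (hi : |z + 2 ^ i| ≤ (n : ℤ)) (hj : |z + 2 ^ j| ≤ (n : ℤ)) : i = j := by
  rcases lt_trichotomy i j with h | h | h
  · exfalso
    have h1 : (2 : ℤ) ^ (i + 1) ≤ 2 ^ j := pow_le_pow_right₀ (by norm_num) h
    rw [pow_succ] at h1
    rw [abs_le] at hi hj
    obtain ⟨a, b⟩ := hi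
    obtain ⟨c, d⟩ := hj
    omega
  · exact h
  · exfalso
    have h1 : (2 : ℤ) ^ (j + 1) ≤ 2 ^ i := pow_le_pow_right₀ (by norm_num) h
    rw [pow_succ] at h1
    rw [abs_le] at hi hj
    obtain ⟨a, b⟩ := hi
    obtain ⟨c, d⟩ := hj
    omega

private theorem w0_step_t {θ : ℕ → Kˣ} {n D : ℕ} {x g : WW}
    {A : ℤ → Bool × Kˣ × (K × K)} {π : ℤ → Bool} (hf : WForm θ n D A π x)
    (hg : ∀ z, g.lamp z = 1) (hp : |(x * g).pos| ≤ (n : ℤ)) :
    ∃ (A' : ℤ → Bool × Kˣ × (K × K)) (π' : ℤ → Bool), WForm θ n D A' π' (x * g) := by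
  have hl : ∀ z, (x * g).lamp z = x.lamp z := fun z => by rw [ww_mul_lamp, hg, mul_one]
  refine ⟨A, π, hp, fun z hz => ?_, fun z hz1 hz2 => ?_, fun z j hz hj => ?_,
    fun z hz hj => ?_⟩
  · rw [hl, hf.2.1 z hz]
  · rw [hl]
    exact hf.2.2.1 z hz1 hz2
  · rw [hl, hf.2.2.2.1 z j hz hj]
  · rw [hl, hf.2.2.2.2 z hz hj]

private theorem w0_step_0 {θ : ℕ → Kˣ} {n D : ℕ} {x g : WW}
    {A : ℤ → Bool × Kˣ × (K × K)} {π : ℤ → Bool} (hf : WForm θ n D A π x)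
    (hg : ∀ z, z ≠ 0 → g.lamp z = 1)
    (hg0 : ∀ (q : Equiv.Perm (K × K)) (a : Bool × Kˣ × (K × K)), w0_Lf D q a →
      ∃ a', w0_Lf D (q * g.lamp 0) a')
    (hp : |(x * g).pos| ≤ (n : ℤ)) :
    ∃ (A' : ℤ → Bool × Kˣ × (K × K)) (π' : ℤ → Bool), WForm θ n D A' π' (x * g) := by
  have hx := abs_le.1 hf.1
  have hn : ∀ z, z ≠ x.pos → (x * g).lamp z = x.lamp z := fun z hz => by
    rw [ww_mul_lamp, hg _ (sub_ne_zero.2 hz), mul_one]
  have n0 : (0 : ℤ) ≤ n := Int.natCast_nonneg n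
  refine w0_core hf hp (π' := π) (fun z hz => hn z (by omega)) (fun z hz1 hz2 => ?_)
    (fun z j hz hj => ?_) (fun z hz hj => hn z (by omega))
  · by_cases h : z = x.pos
    · rw [ww_mul_lamp, h, sub_self]
      exact hg0 _ _ (by
        have := hf.2.2.1 z hz1 hz2
        rw [h] at this
        exact this)
    · rw [hn z h]
      exact ⟨_, hf.2.2.1 z hz1 hz2⟩
  · rw [hn z (by omega), hf.2.2.2.1 z j hz hj]

private theorem w0_step_c {θ : ℕ → Kˣ} {n D : ℕ}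
    (hθ : ∀ j, 2 ^ j ≤ 4 * n → θ j ^ (2 ^ D - 1) = 1) {x : WW}
    {A : ℤ → Bool × Kˣ × (K × K)} {π : ℤ → Bool} (hf : WForm θ n D A π x)
    (hp : |(x * gc θ).pos| ≤ (n : ℤ)) :
    ∃ (A' : ℤ → Bool × Kˣ × (K × K)) (π' : ℤ → Bool), WForm θ n D A' π' (x * gc θ) := by
  classical
  have hx := abs_le.1 hf.1
  have n0 : (0 : ℤ) ≤ n := Int.natCast_nonneg n
  have hn : ∀ z, (∀ j : ℕ, z + 2 ^ j ≠ x.pos) → (x * gc θ).lamp z = x.lamp z := fun z hz => by
    rw [ww_mul_lamp, gc_lamp_ne θ (fun j hj => hz j (by linarith)), mul_one]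
  have he : ∀ (z : ℤ) (j : ℕ), z + 2 ^ j = x.pos → (x * gc θ).lamp z = x.lamp z * rr (θ j) :=
    fun z j hz => by
      have h1 : z - x.pos = -2 ^ j := by linarith
      rw [ww_mul_lamp, h1, gc_lamp_pow]
  have hpw : ∀ j : ℕ, (0 : ℤ) < 2 ^ j := fun j => by positivity
  refine w0_core hf hp (π' := Function.update π x.pos (!π x.pos))
    (fun z hz => hn z (fun j hj => ?_)) (fun z hz1 hz2 => ?_)
    (fun z j hz hj => ?_) (fun z hz hj => hn z (fun j h => ?_))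
  · have := hpw j
    omega
  · by_cases h : ∃ j : ℕ, z + 2 ^ j = x.pos
    · obtain ⟨j, hj⟩ := h
      rw [he z j hj]
      refine w0_Lf_rr (hθ j ?_) (hf.2.2.1 z hz1 hz2)
      have h1 : (2 : ℤ) ^ j ≤ 4 * n := by omega
      exact_mod_cast h1
    · push Not at h
      rw [hn z h]
      exact ⟨_, hf.2.2.1 z hz1 hz2⟩
  · have hl := hf.2.2.2.1 z j hz hj
    by_cases h : z + 2 ^ j = x.pos
    · rw [he z j h, hl, h, Function.update_self]
      cases hb : π x.pos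
      · simp
      · simp [w0_rr_rr]
    · rw [Function.update_of_ne h, hn z (fun i hi => ?_), hl]
      have h1 : i = j := w0_unique hz (by rw [hi]; exact hf.1) hj
      rw [h1] at hi
      exact h hi
  · exact hj j (by rw [h]; exact hf.1)

private theorem w0_base (θ : ℕ → Kˣ) (n D : ℕ) :
    WForm θ n D (fun _ => (false, 1, 0)) (fun _ => false) 1 := by
  refine ⟨by rw [ww_one_pos]; simp, fun z _ => ww_one_lamp z, fun z _ _ => ?_, fun z j _ _ => ?_,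
    fun z _ _ => ww_one_lamp z⟩
  · rw [ww_one_lamp]
    exact w0_Lf_one D
  · rw [ww_one_lamp]
    simp

theorem win_form (θ : ℕ → Kˣ) (n D : ℕ) (hD : 1 ≤ D)
    (hθ : ∀ j, 2 ^ j ≤ 4 * n → θ j ^ (2 ^ D - 1) = 1) {x : WW}
    (hx : x ∈ window hpos ({gt, ga, gb, gc θ} : Set WW) n) :
    ∃ (A : ℤ → Bool × Kˣ × (K × K)) (π : ℤ → Bool), WForm θ n D A π x := by
  obtain ⟨l, hl, rfl, hb⟩ := hx
  have key : ∀ l : List WW, (∀ x ∈ l, x ∈ ({gt, ga, gb, gc θ} : Set WW) ∨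
      x⁻¹ ∈ ({gt, ga, gb, gc θ} : Set WW)) →
      (∀ k : ℕ, |Multiplicative.toAdd (hpos ((l.take k).prod))| ≤ (n : ℤ)) →
      ∃ (A : ℤ → Bool × Kˣ × (K × K)) (π : ℤ → Bool), WForm θ n D A π l.prod := by
    intro l
    induction l using List.reverseRecOn with
    | nil =>
      intro _ _
      exact ⟨_, _, w0_base θ n D⟩
    | append_singleton l g ih =>
      intro h1 h2
      obtain ⟨A, π, hf⟩ := ih (fun x hx => h1 x (List.mem_append_left _ hx)) (fun k => by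
        rcases le_or_gt k l.length with hk | hk
        · have := h2 k
          rwa [List.take_append_of_le_length hk] at this
        · have := h2 l.length
          rw [List.take_append_of_le_length le_rfl, List.take_length] at this
          rwa [List.take_of_length_le hk.le])
      have hp : |(l.prod * g).pos| ≤ (n : ℤ) := by
        have := h2 (l.length + 1)
        rw [List.take_of_length_le (by simp), List.prod_append, List.prod_singleton] at this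
        exact this
      rw [List.prod_append, List.prod_singleton]
      have hga : ga⁻¹ = ga := inv_eq_of_mul_eq_one_left ga_sq
      have hgb : gb⁻¹ = gb := inv_eq_of_mul_eq_one_left gb_sq
      have hgc : (gc θ)⁻¹ = gc θ := inv_eq_of_mul_eq_one_left (gc_sq θ)
      have hg : g = gt ∨ g = gt⁻¹ ∨ g = ga ∨ g = gb ∨ g = gc θ := by
        rcases h1 g (by simp) with h | h
        · simp only [Set.mem_insert_iff, Set.mem_singleton_iff] at h
          tauto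
        · simp only [Set.mem_insert_iff, Set.mem_singleton_iff] at h
          rcases h with h | h | h | h
          · exact Or.inr (Or.inl (inv_eq_iff_eq_inv.1 h))
          · exact Or.inr (Or.inr (Or.inl ((inv_eq_iff_eq_inv.1 h).trans hga)))
          · exact Or.inr (Or.inr (Or.inr (Or.inl ((inv_eq_iff_eq_inv.1 h).trans hgb))))
          · exact Or.inr (Or.inr (Or.inr (Or.inr ((inv_eq_iff_eq_inv.1 h).trans hgc))))
      rcases hg with rfl | rfl | rfl | rfl | rfl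
      · exact w0_step_t hf (fun z => rfl) hp
      · exact w0_step_t hf (fun z => by rw [ww_inv_lamp]; exact inv_one) hp
      · exact w0_step_0 hf (fun z hz => ga_lamp_ne hz) (fun q a h => by
          rw [ga_lamp_zero]
          exact w0_Lf_tau h) hp
      · exact w0_step_0 hf (fun z hz => gb_lamp_ne hz) (fun q a h => by
          rw [gb_lamp_zero]
          exact w0_Lf_sw h) hp
      · exact w0_step_c hθ hf hp
  exact key l hl hb

end Pool.Agent.H34.SW
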