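import Pool.Agent.H34.SW.Defs

/-!
X1: basic facts on `av` and `Ex`.
-/

namespace Pool.Agent.H34.SW

open Pool.Agent.H34.LS Filter

variable {M : ℕ}

private theorem x1_card : ((Finset.univ : Finset (Lt M)).card : ℝ) = 32 * ((M : ℝ) + 1) := by
  rw [Finset.card_univ]
  simp only [Fintype.card_prod, Fintype.card_fin, Fintype.card_bool]
  push_cast
  ring

private theorem x1_pos : (0 : ℝ) < 32 * ((M : ℝ) + 1) := by positivity

theorem av_const (c : ℝ) : av (fun _ : Lt M => c) = c := by
  have h := x1_pos (M := M)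
  unfold av
  rw [Finset.sum_const, nsmul_eq_mul, x1_card]
  field_simp

theorem av_mono {F F' : Lt M → ℝ} (h : ∀ l, F l ≤ F' l) : av F ≤ av F' := by
  unfold av
  exact div_le_div_of_nonneg_right (Finset.sum_le_sum fun l _ => h l) x1_pos.le

theorem av_add (F F' : Lt M → ℝ) : av (fun l => F l + F' l) = av F + av F' := by
  unfold av
  rw [Finset.sum_add_distrib, add_div]

theorem av_mul (c : ℝ) (F : Lt M → ℝ) : av (fun l => c * F l) = c * av F := by
  unfold av
  rw [← Finset.mul_sum, mul_div_assoc]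

private theorem x1_iter (F : Lt M → ℝ) :
    av F = (∑ x : Fin (M + 1), ∑ up : Bool, (∑ q : Bool × Bool, ∑ q' : Bool × Bool,
      F (x, q, up, q')) / 16) / (2 * ((M : ℝ) + 1)) := by
  have h1 : ∑ l : Lt M, F l = ∑ x : Fin (M + 1), ∑ up : Bool, ∑ q : Bool × Bool,
      ∑ q' : Bool × Bool, F (x, q, up, q') := by
    rw [Fintype.sum_prod_type]
    refine Finset.sum_congr rfl fun x _ => ?_
    rw [Fintype.sum_prod_type, Finset.sum_comm]
    rw [Fintype.sum_prod_type]
    rw [Finset.sum_congr rfl fun up _ => Finset.sum_comm]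
  unfold av
  rw [h1]
  have h2 : ∀ x : Fin (M + 1), ∑ up : Bool, (∑ q : Bool × Bool, ∑ q' : Bool × Bool,
      F (x, q, up, q')) / 16 = (∑ up : Bool, ∑ q : Bool × Bool, ∑ q' : Bool × Bool,
      F (x, q, up, q')) / 16 := fun x => (Finset.sum_div _ _ _).symm
  rw [Finset.sum_congr rfl fun x _ => h2 x, ← Finset.sum_div, div_div]
  congr 1
  ring

/-- the probability of a slot is `1 / (M + 1)`. -/
theorem av_slot (c : ℝ) : av (fun l : Lt M => if l.1 = 0 then c else 0) = c / (M + 1) := by
  rw [x1_iter]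
  have h1 : ∀ x : Fin (M + 1), ∑ _up : Bool, (∑ _q : Bool × Bool, ∑ _q' : Bool × Bool,
      (if x = 0 then c else 0)) / 16 = if x = 0 then 2 * c else 0 := by
    intro x
    simp only [Finset.sum_const, Finset.card_univ, Fintype.card_prod, Fintype.card_bool,
      nsmul_eq_mul]
    split_ifs
    · push_cast
      ring
    · simp
  simp only [h1]
  rw [Finset.sum_ite_eq' Finset.univ (0 : Fin (M + 1)), if_pos (Finset.mem_univ _)]
  have h : ((M : ℝ) + 1) ≠ 0 := by positivity
  field_simp

/-- `av` as an iterated average over the first component, the direction and the four coins. -/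
theorem av_iter (F : Lt M → ℝ) :
    av F = (∑ x : Fin (M + 1), ∑ up : Bool, (∑ q : Bool × Bool, ∑ q' : Bool × Bool,
      F (x, q, up, q')) / 16) / (2 * ((M : ℝ) + 1)) := by
  exact x1_iter F

theorem ex_const (n : ℕ) (c : ℝ) : Ex M n (fun _ => c) = c := by
  induction n with
  | zero => rfl
  | succ n ih =>
    show av (fun _ : Lt M => Ex M n (fun _ => c)) = c
    rw [ih, av_const]

theorem ex_mono (n : ℕ) {F F' : List (Lt M) → ℝ} (h : ∀ w, w.length = n → F w ≤ F' w) :
    Ex M n F ≤ Ex M n F' := by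
  induction n generalizing F F' with
  | zero => exact h [] rfl
  | succ n ih =>
    refine av_mono fun l => ih fun w hw => h (l :: w) ?_
    rw [List.length_cons, hw]

theorem ex_congr (n : ℕ) {F F' : List (Lt M) → ℝ} (h : ∀ w, w.length = n → F w = F' w) :
    Ex M n F = Ex M n F' := by
  exact le_antisymm (ex_mono n fun w hw => (h w hw).le) (ex_mono n fun w hw => (h w hw).ge)

theorem ex_nonneg (n : ℕ) {F : List (Lt M) → ℝ} (h : ∀ w, 0 ≤ F w) : 0 ≤ Ex M n F := by
  have h1 : Ex M n (fun _ => (0 : ℝ)) ≤ Ex M n F := ex_mono n fun w _ => h w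
  rwa [ex_const] at h1

theorem ex_add (n : ℕ) (F F' : List (Lt M) → ℝ) :
    Ex M n (fun w => F w + F' w) = Ex M n F + Ex M n F' := by
  induction n generalizing F F' with
  | zero => rfl
  | succ n ih =>
    show av (fun l => Ex M n (fun w => F (l :: w) + F' (l :: w))) =
      av (fun l => Ex M n (fun w => F (l :: w))) + av (fun l => Ex M n (fun w => F' (l :: w)))
    rw [← av_add]
    congr 1
    funext l
    exact ih _ _

theorem ex_mul (n : ℕ) (c : ℝ) (F : List (Lt M) → ℝ) :
    Ex M n (fun w => c * F w) = c * Ex M n F := by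
  induction n generalizing F with
  | zero => rfl
  | succ n ih =>
    show av (fun l => Ex M n (fun w => c * F (l :: w))) =
      c * av (fun l => Ex M n (fun w => F (l :: w)))
    rw [← av_mul]
    congr 1
    funext l
    exact ih _

theorem ex_sum {ι : Type*} (s : Finset ι) (n : ℕ) (F : ι → List (Lt M) → ℝ) :
    Ex M n (fun w => ∑ i ∈ s, F i w) = ∑ i ∈ s, Ex M n (F i) := by
  classical
  induction s using Finset.induction_on with
  | empty =>
    simp only [Finset.sum_empty]
    exact ex_const n 0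
  | insert a s ha ih =>
    rw [Finset.sum_insert ha, ← ih, ← ex_add]
    exact ex_congr n fun w _ => Finset.sum_insert ha

theorem ex_back (n : ℕ) (F : List (Lt M) → ℝ) :
    Ex M (n + 1) F = Ex M n (fun w => av (fun l => F (w ++ [l]))) := by
  induction n generalizing F with
  | zero => rfl
  | succ n ih =>
    show av (fun l => Ex M (n + 1) (fun w => F (l :: w))) =
      av (fun l => Ex M n (fun w => av (fun l' => F ((l :: w) ++ [l']))))
    congr 1
    funext l
    rw [ih]
    rfl

theorem pr_le_one (n : ℕ) (A : List (Lt M) → Prop) : Pr M n A ≤ 1 := by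
  classical
  have h1 : Pr M n A ≤ Ex M n (fun _ => (1 : ℝ)) := by
    refine ex_mono n fun w _ => ?_
    split_ifs
    · exact le_rfl
    · exact zero_le_one
  rwa [ex_const] at h1

theorem pr_nonneg (n : ℕ) (A : List (Lt M) → Prop) : 0 ≤ Pr M n A := by
  refine ex_nonneg n fun w => ?_
  split_ifs
  · exact zero_le_one
  · exact le_rfl

theorem pr_mono (n : ℕ) {A B : List (Lt M) → Prop} (h : ∀ w, w.length = n → A w → B w) :
    Pr M n A ≤ Pr M n B := by
  refine ex_mono n fun w hw => ?_
  by_cases h1 : A w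
  · rw [if_pos h1, if_pos (h w hw h1)]
  · rw [if_neg h1]
    split_ifs
    · exact zero_le_one
    · exact le_rfl

theorem pr_or (n : ℕ) (A B : List (Lt M) → Prop) :
    Pr M n (fun w => A w ∨ B w) ≤ Pr M n A + Pr M n B := by
  unfold Pr
  rw [← ex_add]
  refine ex_mono n fun w _ => ?_
  by_cases h1 : A w
  · rw [if_pos (Or.inl h1), if_pos h1]
    split_ifs
    · norm_num
    · norm_num
  · by_cases h2 : B w
    · rw [if_pos (Or.inr h2), if_neg h1, if_pos h2, zero_add]
    · rw [if_neg (not_or.2 ⟨h1, h2⟩), if_neg h1, if_neg h2, zero_add]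

theorem pr_ex (n m : ℕ) (A : ℕ → List (Lt M) → Prop) :
    Pr M n (fun w => ∃ i < m, A i w) ≤ ∑ i ∈ Finset.range m, Pr M n (A i) := by
  induction m with
  | zero =>
    rw [Finset.sum_range_zero]
    have h1 : Pr M n (fun w => ∃ i < 0, A i w) ≤ Ex M n (fun _ => (0 : ℝ)) := by
      refine ex_mono n fun w _ => ?_
      rw [if_neg]
      rintro ⟨i, hi, _⟩
      exact absurd hi (Nat.not_lt_zero i)
    rwa [ex_const] at h1
  | succ m ih =>
    rw [Finset.sum_range_succ]
    refine le_trans ?_ ((pr_or n (fun w => ∃ i < m, A i w) (A m)).trans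
      (add_le_add ih le_rfl))
    refine pr_mono n fun w _ => ?_
    rintro ⟨i, hi, h2⟩
    rcases Nat.lt_succ_iff_lt_or_eq.1 hi with h3 | h3
    · exact Or.inl ⟨i, h3, h2⟩
    · subst h3
      exact Or.inr h2

theorem pr_not (n : ℕ) (A : List (Lt M) → Prop) :
    Pr M n (fun w => ¬ A w) = 1 - Pr M n A := by
  have h1 : Pr M n (fun w => ¬ A w) + Pr M n A = 1 := by
    unfold Pr
    rw [← ex_add]
    refine (ex_congr n fun w _ => ?_).trans (ex_const n 1)
    by_cases h1 : A w
    · rw [if_pos h1, if_neg (not_not.2 h1), zero_add]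
    · rw [if_neg h1, if_pos h1, add_zero]
  linarith

/-- Markov's inequality. -/
theorem markov (n : ℕ) {F : List (Lt M) → ℝ} (hF : ∀ w, 0 ≤ F w) {a : ℝ} (ha : 0 < a) :
    Pr M n (fun w => a ≤ F w) ≤ Ex M n F / a := by
  rw [le_div_iff₀ ha, mul_comm]
  unfold Pr
  rw [← ex_mul]
  refine ex_mono n fun w _ => ?_
  split_ifs with h1
  · rwa [mul_one]
  · rw [mul_zero]
    exact hF w

end Pool.Agent.H34.SW
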