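import Pool.Agent.H34.SW.X1

/-!
X2: expectations of `slots` and `visits`. Induction on `m`, generalizing `st`.
-/

namespace Pool.Agent.H34.SW

open Pool.Agent.H34.LS Filter

variable {M : ℕ}

private theorem x2_av_sum {ι : Type*} (s : Finset ι) (F : ι → Lt M → ℝ) :
    av (fun l => ∑ i ∈ s, F i l) = ∑ i ∈ s, av (F i) := by
  classical
  induction s using Finset.induction_on with
  | empty =>
    simp only [Finset.sum_empty]
    exact av_const 0
  | insert a s ha ih =>
    simp only [Finset.sum_insert ha]
    rw [av_add, ih]

open Classical in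
private theorem x2_ind (φ : St → Prop) (st : St) (n : ℕ) :
    av (fun l : Lt M => Ex M n (fun w => if φ (run (step st l) w) then 1 else 0)) =
      Ex M (n + 1) (fun w => if φ (run st w) then 1 else 0) := rfl

open Classical in
theorem ex_slots (φ : St → Prop) (st : St) (m : ℕ) :
    Ex M m (fun w => (slots φ st w : ℝ)) =
      1 / ((M : ℝ) + 1) * ∑ n ∈ Finset.range m, Ex M n (fun w => if φ (run st w) then 1 else 0) := by
  induction m generalizing st with
  | zero =>
    rw [Finset.range_zero, Finset.sum_empty, mul_zero]
    change ((slots φ st ([] : List (Lt M)) : ℕ) : ℝ) = 0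
    rw [slots, Nat.cast_zero]
  | succ m ih =>
    have h1 : ∀ l : Lt M, Ex M m (fun w => (slots φ st (l :: w) : ℝ)) =
        (if l.1 = 0 then (if φ st then 1 else 0) else 0) +
          1 / ((M : ℝ) + 1) * ∑ n ∈ Finset.range m,
            Ex M n (fun w => if φ (run (step st l) w) then 1 else 0) := by
      intro l
      rw [← ih (step st l), ← ex_const (M := M) m (if l.1 = 0 then (if φ st then (1 : ℝ) else 0) else 0),
        ← ex_add]
      congr 1
      funext w
      rw [slots]
      push_cast
      congr 1
      by_cases h : l.1 = 0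
      · by_cases h2 : φ st
        · simp [h, h2]
        · simp [h, h2]
      · simp [h]
    change av (fun l => Ex M m (fun w => (slots φ st (l :: w) : ℝ))) = _
    simp only [h1]
    rw [av_add, av_mul, x2_av_sum, av_slot, Finset.sum_range_succ', mul_add, add_comm]
    congr 1
    change _ = 1 / ((M : ℝ) + 1) * (if φ st then 1 else 0)
    rw [div_eq_mul_one_div, mul_comm]

open Classical in
theorem ex_visits (φ : St → Prop) (st : St) (m : ℕ) :
    Ex M m (fun w => (visits φ st w : ℝ)) =
      ∑ n ∈ Finset.range m, Ex M (n + 1) (fun w => if φ (run st w) then 1 else 0) := by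
  induction m generalizing st with
  | zero =>
    rw [Finset.range_zero, Finset.sum_empty]
    change ((visits φ st ([] : List (Lt M)) : ℕ) : ℝ) = 0
    rw [visits, Nat.cast_zero]
  | succ m ih =>
    have h1 : ∀ l : Lt M, Ex M m (fun w => (visits φ st (l :: w) : ℝ)) =
        (if φ (step st l) then 1 else 0) + ∑ n ∈ Finset.range m,
            Ex M (n + 1) (fun w => if φ (run (step st l) w) then 1 else 0) := by
      intro l
      rw [← ih (step st l), ← ex_const (M := M) m (if φ (step st l) then (1 : ℝ) else 0), ← ex_add]
      congr 1
      funext w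
      rw [visits]
      push_cast
      rfl
    change av (fun l => Ex M m (fun w => (visits φ st (l :: w) : ℝ))) = _
    simp only [h1]
    rw [av_add, x2_av_sum, Finset.sum_range_succ', add_comm]
    rfl

/-- `slots` is monotone in `φ`. -/
theorem slots_mono {φ ψ : St → Prop} (h : ∀ s, φ s → ψ s) (st : St) (w : List (Lt M)) :
    slots φ st w ≤ slots ψ st w := by
  classical
  induction w generalizing st with
  | nil => exact le_refl _
  | cons l w ih =>
    rw [slots, slots]
    refine Nat.add_le_add ?_ (ih _)
    by_cases h1 : l.1 = 0 ∧ φ st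
    · rw [if_pos h1, if_pos ⟨h1.1, h st h1.2⟩]
    · rw [if_neg h1]
      exact Nat.zero_le _

end Pool.Agent.H34.SW
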